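import Pool.Agent.N846.AT.Mean

set_option autoImplicit false

namespace Pool.Agent.N846.AT

open Finset Complex MeasureTheory
open scoped BigOperators ComplexConjugate

namespace Avg

open Mean

lemma continuous_pt {n : ℕ} : Continuous (fun θ : Fin n → ℝ => pt θ) := by
  unfold pt
  fun_prop

lemma continuous_word {n : ℕ} (w : List ℤ) :
    Continuous (fun θ : Fin n → ℝ => word (pt θ) w) := by
  have hps : ∀ m : ℤ, Continuous (fun θ : Fin n → ℝ => psum (pt θ) m) := by
    intro m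
    unfold psum
    refine continuous_finsetSum _ fun i _ => ?_
    have hc : Continuous (fun θ : Fin n → ℝ => pt θ i) := (continuous_apply i).comp continuous_pt
    refine hc.zpow₀ m fun θ => Or.inl ?_
    intro h
    have := norm_pt θ i
    rw [h] at this
    simp at this
  unfold word
  induction w with
  | nil => simpa using continuous_const
  | cons m w ih =>
    simp only [List.map_cons, List.prod_cons]
    exact (hps m).mul ih

lemma integrable_word (hD : S_DEN) {n : ℕ} {q : ℝ} (hq : 2 ≤ q) (w : List ℤ) :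
    IntegrableOn (fun θ : Fin n → ℝ => word (pt θ) w * (dens q θ : ℂ)) (Set.Icc (0 : Fin n → ℝ) 1) := by
  have hc : Continuous (fun θ : Fin n → ℝ => word (pt θ) w * (dens q θ : ℂ)) :=
    (continuous_word w).mul (Complex.continuous_ofReal.comp (hD n q hq).1)
  exact hc.continuousOn.integrableOn_compact isCompact_Icc

lemma list_int (hD : S_DEN) {n : ℕ} {q : ℝ} (hq : 2 ≤ q) (L : List (List ℤ)) :
    IntegrableOn (fun θ : Fin n → ℝ => (L.map (word (pt θ))).sum * (dens q θ : ℂ))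
      (Set.Icc (0 : Fin n → ℝ) 1) ∧
    ∫ θ in Set.Icc (0 : Fin n → ℝ) 1, (L.map (word (pt θ))).sum * (dens q θ : ℂ) =
      (L.map (fun w => ∫ θ in Set.Icc (0 : Fin n → ℝ) 1, word (pt θ) w * (dens q θ : ℂ))).sum := by
  induction L with
  | nil => simp
  | cons w L ih =>
    simp only [List.map_cons, List.sum_cons, add_mul]
    refine ⟨(integrable_word hD hq w).add ih.1, ?_⟩
    rw [integral_add (integrable_word hD hq w) ih.1, ih.2]

lemma list_div (L : List (List ℤ)) (f : List ℤ → ℂ) (m : ℂ) :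
    (L.map f).sum / m = (L.map (fun w => f w / m)).sum := by
  induction L with
  | nil => simp
  | cons w L ih => simp only [List.map_cons, List.sum_cons, add_div, ih]

lemma pl_trQ (hD : S_DEN) {n K : ℕ} {q : ℝ} (hq : 2 ≤ q) (Q : Polynomial ℝ)
    (L : ℕ → List (List ℤ)) (hL : ∀ r, ∀ a : Fin n → ℂ, ((H a) ^ r).trace = ((L r).map (word a)).sum) :
    pl q (fun a : Fin n → ℂ => trQ K Q a) = ∑ r ∈ range (2 * K + 1),
      (Q.coeff r : ℂ) * ((L r).map (fun w => pl q (fun a : Fin n → ℂ => word a w))).sum := by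
  unfold pl trQ
  simp_rw [hL]
  have h1 : ∀ θ : Fin n → ℝ, (∑ r ∈ range (2 * K + 1), (Q.coeff r : ℂ) *
      ((L r).map (word (pt θ))).sum) * (dens q θ : ℂ) = ∑ r ∈ range (2 * K + 1),
      (Q.coeff r : ℂ) * (((L r).map (word (pt θ))).sum * (dens q θ : ℂ)) := by
    intro θ
    rw [sum_mul]
    exact sum_congr rfl fun r _ => by ring
  simp_rw [h1]
  rw [integral_finsetSum]
  · rw [sum_div]
    refine sum_congr rfl fun r _ => ?_
    rw [integral_const_mul, (list_int hD hq (L r)).2, mul_div_assoc, list_div]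
  · intro r _
    exact (list_int hD hq (L r)).1.const_mul _

lemma list_norm (L : List (List ℤ)) (f : List ℤ → ℂ) (B : ℝ) (h : ∀ w ∈ L, ‖f w‖ ≤ B) :
    ‖(L.map f).sum‖ ≤ L.length * B := by
  induction L with
  | nil => simp
  | cons w L ih =>
    simp only [List.map_cons, List.sum_cons, List.length_cons]
    have h1 := ih fun v hv => h v (List.mem_cons_of_mem _ hv)
    have h2 := h w List.mem_cons_self
    calc ‖f w + (L.map f).sum‖ ≤ ‖f w‖ + ‖(L.map f).sum‖ := norm_add_le _ _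
      _ ≤ B + L.length * B := add_le_add h2 h1
      _ = ((L.length + 1 : ℕ) : ℝ) * B := by push_cast; ring

lemma sum_list {Form : Type} (F : Finset Form) (L : List (List ℤ)) (f : Form → List ℤ → ℂ) :
    ∑ φ ∈ F, (L.map (f φ)).sum = (L.map (fun w => ∑ φ ∈ F, f φ w)).sum := by
  induction L with
  | nil => simp
  | cons w L ih => simp only [List.map_cons, List.sum_cons, sum_add_distrib, ih]

lemma list_sub (L : List (List ℤ)) (f g : List ℤ → ℂ) :
    (L.map f).sum - (L.map g).sum = (L.map (fun w => f w - g w)).sum := by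
  induction L with
  | nil => simp
  | cons w L ih =>
    simp only [List.map_cons, List.sum_cons]
    rw [← ih]
    ring

lemma list_mul (L : List (List ℤ)) (f : List ℤ → ℂ) (m : ℂ) :
    m * (L.map f).sum = (L.map (fun w => m * f w)).sum := by
  induction L with
  | nil => simp
  | cons w L ih => simp only [List.map_cons, List.sum_cons, mul_add, ih]

/-- the number of non-tempered members -/
theorem avg (hH : S_HER) (hP : S_POW) (hW : S_WRD) (hC : S_CHE) (hL : S_LOW) (hD : S_DEN)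
    (hM : S_MASS) (hS : S_STAR) {n : ℕ} (hn : 1 ≤ n) {s : ℝ} (hs0 : 0 ≤ s) (hs1 : s < 1) :
    ∃ C : ℝ, 0 < C ∧ ∀ (Form : Type) (F : Finset Form) (α : Form → Fin n → ℂ),
      (∀ φ ∈ F, Unitary (α φ)) → ∀ q : ℝ, 2 ≤ q → ∀ (E A : ℝ), 0 ≤ E → 0 ≤ A →
      (∀ w : List ℤ, w.sum = 0 →
        ‖∑ φ ∈ F, word (α φ) w - (F.card : ℂ) * pl q (fun a : Fin n → ℂ => word a w)‖ ≤
          E * (n : ℝ) ^ w.length * q ^ (A * (w.map (fun m => (m.natAbs : ℕ))).sum)) →
      ∀ K : ℕ, 1 ≤ K → ∀ G : Finset Form, G ⊆ F → (∀ φ ∈ G, ¬ Tempered (α φ)) →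
        (G.card : ℝ) ≤ C * (K : ℝ) ^ (-(2 + s)) * F.card +
          E * n * q ^ ((2 * A * n + 10 + 4 * n) * K) := by
  obtain ⟨C, hC0, hmean⟩ := mean hH hP hL hD hM hS hn hs0 hs1
  refine ⟨C, hC0, fun Form F α hU q hq E A hE hA hEQ K hK G hG hnt => ?_⟩
  obtain ⟨Q, hQ1, hQ2, hQ3, hQ4, hQ5, hQ6⟩ := hC n K hn hK
  have hgood : Good n K Q := ⟨hQ1, hQ3, hQ5, hQ6⟩
  choose L hLlen hLw hLtr using hW n
  have hq1 : (1 : ℝ) ≤ q := by linarith
  have hq0 : (0 : ℝ) < q := by linarith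
  have hn1 : (1 : ℝ) ≤ n := by exact_mod_cast hn
  -- every term is a nonnegative real number
  have hval : ∀ φ ∈ F, ∃ v : ℝ, trQ K Q (α φ) = (v : ℂ) ∧ 0 ≤ v ∧ (¬ Tempered (α φ) → 1 ≤ v) := by
    intro φ hφ
    obtain ⟨h, hneg⟩ := hH n (α φ) (hU φ hφ)
    refine ⟨∑ i, Q.eval (h.eigenvalues i), trQ_eq hP hQ1 h, sum_nonneg fun i _ => hQ3 _, fun hT => ?_⟩
    obtain ⟨i, hi⟩ := hneg hT
    calc (1 : ℝ) ≤ Q.eval (h.eigenvalues i) := hQ4 _ hi
      _ ≤ ∑ i, Q.eval (h.eigenvalues i) :=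
        single_le_sum (f := fun i => Q.eval (h.eigenvalues i)) (fun i _ => hQ3 _) (mem_univ i)
  have hcount : (G.card : ℝ) ≤ (∑ φ ∈ F, trQ K Q (α φ)).re := by
    rw [Complex.re_sum]
    calc (G.card : ℝ) = ∑ _φ ∈ G, (1 : ℝ) := by simp
      _ ≤ ∑ φ ∈ G, (trQ K Q (α φ)).re := by
          refine sum_le_sum fun φ hφ => ?_
          obtain ⟨v, hv, -, h1⟩ := hval φ (hG hφ)
          rw [hv, Complex.ofReal_re]
          exact h1 (hnt φ hφ)
      _ ≤ ∑ φ ∈ F, (trQ K Q (α φ)).re := by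
          refine sum_le_sum_of_subset_of_nonneg hG fun φ hφ _ => ?_
          obtain ⟨v, hv, h0, -⟩ := hval φ hφ
          rw [hv, Complex.ofReal_re]
          exact h0
  -- the equidistribution
  have hdiff : ‖∑ φ ∈ F, trQ K Q (α φ) - (F.card : ℂ) * pl q (fun a : Fin n → ℂ => trQ K Q a)‖ ≤
      E * n * q ^ ((2 * A * n + 10 + 4 * n) * K) := by
    rw [pl_trQ hD hq Q L fun r a => hLtr r a]
    have h1 : ∑ φ ∈ F, trQ K Q (α φ) = ∑ r ∈ range (2 * K + 1), (Q.coeff r : ℂ) *
        ((L r).map (fun w => ∑ φ ∈ F, word (α φ) w)).sum := by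
      unfold trQ
      rw [sum_comm]
      refine sum_congr rfl fun r _ => ?_
      rw [← mul_sum, ← sum_list F (L r) (fun φ w => word (α φ) w)]
      simp_rw [hLtr]
    rw [h1, mul_sum, ← sum_sub_distrib]
    have h2 : ∀ r ∈ range (2 * K + 1), ‖(Q.coeff r : ℂ) *
        ((L r).map (fun w => ∑ φ ∈ F, word (α φ) w)).sum - (F.card : ℂ) * ((Q.coeff r : ℂ) *
        ((L r).map (fun w => pl q (fun a : Fin n → ℂ => word a w))).sum)‖ ≤
        |Q.coeff r| * ((n : ℝ) ^ (2 * K + 1) * (E * (n : ℝ) ^ (2 * K) * q ^ (A * (2 * n * K)))) := by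
      intro r hr
      have hr' : r ≤ 2 * K := by
        have := mem_range.1 hr
        omega
      have e1 : (Q.coeff r : ℂ) * ((L r).map (fun w => ∑ φ ∈ F, word (α φ) w)).sum -
          (F.card : ℂ) * ((Q.coeff r : ℂ) *
          ((L r).map (fun w => pl q (fun a : Fin n → ℂ => word a w))).sum) =
          (Q.coeff r : ℂ) * ((L r).map (fun w => ∑ φ ∈ F, word (α φ) w -
            (F.card : ℂ) * pl q (fun a : Fin n → ℂ => word a w))).sum := by
        rw [← list_sub, ← list_mul]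
        ring
      rw [e1, norm_mul, Complex.norm_real, Real.norm_eq_abs]
      refine mul_le_mul_of_nonneg_left ?_ (abs_nonneg _)
      have hB : ∀ w ∈ L r, ‖∑ φ ∈ F, word (α φ) w -
          (F.card : ℂ) * pl q (fun a : Fin n → ℂ => word a w)‖ ≤
          E * (n : ℝ) ^ (2 * K) * q ^ (A * (2 * n * K)) := by
        intro w hw
        obtain ⟨hw1, hw2, hw3⟩ := hLw r w hw
        refine (hEQ w hw1).trans ?_
        have h3 : (n : ℝ) ^ w.length ≤ (n : ℝ) ^ (2 * K) := pow_le_pow_right₀ hn1 (by omega)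
        have h4 : q ^ (A * (w.map (fun m => (m.natAbs : ℕ))).sum) ≤ q ^ (A * (2 * n * K)) := by
          refine Real.rpow_le_rpow_of_exponent_le hq1 ?_
          refine mul_le_mul_of_nonneg_left ?_ hA
          have h5 : (w.map (fun m => (m.natAbs : ℕ))).sum ≤ n * (2 * K) :=
            hw3.trans (Nat.mul_le_mul_left n hr')
          have h6 : (((w.map (fun m => (m.natAbs : ℕ))).sum : ℕ) : ℝ) ≤ ((n * (2 * K) : ℕ) : ℝ) := by
            exact_mod_cast h5
          refine h6.trans (le_of_eq ?_)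
          push_cast
          ring
        exact mul_le_mul (mul_le_mul_of_nonneg_left h3 hE) h4 (by positivity) (by positivity)
      refine (list_norm (L r) _ _ hB).trans ?_
      refine mul_le_mul_of_nonneg_right ?_ (by positivity)
      have h7 : ((L r).length : ℝ) ≤ ((n ^ (r + 1) : ℕ) : ℝ) := by exact_mod_cast hLlen r
      refine h7.trans ?_
      push_cast
      exact pow_le_pow_right₀ hn1 (by omega)
    refine (norm_sum_le_of_le _ h2).trans ?_
    rw [← sum_mul]
    have hX : (0 : ℝ) ≤ (n : ℝ) ^ (2 * K + 1) * (E * (n : ℝ) ^ (2 * K) * q ^ (A * (2 * n * K))) := by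
      positivity
    refine (mul_le_mul_of_nonneg_right hQ2 hX).trans ?_
    have h8 : (1000 : ℝ) ^ K * ((n : ℝ) ^ (2 * K + 1) * (E * (n : ℝ) ^ (2 * K) * q ^ (A * (2 * n * K)))) =
        E * n * ((1000 * (n : ℝ) ^ 4) ^ K * q ^ (A * (2 * n * K))) := by
      rw [mul_pow, ← pow_mul, pow_succ]
      have : (n : ℝ) ^ (4 * K) = (n : ℝ) ^ (2 * K) * (n : ℝ) ^ (2 * K) := by
        rw [← pow_add]; congr 1; ring
      rw [this]
      ring
    rw [h8]
    refine mul_le_mul_of_nonneg_left ?_ (by positivity)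
    have h9 : (1000 : ℝ) * (n : ℝ) ^ 4 ≤ q ^ ((10 : ℝ) + 4 * n) := by
      have h10 : (n : ℝ) ≤ 2 ^ (n : ℝ) := by
        rw [Real.rpow_natCast]
        exact_mod_cast Nat.lt_two_pow_self.le
      have h11 : (n : ℝ) ^ 4 ≤ 2 ^ (4 * (n : ℝ)) := by
        calc (n : ℝ) ^ 4 ≤ (2 ^ (n : ℝ)) ^ 4 := pow_le_pow_left₀ (by positivity) h10 4
          _ = 2 ^ (4 * (n : ℝ)) := by
            rw [← Real.rpow_natCast (2 ^ (n : ℝ)) 4, ← Real.rpow_mul (by norm_num)]
            congr 1
            push_cast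
            ring
      calc (1000 : ℝ) * (n : ℝ) ^ 4 ≤ 2 ^ (10 : ℝ) * 2 ^ (4 * (n : ℝ)) := by
            refine mul_le_mul ?_ h11 (by positivity) (by positivity)
            rw [show (10 : ℝ) = ((10 : ℕ) : ℝ) by norm_num, Real.rpow_natCast]
            norm_num
        _ = 2 ^ ((10 : ℝ) + 4 * n) := by rw [← Real.rpow_add (by norm_num)]
        _ ≤ q ^ ((10 : ℝ) + 4 * n) := Real.rpow_le_rpow (by norm_num) hq (by positivity)
    calc (1000 * (n : ℝ) ^ 4) ^ K * q ^ (A * (2 * n * K))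
        ≤ (q ^ ((10 : ℝ) + 4 * n)) ^ K * q ^ (A * (2 * n * K)) := by
          refine mul_le_mul_of_nonneg_right ?_ (by positivity)
          exact pow_le_pow_left₀ (by positivity) h9 K
      _ = q ^ ((2 * A * n + 10 + 4 * n) * K) := by
          rw [← Real.rpow_natCast (q ^ ((10 : ℝ) + 4 * n)) K, ← Real.rpow_mul hq0.le,
            ← Real.rpow_add hq0]
          congr 1
          ring
  -- conclusion
  have hm := hmean K hK Q hgood q hq
  have h12 : (∑ φ ∈ F, trQ K Q (α φ)).re ≤ ‖∑ φ ∈ F, trQ K Q (α φ)‖ := Complex.re_le_norm _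
  have h13 : ‖∑ φ ∈ F, trQ K Q (α φ)‖ ≤
      ‖(F.card : ℂ) * pl q (fun a : Fin n → ℂ => trQ K Q a)‖ +
      ‖∑ φ ∈ F, trQ K Q (α φ) - (F.card : ℂ) * pl q (fun a : Fin n → ℂ => trQ K Q a)‖ := by
    have := norm_add_le ((F.card : ℂ) * pl q (fun a : Fin n → ℂ => trQ K Q a))
      (∑ φ ∈ F, trQ K Q (α φ) - (F.card : ℂ) * pl q (fun a : Fin n → ℂ => trQ K Q a))
    rwa [add_sub_cancel] at this
  have h14 : ‖(F.card : ℂ) * pl q (fun a : Fin n → ℂ => trQ K Q a)‖ ≤
      C * (K : ℝ) ^ (-(2 + s)) * F.card := by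
    rw [norm_mul, Complex.norm_natCast, mul_comm]
    exact mul_le_mul_of_nonneg_right hm (by positivity)
  linarith

end Avg

end Pool.Agent.N846.AT
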