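import Mathlib

/-!
# Project AT: spherical cusp forms on PGL(n) are tempered at all small primes, for 100% of the forms
-/

set_option autoImplicit false

namespace Pool.Agent.N846.AT

open Finset Complex MeasureTheory
open scoped BigOperators ComplexConjugate

/-- the power sum `∑ a_i ^ m`, `m` an integer -/
noncomputable def psum {n : ℕ} (a : Fin n → ℂ) (m : ℤ) : ℂ := ∑ i, a i ^ m

/-- product of power sums -/
noncomputable def word {n : ℕ} (a : Fin n → ℂ) (w : List ℤ) : ℂ := (w.map (psum a)).prod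

/-- the multiset of the `a i` does not contain `0` and is stable under `z ↦ 1 / conj z` -/
def Unitary {n : ℕ} (a : Fin n → ℂ) : Prop :=
  (∀ i, a i ≠ 0) ∧ ∃ σ : Equiv.Perm (Fin n), ∀ i, a (σ i) = (conj (a i))⁻¹

/-- all parameters have absolute value one -/
def Tempered {n : ℕ} (a : Fin n → ℂ) : Prop := ∀ i, ‖a i‖ = 1

/-- the point `(e^(2 π i θ_1), ..., e^(2 π i θ_n))` of the torus -/
noncomputable def pt {n : ℕ} (θ : Fin n → ℝ) : Fin n → ℂ :=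
  fun j => Complex.exp (2 * (Real.pi : ℂ) * (θ j : ℂ) * Complex.I)

/-- density of the unramified Plancherel measure (not normalised) -/
noncomputable def dens {n : ℕ} (q : ℝ) (θ : Fin n → ℝ) : ℝ :=
  ∏ i : Fin n, ∏ j ∈ univ.filter (fun j => i < j),
    ‖pt θ i - pt θ j‖ ^ 2 / ‖pt θ i - pt θ j / (q : ℂ)‖ ^ 2

/-- total mass -/
noncomputable def mass (n : ℕ) (q : ℝ) : ℝ := ∫ θ in Set.Icc (0 : Fin n → ℝ) 1, dens q θ

/-- the Plancherel mean of a function of the parameters -/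
noncomputable def pl {n : ℕ} (q : ℝ) (f : (Fin n → ℂ) → ℂ) : ℂ :=
  (∫ θ in Set.Icc (0 : Fin n → ℝ) 1, f (pt θ) * (dens q θ : ℂ)) / (mass n q : ℂ)

/-- the Toeplitz matrix of the power sums -/
noncomputable def H {n : ℕ} (a : Fin n → ℂ) : Matrix (Fin n) (Fin n) ℂ :=
  Matrix.of fun i j => psum a ((i : ℤ) - (j : ℤ))

/-! ## the leaves -/

/-- HER: `H` is Hermitian, and it is not positive definite if the parameters are not tempered. -/
def S_HER : Prop := ∀ (n : ℕ) (a : Fin n → ℂ), Unitary a →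
  ∃ h : (H a).IsHermitian, ¬ Tempered a → ∃ i, h.eigenvalues i ≤ 0

/-- POW: traces of powers and eigenvalues. -/
def S_POW : Prop := ∀ (n : ℕ) (M : Matrix (Fin n) (Fin n) ℂ) (h : M.IsHermitian) (r : ℕ),
  (M ^ r).trace = ∑ i, ((h.eigenvalues i : ℝ) : ℂ) ^ r

/-- WRD: the trace of `H ^ r` is a sum of products of power sums of total weight zero. -/
def S_WRD : Prop := ∀ (n r : ℕ), ∃ L : List (List ℤ), L.length ≤ n ^ (r + 1) ∧
  (∀ w ∈ L, w.sum = 0 ∧ w.length = r ∧ (w.map (fun m => (m.natAbs : ℕ))).sum ≤ n * r) ∧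
  ∀ a : Fin n → ℂ, ((H a) ^ r).trace = (L.map (word a)).sum

/-- CHE: the extremal polynomials. -/
def S_CHE : Prop := ∀ (n K : ℕ), 1 ≤ n → 1 ≤ K → ∃ Q : Polynomial ℝ,
  Q.natDegree ≤ 2 * K ∧ (∑ r ∈ range (2 * K + 1), |Q.coeff r|) ≤ 1000 ^ K ∧
  (∀ x : ℝ, 0 ≤ Q.eval x) ∧ (∀ x : ℝ, x ≤ 0 → 1 ≤ Q.eval x) ∧
  (∀ x : ℝ, 0 ≤ x → x ≤ (n : ℝ) ^ 2 → Q.eval x ≤ 1) ∧
  (∀ x : ℝ, 0 < x → x ≤ (n : ℝ) ^ 2 → Q.eval x ≤ 18 * (n : ℝ) ^ 4 / ((K : ℝ) ^ 2 * x) ^ 2)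

/-- LOW: the eigenvalues of `H` at a tempered point. -/
def S_LOW : Prop := ∀ (n : ℕ) (a : Fin n → ℂ), Tempered a → ∀ (h : (H a).IsHermitian) (i : Fin n),
  0 ≤ h.eigenvalues i ∧ h.eigenvalues i ≤ (n : ℝ) ^ 2 ∧
  (Function.Injective a →
    1 ≤ 4 ^ n * (∑ k, ∏ j ∈ univ.erase k, (‖a k - a j‖ ^ 2)⁻¹) * h.eigenvalues i)

/-- STAR: integrability of the star products. -/
def S_STAR : Prop := ∀ (n : ℕ) (k : Fin n) (s : ℝ), 0 ≤ s → s < 1 →
  IntegrableOn (fun θ : Fin n → ℝ => ∏ j ∈ univ.erase k, ‖pt θ k - pt θ j‖ ^ (-s))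
    (Set.Icc (0 : Fin n → ℝ) 1)

/-- MASS: the total mass is bounded below, uniformly in `q`. -/
def S_MASS : Prop := ∀ n : ℕ, ∃ c : ℝ, 0 < c ∧ ∀ q : ℝ, 2 ≤ q → c ≤ mass n q

/-- DEN: the density is continuous, nonnegative and at most `4 ^ (n ^ 2)` times the squared
Vandermonde determinant. -/
def S_DEN : Prop := ∀ (n : ℕ) (q : ℝ), 2 ≤ q → Continuous (fun θ : Fin n → ℝ => dens q θ) ∧
  ∀ θ : Fin n → ℝ, 0 ≤ dens q θ ∧
    dens q θ ≤ 4 ^ (n ^ 2) * ∏ i : Fin n, ∏ j ∈ univ.filter (fun j => i < j), ‖pt θ i - pt θ j‖ ^ 2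

end Pool.Agent.N846.AT
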