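import Mathlib
import Pool.Agent.N846.AT.Stm

/-!
# Project AT (helper846): CHE, extremal polynomials from Chebyshev polynomials (helper291)
-/

set_option autoImplicit false

namespace Pool.Agent.N846.AT

open Polynomial Finset

namespace ChePoly

/-- values of the Chebyshev polynomials of the second kind, `v y m = U_(m-1) (y)` -/
def v (y : ℝ) : ℕ → ℝ
  | 0 => 0
  | 1 => 1
  | (k + 2) => 2 * y * v y (k + 1) - v y k

/-- the corresponding polynomials in `X`, `V Y m = U_(m-1) (Y)` -/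
noncomputable def V (Y : ℝ[X]) : ℕ → ℝ[X]
  | 0 => 0
  | 1 => 1
  | (k + 2) => 2 * Y * V Y (k + 1) - V Y k

/-- majorants -/
noncomputable def W (Y : ℝ[X]) : ℕ → ℝ[X]
  | 0 => 0
  | 1 => 1
  | (k + 2) => 2 * Y * W Y (k + 1) + W Y k

theorem eval_V (Y : ℝ[X]) (x : ℝ) : ∀ m, (V Y m).eval x = v (Y.eval x) m
  | 0 => by simp [V, v]
  | 1 => by simp [V, v]
  | (k + 2) => by simp [V, v, eval_V Y x (k + 1), eval_V Y x k]

theorem natDegree_V (Y : ℝ[X]) (hY : Y.natDegree ≤ 1) : ∀ m, (V Y m).natDegree ≤ m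
  | 0 => by simp [V]
  | 1 => by simp [V]
  | (k + 2) => by
    have h1 := natDegree_V Y hY (k + 1)
    have h2 := natDegree_V Y hY k
    rw [V]
    refine (natDegree_sub_le _ _).trans (max_le ?_ (by omega))
    refine natDegree_mul_le.trans ?_
    have h3 : (2 * Y : ℝ[X]).natDegree ≤ 1 := by
      have : (2 : ℝ[X]) = C 2 := (map_ofNat C 2).symm
      rw [this]
      exact (natDegree_C_mul_le _ _).trans hY
    omega

theorem v_big (y : ℝ) (hy : 1 ≤ y) : ∀ m : ℕ, (m : ℝ) ≤ v y m ∧ 1 ≤ v y (m + 1) - v y m := by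
  intro m
  induction m with
  | zero => simp [v]
  | succ k ih =>
    obtain ⟨h1, h2⟩ := ih
    have h3 : ((k + 1 : ℕ) : ℝ) ≤ v y (k + 1) := by push_cast; linarith
    refine ⟨h3, ?_⟩
    have h4 : v y (k + 1 + 1) = 2 * y * v y (k + 1) - v y k := rfl
    have h5 : (0 : ℝ) ≤ v y (k + 1) := le_trans (by positivity) h3
    rw [h4]
    nlinarith [mul_nonneg (sub_nonneg.2 hy) h5]

theorem v_cos (t : ℝ) : ∀ m : ℕ, v (Real.cos t) m * Real.sin t = Real.sin (m * t) ∧
    v (Real.cos t) (m + 1) = Real.cos (m * t) + Real.cos t * v (Real.cos t) m := by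
  intro m
  induction m with
  | zero => simp [v]
  | succ k ih =>
    obtain ⟨h1, h2⟩ := ih
    have e1 : Real.sin (((k + 1 : ℕ) : ℝ) * t) =
        Real.sin (k * t) * Real.cos t + Real.cos (k * t) * Real.sin t := by
      rw [← Real.sin_add]; congr 1; push_cast; ring
    have e2 : Real.cos (((k + 1 : ℕ) : ℝ) * t) =
        Real.cos (k * t) * Real.cos t - Real.sin (k * t) * Real.sin t := by
      rw [← Real.cos_add]; congr 1; push_cast; ring
    refine ⟨?_, ?_⟩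
    · rw [e1, h2, ← h1]; ring
    · have h4 : v (Real.cos t) (k + 1 + 1) =
        2 * Real.cos t * v (Real.cos t) (k + 1) - v (Real.cos t) k := rfl
      rw [h4, e2, ← h1, h2]
      have h5 := Real.sin_sq_add_cos_sq t
      linear_combination (v (Real.cos t) k) * h5

theorem v_abs (t : ℝ) : ∀ m : ℕ, |v (Real.cos t) m| ≤ m := by
  intro m
  induction m with
  | zero => simp [v]
  | succ k ih =>
    rw [(v_cos t k).2]
    calc |Real.cos (k * t) + Real.cos t * v (Real.cos t) k|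
        ≤ |Real.cos (k * t)| + |Real.cos t * v (Real.cos t) k| := abs_add_le _ _
      _ ≤ 1 + 1 * k := by
        rw [abs_mul]
        exact add_le_add (Real.abs_cos_le_one _)
          (mul_le_mul (Real.abs_cos_le_one _) ih (abs_nonneg _) zero_le_one)
      _ = ((k + 1 : ℕ) : ℝ) := by push_cast; ring

/-- `S y K = ∑ m ≤ K, m v_m` -/
noncomputable def s (y : ℝ) (K : ℕ) : ℝ := ∑ m ∈ range (K + 1), (m : ℝ) * v y m

noncomputable def sig (K : ℕ) : ℝ := ∑ m ∈ range (K + 1), (m : ℝ) * m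

theorem sig_ge (K : ℕ) : (K : ℝ) ^ 3 / 3 ≤ sig K := by
  induction K with
  | zero => simp [sig]
  | succ k ih =>
    unfold sig at ih ⊢
    rw [sum_range_succ]
    push_cast
    nlinarith

theorem sig_one (K : ℕ) (hK : 1 ≤ K) : 1 ≤ sig K := by
  unfold sig
  have h : (1 : ℝ) = ((1 : ℕ) : ℝ) * ((1 : ℕ) : ℝ) := by norm_num
  rw [h]
  exact single_le_sum (f := fun m : ℕ => (m : ℝ) * m) (fun i _ => by positivity)
    (mem_range.2 (by omega))

theorem s_big (y : ℝ) (hy : 1 ≤ y) (K : ℕ) : sig K ≤ s y K := by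
  unfold sig s
  exact sum_le_sum fun m _ => mul_le_mul_of_nonneg_left (v_big y hy m).1 (by positivity)

theorem s_abs (t : ℝ) (K : ℕ) : |s (Real.cos t) K| ≤ sig K := by
  unfold sig s
  refine (abs_sum_le_sum_abs _ _).trans (sum_le_sum fun m _ => ?_)
  rw [abs_mul, abs_of_nonneg (by positivity : (0 : ℝ) ≤ m)]
  exact mul_le_mul_of_nonneg_left (v_abs t m) (by positivity)

theorem abel (t : ℝ) (K : ℕ) : 2 * Real.sin (t / 2) * ∑ m ∈ range (K + 1), (m : ℝ) * Real.sin (m * t)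
    = ∑ m ∈ range K, Real.cos ((m + 1 / 2) * t) - K * Real.cos ((K + 1 / 2) * t) := by
  induction K with
  | zero => simp
  | succ k ih =>
    rw [sum_range_succ, mul_add, ih, sum_range_succ]
    have e1 : Real.cos (((k + 1 : ℕ) : ℝ) * t - t / 2) =
        Real.cos (((k + 1 : ℕ) : ℝ) * t) * Real.cos (t / 2) +
        Real.sin (((k + 1 : ℕ) : ℝ) * t) * Real.sin (t / 2) := Real.cos_sub _ _
    have e2 : Real.cos (((k + 1 : ℕ) : ℝ) * t + t / 2) =
        Real.cos (((k + 1 : ℕ) : ℝ) * t) * Real.cos (t / 2) -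
        Real.sin (((k + 1 : ℕ) : ℝ) * t) * Real.sin (t / 2) := Real.cos_add _ _
    have e3 : ((k : ℝ) + 1 / 2) * t = ((k + 1 : ℕ) : ℝ) * t - t / 2 := by push_cast; ring
    have e4 : (((k + 1 : ℕ) : ℝ) + 1 / 2) * t = ((k + 1 : ℕ) : ℝ) * t + t / 2 := by ring
    rw [e3, e4, e1, e2]
    push_cast
    ring

theorem s_bound (t : ℝ) (K : ℕ) :
    (s (Real.cos t) K * Real.sin t * Real.sin (t / 2)) ^ 2 ≤ (K : ℝ) ^ 2 := by
  have h1 : s (Real.cos t) K * Real.sin t = ∑ m ∈ range (K + 1), (m : ℝ) * Real.sin (m * t) := by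
    unfold s
    rw [sum_mul]
    refine sum_congr rfl fun m _ => ?_
    rw [← (v_cos t m).1]; ring
  rw [h1]
  have h2 := abel t K
  have h3 : |∑ m ∈ range K, Real.cos ((m + 1 / 2) * t) - K * Real.cos ((K + 1 / 2) * t)| ≤ 2 * K := by
    refine (abs_sub _ _).trans ?_
    have h4 : |∑ m ∈ range K, Real.cos (((m : ℝ) + 1 / 2) * t)| ≤ K := by
      refine (abs_sum_le_sum_abs _ _).trans ?_
      calc ∑ m ∈ range K, |Real.cos (((m : ℝ) + 1 / 2) * t)| ≤ ∑ m ∈ range K, (1 : ℝ) :=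
            sum_le_sum fun m _ => Real.abs_cos_le_one _
        _ = K := by simp
    have h5 : |(K : ℝ) * Real.cos ((K + 1 / 2) * t)| ≤ K := by
      rw [abs_mul, abs_of_nonneg (by positivity : (0 : ℝ) ≤ K)]
      exact mul_le_of_le_one_right (by positivity) (Real.abs_cos_le_one _)
    linarith
  rw [← h2] at h3
  have h6 : |(∑ m ∈ range (K + 1), (m : ℝ) * Real.sin (m * t)) * Real.sin (t / 2)| ≤ K := by
    have h7 : 2 * Real.sin (t / 2) * ∑ m ∈ range (K + 1), (m : ℝ) * Real.sin (m * t) =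
      2 * ((∑ m ∈ range (K + 1), (m : ℝ) * Real.sin (m * t)) * Real.sin (t / 2)) := by ring
    rw [h7, abs_mul, abs_of_pos (by norm_num : (0 : ℝ) < 2)] at h3
    linarith
  rw [← sq_abs]
  exact pow_le_pow_left₀ (abs_nonneg _) h6 2

/-- `s ^ 2 w ^ 2 ≤ 2 K ^ 2` for `w = 1 - y`, `0 ≤ y ≤ 1` -/
theorem s_sq (y : ℝ) (hy0 : 0 ≤ y) (hy1 : y ≤ 1) (K : ℕ) :
    (s y K) ^ 2 * (1 - y) ^ 2 ≤ 2 * (K : ℝ) ^ 2 := by
  have hy : Real.cos (Real.arccos y) = y := Real.cos_arccos (by linarith) hy1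
  set t := Real.arccos y
  have h1 := s_bound t K
  rw [hy] at h1
  have e1 : Real.sin t = 2 * Real.sin (t / 2) * Real.cos (t / 2) := by
    rw [← Real.sin_two_mul]; congr 1; ring
  have e2 : y = 1 - 2 * Real.sin (t / 2) ^ 2 := by
    rw [← hy]
    have := Real.cos_two_mul (t / 2)
    have h3 : 2 * (t / 2) = t := by ring
    rw [h3] at this
    have h4 := Real.sin_sq_add_cos_sq (t / 2)
    linarith
  have h4 := Real.sin_sq_add_cos_sq (t / 2)
  have e3 : (1 - y) ^ 2 * (Real.cos (t / 2)) ^ 2 = (Real.sin t * Real.sin (t / 2)) ^ 2 := by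
    rw [e1, e2]; ring
  have e4 : 1 / 2 ≤ (Real.cos (t / 2)) ^ 2 := by nlinarith
  have e5 : (s y K) ^ 2 * (1 - y) ^ 2 * (Real.cos (t / 2)) ^ 2 ≤ (K : ℝ) ^ 2 := by
    rw [mul_assoc, e3]
    calc _ = (s y K * Real.sin t * Real.sin (t / 2)) ^ 2 := by ring
      _ ≤ _ := h1
  nlinarith [mul_nonneg (mul_nonneg (sq_nonneg (s y K)) (sq_nonneg (1 - y))) (sub_nonneg.2 e4)]

/-! ### majorants -/

/-- the coefficients of `P` are bounded by those of `P'` -/
def Maj (P P' : ℝ[X]) : Prop := ∀ r, |P.coeff r| ≤ P'.coeff r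

theorem Maj.nonneg {P P' : ℝ[X]} (h : Maj P P') (r : ℕ) : 0 ≤ P'.coeff r := (abs_nonneg _).trans (h r)

theorem Maj.add {P P' Q Q' : ℝ[X]} (h : Maj P P') (h' : Maj Q Q') : Maj (P + Q) (P' + Q') := by
  intro r
  rw [coeff_add, coeff_add]
  exact (abs_add_le _ _).trans (add_le_add (h r) (h' r))

theorem Maj.sub {P P' Q Q' : ℝ[X]} (h : Maj P P') (h' : Maj Q Q') : Maj (P - Q) (P' + Q') := by
  intro r
  rw [coeff_sub, coeff_add]
  exact (abs_sub _ _).trans (add_le_add (h r) (h' r))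

theorem Maj.mul {P P' Q Q' : ℝ[X]} (h : Maj P P') (h' : Maj Q Q') : Maj (P * Q) (P' * Q') := by
  intro r
  rw [coeff_mul, coeff_mul]
  refine (abs_sum_le_sum_abs _ _).trans (sum_le_sum fun i _ => ?_)
  rw [abs_mul]
  exact mul_le_mul (h _) (h' _) (abs_nonneg _) (h.nonneg _)

theorem maj_C (a b : ℝ) (h : |a| ≤ b) : Maj (C a) (C b) := by
  intro r
  rw [coeff_C, coeff_C]
  split_ifs
  · exact h
  · simp

theorem maj_zero : Maj 0 0 := fun r => by simp

theorem maj_one : Maj 1 1 := by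
  have := maj_C 1 1 (by norm_num)
  simpa using this

theorem maj_V (Y Y' : ℝ[X]) (h : Maj Y Y') : ∀ m, Maj (V Y m) (W Y' m)
  | 0 => maj_zero
  | 1 => maj_one
  | (k + 2) => by
    have h2 : Maj (2 * Y) (2 * Y') := by
      have := (maj_C 2 2 (by norm_num)).mul h
      have e : (2 : ℝ[X]) = C 2 := (map_ofNat C 2).symm
      rw [e]
      exact this
    exact (h2.mul (maj_V Y Y' h (k + 1))).sub (maj_V Y Y' h k)

theorem maj_sum {ι : Type} (F : Finset ι) (f g : ι → ℝ[X]) (h : ∀ i ∈ F, Maj (f i) (g i)) :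
    Maj (∑ i ∈ F, f i) (∑ i ∈ F, g i) := by
  intro r
  rw [finsetSum_coeff, finsetSum_coeff]
  exact (abs_sum_le_sum_abs _ _).trans (sum_le_sum fun i hi => h i hi r)

theorem maj_bound (P P' : ℝ[X]) (h : Maj P P') (N : ℕ) :
    ∑ r ∈ range N, |P.coeff r| ≤ P'.eval 1 := by
  have h1 : P'.eval 1 = ∑ r ∈ range (max N (P'.natDegree + 1)), P'.coeff r := by
    rw [eval_eq_sum_range' (n := max N (P'.natDegree + 1)) (by omega)]
    simp
  rw [h1]
  refine (sum_le_sum fun r _ => h r).trans ?_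
  exact sum_le_sum_of_subset_of_nonneg (range_mono (le_max_left _ _)) fun r _ _ => h.nonneg r

theorem W_eval (Y : ℝ[X]) (hY : Y.eval 1 = 2) : ∀ m, (W Y m).eval 1 ≤ 5 ^ m ∧ 0 ≤ (W Y m).eval 1
  | 0 => by simp [W]
  | 1 => by simp [W]
  | (k + 2) => by
    obtain ⟨h1, h1'⟩ := W_eval Y hY (k + 1)
    obtain ⟨h2, h2'⟩ := W_eval Y hY k
    rw [W]
    simp only [eval_add, eval_mul, eval_ofNat, hY]
    refine ⟨?_, by positivity⟩
    have : (0 : ℝ) < 5 ^ k := by positivity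
    rw [pow_succ] at h1
    rw [pow_add]
    nlinarith

theorem sum_le (K : ℕ) : ∑ m ∈ range (K + 1), (m : ℝ) * 5 ^ m ≤ 10 ^ K := by
  induction K with
  | zero => simp
  | succ k ih =>
    rw [sum_range_succ]
    have h1 : ((k : ℝ) + 1) ≤ 2 ^ k := by
      have := Nat.lt_two_pow_self (n := k)
      exact_mod_cast this
    have h2 : ((k + 1 : ℕ) : ℝ) * 5 ^ (k + 1) ≤ 9 * 10 ^ k := by
      have e : (10 : ℝ) ^ k = 2 ^ k * 5 ^ k := by rw [← mul_pow]; norm_num
      rw [e, pow_succ]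
      push_cast
      have h5 : (0 : ℝ) < 5 ^ k := by positivity
      have h6 : (0 : ℝ) < 2 ^ k := by positivity
      nlinarith [mul_le_mul_of_nonneg_right h1 h5.le]
    calc _ ≤ (10 : ℝ) ^ k + 9 * 10 ^ k := add_le_add ih h2
      _ = 10 ^ (k + 1) := by ring

end ChePoly

open ChePoly in
theorem che : S_CHE := by
  intro n K hn hK
  have hn1 : (1 : ℝ) ≤ n := by exact_mod_cast hn
  have hn2 : (1 : ℝ) ≤ (n : ℝ) ^ 2 := one_le_pow₀ hn1
  have hn0 : (0 : ℝ) < (n : ℝ) ^ 2 := by positivity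
  have hK0 : (0 : ℝ) < K := by exact_mod_cast hK
  have hs1 := sig_one K hK
  have hs0 : 0 < sig K := by linarith
  have hs3 := sig_ge K
  set Y : ℝ[X] := C 1 + C (-((n : ℝ) ^ 2)⁻¹) * X with hYd
  have hYe : ∀ x : ℝ, Y.eval x = 1 - x / (n : ℝ) ^ 2 := by
    intro x
    simp only [hYd, eval_add, eval_C, eval_mul, eval_X]
    rw [div_eq_mul_inv]
    ring
  have hYdeg : Y.natDegree ≤ 1 := by
    rw [hYd]
    refine (natDegree_add_le _ _).trans (max_le (by simp) ?_)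
    exact (natDegree_C_mul_le _ _).trans natDegree_X_le
  set S : ℝ[X] := ∑ m ∈ range (K + 1), C (m : ℝ) * V Y m with hS
  have hSe : ∀ x : ℝ, S.eval x = s (1 - x / (n : ℝ) ^ 2) K := by
    intro x
    rw [hS, eval_finsetSum]
    unfold s
    refine sum_congr rfl fun m _ => ?_
    rw [eval_mul, eval_C, eval_V, hYe]
  have hSdeg : S.natDegree ≤ K := by
    rw [hS]
    refine natDegree_sum_le_of_forall_le _ _ fun m hm => ?_
    refine (natDegree_C_mul_le _ _).trans ((natDegree_V Y hYdeg m).trans ?_)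
    have := mem_range.1 hm
    omega
  have hQe : ∀ x : ℝ, ((C (sig K)⁻¹ * S) ^ 2).eval x = (s (1 - x / (n : ℝ) ^ 2) K / sig K) ^ 2 := by
    intro x
    rw [eval_pow, eval_mul, eval_C, hSe]
    ring
  refine ⟨(C (sig K)⁻¹ * S) ^ 2, ?_, ?_, ?_, ?_, ?_, ?_⟩
  · refine natDegree_pow_le.trans ?_
    have := (natDegree_C_mul_le (sig K)⁻¹ S).trans hSdeg
    omega
  · -- coefficients
    have hmY : Maj Y (C 1 + C 1 * X) := by
      have hX : Maj X X := by
        intro r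
        rw [coeff_X]
        split_ifs <;> simp
      refine (maj_C 1 1 (by norm_num)).add ((maj_C _ 1 ?_).mul hX)
      rw [abs_neg, abs_of_nonneg (by positivity)]
      exact inv_le_one_of_one_le₀ hn2
    have hmS : Maj S (∑ m ∈ range (K + 1), C (m : ℝ) * W (C 1 + C 1 * X) m) :=
      maj_sum _ _ _ fun m _ => (maj_C _ _ (by rw [abs_of_nonneg (by positivity)])).mul
        (maj_V _ _ hmY m)
    have hm1 : Maj (C (sig K)⁻¹ * S) (C 1 * ∑ m ∈ range (K + 1), C (m : ℝ) * W (C 1 + C 1 * X) m) := by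
      refine (maj_C _ 1 ?_).mul hmS
      rw [abs_of_nonneg (by positivity)]
      exact inv_le_one_of_one_le₀ hs1
    have hm2 := hm1.mul hm1
    rw [← sq, ← sq] at hm2
    refine (maj_bound _ _ hm2 _).trans ?_
    rw [eval_pow, eval_mul, eval_C, one_mul, eval_finsetSum]
    have hw := W_eval (C 1 + C 1 * X) (by simp; norm_num)
    have h1 : ∑ m ∈ range (K + 1), (C (m : ℝ) * W (C 1 + C 1 * X) m).eval 1 ≤ 10 ^ K := by
      refine le_trans (sum_le_sum fun m _ => ?_) (sum_le K)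
      rw [eval_mul, eval_C]
      exact mul_le_mul_of_nonneg_left (hw m).1 (by positivity)
    have h0 : 0 ≤ ∑ m ∈ range (K + 1), (C (m : ℝ) * W (C 1 + C 1 * X) m).eval 1 := by
      refine sum_nonneg fun m _ => ?_
      rw [eval_mul, eval_C]
      exact mul_nonneg (by positivity) (hw m).2
    calc _ ≤ ((10 : ℝ) ^ K) ^ 2 := pow_le_pow_left₀ h0 h1 2
      _ = 100 ^ K := by rw [← pow_mul, mul_comm, pow_mul]; norm_num
      _ ≤ 1000 ^ K := pow_le_pow_left₀ (by norm_num) (by norm_num) K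
  · intro x
    rw [hQe]
    positivity
  · intro x hx
    rw [hQe]
    have h1 : 1 ≤ 1 - x / (n : ℝ) ^ 2 := by
      have : x / (n : ℝ) ^ 2 ≤ 0 := div_nonpos_of_nonpos_of_nonneg hx hn0.le
      linarith
    have h2 := s_big _ h1 K
    have h3 : 1 ≤ s (1 - x / (n : ℝ) ^ 2) K / sig K := by
      rw [le_div_iff₀ hs0]; linarith
    exact one_le_pow₀ h3
  · intro x hx0 hx1
    rw [hQe, ← sq_abs, abs_div, abs_of_pos hs0]
    have h0 : 0 ≤ x / (n : ℝ) ^ 2 := by positivity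
    have h1 : x / (n : ℝ) ^ 2 ≤ 1 := by rw [div_le_one hn0]; exact hx1
    have hy : Real.cos (Real.arccos (1 - x / (n : ℝ) ^ 2)) = 1 - x / (n : ℝ) ^ 2 :=
      Real.cos_arccos (by linarith) (by linarith)
    have h2 := s_abs (Real.arccos (1 - x / (n : ℝ) ^ 2)) K
    rw [hy] at h2
    exact pow_le_one₀ (by positivity) (by rw [div_le_one hs0]; exact h2)
  · intro x hx0 hx1
    rw [hQe]
    have h0 : 0 < x / (n : ℝ) ^ 2 := by positivity
    have h1 : x / (n : ℝ) ^ 2 ≤ 1 := by rw [div_le_one hn0]; exact hx1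
    have h2 := s_sq (1 - x / (n : ℝ) ^ 2) (by linarith) (by linarith) K
    have e1 : (1 - (1 - x / (n : ℝ) ^ 2)) = x / (n : ℝ) ^ 2 := by ring
    rw [e1] at h2
    have h3 : (s (1 - x / (n : ℝ) ^ 2) K) ^ 2 ≤ 2 * (K : ℝ) ^ 2 / (x / (n : ℝ) ^ 2) ^ 2 := by
      rw [le_div_iff₀ (by positivity)]; exact h2
    rw [div_pow, div_le_iff₀ (by positivity)]
    refine h3.trans ?_
    have h4 : ((K : ℝ) ^ 3 / 3) ^ 2 ≤ sig K ^ 2 := pow_le_pow_left₀ (by positivity) hs3 2
    have h5 : 2 * (K : ℝ) ^ 2 / (x / (n : ℝ) ^ 2) ^ 2 =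
        18 * (n : ℝ) ^ 4 / ((K : ℝ) ^ 2 * x) ^ 2 * ((K : ℝ) ^ 3 / 3) ^ 2 := by
      field_simp
      ring
    rw [h5]
    exact mul_le_mul_of_nonneg_left h4 (by positivity)

end Pool.Agent.N846.AT
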