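import Pool.Agent.N846.AT.Stm

/-!
# Project AT, part DEN (helper833): the density and its total mass
-/

set_option autoImplicit false

namespace Pool.Agent.N846.AT

open Finset Complex MeasureTheory

namespace DenAux

variable {n : ℕ}

theorem norm_pt (θ : Fin n → ℝ) (i : Fin n) : ‖pt θ i‖ = 1 := by
  unfold pt
  have h : (2 * (Real.pi : ℂ) * (θ i : ℂ) * Complex.I) = ((2 * Real.pi * θ i : ℝ) : ℂ) * Complex.I := by
    push_cast
    ring
  rw [h, Complex.norm_exp_ofReal_mul_I]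

theorem pt_cont (i : Fin n) : Continuous (fun θ : Fin n → ℝ => pt θ i) := by
  unfold pt
  fun_prop

theorem den_bound {q : ℝ} (hq : 2 ≤ q) (θ : Fin n → ℝ) (i j : Fin n) :
    1 / 2 ≤ ‖pt θ i - pt θ j / (q : ℂ)‖ ∧ ‖pt θ i - pt θ j / (q : ℂ)‖ ≤ 3 / 2 := by
  have hq0 : 0 < q := by linarith
  have h1 : ‖pt θ j / (q : ℂ)‖ ≤ 1 / 2 := by
    rw [norm_div, norm_pt, Complex.norm_real, Real.norm_eq_abs, abs_of_pos hq0]
    exact one_div_le_one_div_of_le (by norm_num) hq
  have h2 := norm_pt θ i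
  constructor
  · have := norm_sub_norm_le (pt θ i) (pt θ j / (q : ℂ))
    linarith
  · have := norm_sub_le (pt θ i) (pt θ j / (q : ℂ))
    linarith

/-- the squared Vandermonde determinant -/
noncomputable def V (θ : Fin n → ℝ) : ℝ :=
  ∏ i : Fin n, ∏ j ∈ univ.filter (fun j => i < j), ‖pt θ i - pt θ j‖ ^ 2

theorem V_nonneg (θ : Fin n → ℝ) : 0 ≤ V θ :=
  prod_nonneg fun _ _ => prod_nonneg fun _ _ => by positivity

theorem V_cont : Continuous (fun θ : Fin n → ℝ => V θ) := by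
  unfold V
  refine continuous_finsetProd _ fun i _ => continuous_finsetProd _ fun j _ => ?_
  exact (((pt_cont i).sub (pt_cont j)).norm).pow 2

/-- the number of pairs -/
def N (n : ℕ) : ℕ := ∑ i : Fin n, (univ.filter (fun j : Fin n => i < j)).card

theorem N_le : N n ≤ n ^ 2 := by
  unfold N
  calc ∑ i : Fin n, (univ.filter (fun j : Fin n => i < j)).card ≤ ∑ _i : Fin n, n := by
        refine sum_le_sum fun i _ => (card_filter_le _ _).trans ?_
        rw [card_univ, Fintype.card_fin]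
    _ = n ^ 2 := by rw [sum_const, card_univ, Fintype.card_fin, smul_eq_mul, sq]

theorem scale (t : ℝ) (θ : Fin n → ℝ) :
    ∏ i : Fin n, ∏ j ∈ univ.filter (fun j => i < j), (t * ‖pt θ i - pt θ j‖ ^ 2) =
      t ^ N n * V θ := by
  unfold V N
  rw [← prod_pow_eq_pow_sum, ← prod_mul_distrib]
  refine prod_congr rfl fun i _ => ?_
  rw [prod_mul_distrib, prod_const]

theorem factor {q : ℝ} (hq : 2 ≤ q) (θ : Fin n → ℝ) (i j : Fin n) :
    4 / 9 * ‖pt θ i - pt θ j‖ ^ 2 ≤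
        ‖pt θ i - pt θ j‖ ^ 2 / ‖pt θ i - pt θ j / (q : ℂ)‖ ^ 2 ∧
      ‖pt θ i - pt θ j‖ ^ 2 / ‖pt θ i - pt θ j / (q : ℂ)‖ ^ 2 ≤
        4 * ‖pt θ i - pt θ j‖ ^ 2 := by
  obtain ⟨h1, h2⟩ := den_bound hq θ i j
  have h3 : (1 / 2 : ℝ) ^ 2 ≤ ‖pt θ i - pt θ j / (q : ℂ)‖ ^ 2 :=
    pow_le_pow_left₀ (by norm_num) h1 2
  have h4 : ‖pt θ i - pt θ j / (q : ℂ)‖ ^ 2 ≤ (3 / 2 : ℝ) ^ 2 :=
    pow_le_pow_left₀ (norm_nonneg _) h2 2
  have h5 : 0 < ‖pt θ i - pt θ j / (q : ℂ)‖ ^ 2 := lt_of_lt_of_le (by norm_num) h3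
  have h6 : 0 ≤ ‖pt θ i - pt θ j‖ ^ 2 := by positivity
  constructor
  · rw [le_div_iff₀ h5]
    nlinarith
  · rw [div_le_iff₀ h5]
    nlinarith

theorem dens_le {q : ℝ} (hq : 2 ≤ q) (θ : Fin n → ℝ) : dens q θ ≤ 4 ^ N n * V θ := by
  rw [← scale]
  unfold dens
  exact prod_le_prod (fun i _ => prod_nonneg fun j _ => by positivity) fun i _ =>
    prod_le_prod (fun j _ => by positivity) fun j _ => (factor hq θ i j).2

theorem le_dens {q : ℝ} (hq : 2 ≤ q) (θ : Fin n → ℝ) : (4 / 9) ^ N n * V θ ≤ dens q θ := by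
  rw [← scale]
  unfold dens
  exact prod_le_prod (fun i _ => prod_nonneg fun j _ => by positivity) fun i _ =>
    prod_le_prod (fun j _ => by positivity) fun j _ => (factor hq θ i j).1

theorem dens_cont {q : ℝ} (hq : 2 ≤ q) : Continuous (fun θ : Fin n → ℝ => dens q θ) := by
  unfold dens
  refine continuous_finsetProd _ fun i _ => continuous_finsetProd _ fun j _ => ?_
  refine ((((pt_cont i).sub (pt_cont j)).norm).pow 2).div
    ((((pt_cont i).sub ((pt_cont j).div_const _)).norm).pow 2) fun θ => ?_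
  have := (den_bound hq θ i j).1
  positivity

/-- a point at which the Vandermonde determinant does not vanish -/
noncomputable def θ₀ (n : ℕ) : Fin n → ℝ := fun j => ((j : ℝ) + 1) / ((n : ℝ) + 1)

theorem θ₀_mem (j : Fin n) : 0 < θ₀ n j ∧ θ₀ n j < 1 := by
  have hj : ((j : ℕ) : ℝ) < n := by exact_mod_cast j.2
  have h0 : (0 : ℝ) ≤ ((j : ℕ) : ℝ) := Nat.cast_nonneg _
  unfold θ₀
  constructor
  · positivity
  · rw [div_lt_one (by positivity)]
    linarith

theorem pt_ne {i j : Fin n} (h : i ≠ j) : pt (θ₀ n) i ≠ pt (θ₀ n) j := by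
  intro he
  unfold pt at he
  rw [Complex.exp_eq_exp_iff_exists_int] at he
  obtain ⟨k, hk⟩ := he
  have h1 : (2 * (Real.pi : ℂ) * Complex.I) * ((θ₀ n i : ℂ)) =
      (2 * (Real.pi : ℂ) * Complex.I) * ((θ₀ n j : ℂ) + k) := by
    linear_combination hk
  have h2 : (2 * (Real.pi : ℂ) * Complex.I) ≠ 0 := Complex.two_pi_I_ne_zero
  have h3 := mul_left_cancel₀ h2 h1
  have h4 : θ₀ n i = θ₀ n j + k := by exact_mod_cast h3
  have hi := θ₀_mem i
  have hj := θ₀_mem j
  have h5 : (k : ℝ) < 1 := by linarith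
  have h6 : (-1 : ℝ) < k := by linarith
  have h7 : k < 1 := by exact_mod_cast h5
  have h8 : -1 < k := by exact_mod_cast h6
  have h9 : k = 0 := by omega
  rw [h9, Int.cast_zero, add_zero] at h4
  unfold θ₀ at h4
  have h10 : (0 : ℝ) < (n : ℝ) + 1 := by positivity
  rw [div_left_inj' h10.ne'] at h4
  apply h
  apply Fin.ext
  have : ((i : ℕ) : ℝ) = ((j : ℕ) : ℝ) := by linarith
  exact_mod_cast this

theorem V_θ₀ : V (θ₀ n) ≠ 0 := by
  unfold V
  refine prod_ne_zero_iff.2 fun i _ => prod_ne_zero_iff.2 fun j hj => ?_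
  have hij : i < j := (mem_filter.1 hj).2
  have := sub_ne_zero.2 (pt_ne hij.ne)
  exact pow_ne_zero 2 (norm_ne_zero_iff.2 this)

theorem V_int_pos : 0 < ∫ θ in Set.Icc (0 : Fin n → ℝ) 1, V θ := by
  have hint : IntegrableOn (fun θ : Fin n → ℝ => V θ) (Set.Icc (0 : Fin n → ℝ) 1) :=
    V_cont.continuousOn.integrableOn_compact isCompact_Icc
  rw [setIntegral_pos_iff_support_of_nonneg_ae
    (Filter.Eventually.of_forall fun θ => V_nonneg θ) hint]
  have hopen : IsOpen ((Function.support fun θ : Fin n → ℝ => V θ) ∩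
      Set.pi Set.univ fun _ : Fin n => Set.Ioo (0 : ℝ) 1) :=
    (V_cont.isOpen_support).inter (isOpen_set_pi Set.finite_univ fun _ _ => isOpen_Ioo)
  have hne : ((Function.support fun θ : Fin n → ℝ => V θ) ∩
      Set.pi Set.univ fun _ : Fin n => Set.Ioo (0 : ℝ) 1).Nonempty :=
    ⟨θ₀ n, V_θ₀, fun j _ => ⟨(θ₀_mem j).1, (θ₀_mem j).2⟩⟩
  refine lt_of_lt_of_le (hopen.measure_pos volume hne) (measure_mono ?_)
  rintro θ ⟨h1, h2⟩
  refine ⟨h1, ?_, ?_⟩
  · intro j
    exact (h2 j (Set.mem_univ j)).1.le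
  · intro j
    exact (h2 j (Set.mem_univ j)).2.le

end DenAux

open DenAux

theorem den : S_DEN := by
  intro n q hq
  refine ⟨dens_cont hq, fun θ => ⟨?_, ?_⟩⟩
  · unfold dens
    exact prod_nonneg fun i _ => prod_nonneg fun j _ => by positivity
  · refine (dens_le hq θ).trans ?_
    refine mul_le_mul_of_nonneg_right ?_ (V_nonneg θ)
    exact pow_le_pow_right₀ (by norm_num) N_le

theorem mass_pos : S_MASS := by
  intro n
  have hV := V_int_pos (n := n)
  refine ⟨(4 / 9) ^ N n * ∫ θ in Set.Icc (0 : Fin n → ℝ) 1, V θ, by positivity, fun q hq => ?_⟩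
  unfold mass
  rw [← integral_const_mul]
  refine setIntegral_mono_on ?_ ?_ measurableSet_Icc fun θ _ => le_dens hq θ
  · exact (V_cont.const_mul _).continuousOn.integrableOn_compact isCompact_Icc
  · exact (dens_cont hq).continuousOn.integrableOn_compact isCompact_Icc

end Pool.Agent.N846.AT
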