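import Pool.Agent.N846.AT.Stm2
import Pool.Agent.N846.AT.Den

/-!
# Project AT, part DENSP (helper34): the density and its total mass for `SO(2n+1)`

Adapted from `Pool.Agent.N846.AT.Den` (helper833), the case of `PGL(n)`.
-/

set_option autoImplicit false

namespace Pool.Agent.N846.AT

open Finset Complex MeasureTheory

namespace DenspAux

open DenAux

variable {n : ℕ}

theorem den_one {q : ℝ} (hq : 2 ≤ q) {w : ℂ} (hw : ‖w‖ = 1) :
    1 / 2 ≤ ‖1 - w / (q : ℂ)‖ ∧ ‖1 - w / (q : ℂ)‖ ≤ 3 / 2 := by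
  have hq0 : 0 < q := by linarith
  have h1 : ‖w / (q : ℂ)‖ ≤ 1 / 2 := by
    rw [norm_div, hw, Complex.norm_real, Real.norm_eq_abs, abs_of_pos hq0]
    exact one_div_le_one_div_of_le (by norm_num) hq
  have h2 : ‖(1 : ℂ)‖ = 1 := norm_one
  constructor
  · have := norm_sub_norm_le (1 : ℂ) (w / (q : ℂ))
    linarith
  · have := norm_sub_le (1 : ℂ) (w / (q : ℂ))
    linarith

theorem factor_one {q : ℝ} (hq : 2 ≤ q) {w : ℂ} (hw : ‖w‖ = 1) :
    4 / 9 * ‖1 - w‖ ^ 2 ≤ ‖1 - w‖ ^ 2 / ‖1 - w / (q : ℂ)‖ ^ 2 := by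
  obtain ⟨h1, h2⟩ := den_one hq hw
  have h3 : (1 / 2 : ℝ) ^ 2 ≤ ‖1 - w / (q : ℂ)‖ ^ 2 :=
    pow_le_pow_left₀ (by norm_num) h1 2
  have h4 : ‖1 - w / (q : ℂ)‖ ^ 2 ≤ (3 / 2 : ℝ) ^ 2 :=
    pow_le_pow_left₀ (norm_nonneg _) h2 2
  have h5 : 0 < ‖1 - w / (q : ℂ)‖ ^ 2 := lt_of_lt_of_le (by norm_num) h3
  have h6 : 0 ≤ ‖1 - w‖ ^ 2 := by positivity
  rw [le_div_iff₀ h5]
  nlinarith

theorem cont_one {q : ℝ} (hq : 2 ≤ q) {w : (Fin n → ℝ) → ℂ} (hw : ∀ θ, ‖w θ‖ = 1)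
    (hc : Continuous w) :
    Continuous (fun θ => ‖1 - w θ‖ ^ 2 / ‖1 - w θ / (q : ℂ)‖ ^ 2) := by
  refine (((continuous_const.sub hc).norm).pow 2).div
    (((continuous_const.sub (hc.div_const _)).norm).pow 2) fun θ => ?_
  have := (den_one hq (hw θ)).1
  positivity

theorem pt_ne_zero (θ : Fin n → ℝ) (i : Fin n) : pt θ i ≠ 0 := by
  unfold pt
  exact Complex.exp_ne_zero _

theorem norm_sq_ (θ : Fin n → ℝ) (i : Fin n) : ‖pt θ i ^ 2‖ = 1 := by
  rw [norm_pow, norm_pt, one_pow]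

theorem norm_mul_ (θ : Fin n → ℝ) (i j : Fin n) : ‖pt θ i * pt θ j‖ = 1 := by
  rw [norm_mul, norm_pt, norm_pt, mul_one]

theorem norm_mulinv (θ : Fin n → ℝ) (i j : Fin n) : ‖pt θ i * (pt θ j)⁻¹‖ = 1 := by
  rw [norm_mul, norm_inv, norm_pt, norm_pt, inv_one, mul_one]

theorem c_sq (i : Fin n) : Continuous (fun θ : Fin n → ℝ => pt θ i ^ 2) := (pt_cont i).pow 2

theorem c_mul (i j : Fin n) : Continuous (fun θ : Fin n → ℝ => pt θ i * pt θ j) :=
  (pt_cont i).mul (pt_cont j)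

theorem c_mulinv (i j : Fin n) : Continuous (fun θ : Fin n → ℝ => pt θ i * (pt θ j)⁻¹) :=
  (pt_cont i).mul ((pt_cont j).inv₀ fun θ => pt_ne_zero θ j)

/-- the squared Weyl denominator -/
noncomputable def W (θ : Fin n → ℝ) : ℝ :=
  (∏ i : Fin n, ‖1 - pt θ i ^ 2‖ ^ 2) *
  ∏ i : Fin n, ∏ j ∈ univ.filter (fun j => i < j),
    (‖1 - pt θ i * pt θ j‖ ^ 2) * (‖1 - pt θ i * (pt θ j)⁻¹‖ ^ 2)

theorem W_nonneg (θ : Fin n → ℝ) : 0 ≤ W θ :=
  mul_nonneg (prod_nonneg fun _ _ => by positivity)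
    (prod_nonneg fun _ _ => prod_nonneg fun _ _ => by positivity)

theorem W_cont : Continuous (fun θ : Fin n → ℝ => W θ) := by
  unfold W
  refine (continuous_finsetProd _ fun i _ => ?_).mul
    (continuous_finsetProd _ fun i _ => continuous_finsetProd _ fun j _ => ?_)
  · exact ((continuous_const.sub (c_sq i)).norm).pow 2
  · exact (((continuous_const.sub (c_mul i j)).norm).pow 2).mul
      (((continuous_const.sub (c_mulinv i j)).norm).pow 2)

theorem scaleW (t : ℝ) (θ : Fin n → ℝ) :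
    (∏ i : Fin n, (t * ‖1 - pt θ i ^ 2‖ ^ 2)) *
      ∏ i : Fin n, ∏ j ∈ univ.filter (fun j => i < j),
        ((t * ‖1 - pt θ i * pt θ j‖ ^ 2) * (t * ‖1 - pt θ i * (pt θ j)⁻¹‖ ^ 2)) =
      (t ^ n * (t * t) ^ N n) * W θ := by
  have h1 : ∏ i : Fin n, (t * ‖1 - pt θ i ^ 2‖ ^ 2) = t ^ n * ∏ i : Fin n, ‖1 - pt θ i ^ 2‖ ^ 2 := by
    rw [prod_mul_distrib, prod_const, card_univ, Fintype.card_fin]
  have h2 : ∏ i : Fin n, ∏ j ∈ univ.filter (fun j => i < j),
        ((t * ‖1 - pt θ i * pt θ j‖ ^ 2) * (t * ‖1 - pt θ i * (pt θ j)⁻¹‖ ^ 2)) =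
      (t * t) ^ N n * ∏ i : Fin n, ∏ j ∈ univ.filter (fun j => i < j),
        ((‖1 - pt θ i * pt θ j‖ ^ 2) * (‖1 - pt θ i * (pt θ j)⁻¹‖ ^ 2)) := by
    unfold N
    rw [← prod_pow_eq_pow_sum, ← prod_mul_distrib]
    refine prod_congr rfl fun i _ => ?_
    rw [← prod_const, ← prod_mul_distrib]
    exact prod_congr rfl fun j _ => by ring
  rw [h1, h2]
  unfold W
  ring

theorem le_densSp {q : ℝ} (hq : 2 ≤ q) (θ : Fin n → ℝ) :
    ((4 / 9) ^ n * ((4 / 9) * (4 / 9)) ^ N n) * W θ ≤ densSp q θ := by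
  rw [← scaleW]
  unfold densSp
  refine mul_le_mul (prod_le_prod (fun i _ => by positivity) fun i _ => factor_one hq (norm_sq_ θ i))
    (prod_le_prod (fun i _ => prod_nonneg fun j _ => by positivity) fun i _ =>
      prod_le_prod (fun j _ => by positivity) fun j _ => ?_)
    (prod_nonneg fun i _ => prod_nonneg fun j _ => by positivity)
    (prod_nonneg fun i _ => by positivity)
  exact mul_le_mul (factor_one hq (norm_mul_ θ i j)) (factor_one hq (norm_mulinv θ i j))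
    (by positivity) (by positivity)

theorem densSp_cont {q : ℝ} (hq : 2 ≤ q) : Continuous (fun θ : Fin n → ℝ => densSp q θ) := by
  unfold densSp
  refine (continuous_finsetProd _ fun i _ => ?_).mul
    (continuous_finsetProd _ fun i _ => continuous_finsetProd _ fun j _ => ?_)
  · exact cont_one hq (fun θ => norm_sq_ θ i) (c_sq i)
  · exact (cont_one hq (fun θ => norm_mul_ θ i j) (c_mul i j)).mul
      (cont_one hq (fun θ => norm_mulinv θ i j) (c_mulinv i j))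

theorem densSp_nonneg (q : ℝ) (θ : Fin n → ℝ) : 0 ≤ densSp q θ := by
  unfold densSp
  exact mul_nonneg (prod_nonneg fun _ _ => by positivity)
    (prod_nonneg fun _ _ => prod_nonneg fun _ _ => by positivity)

/-- a regular point of the torus -/
noncomputable def θ₁ (n : ℕ) : Fin n → ℝ := fun j => ((j : ℝ) + 1) / (2 * (n : ℝ) + 1)

theorem θ₁_mem (j : Fin n) : 0 < θ₁ n j ∧ θ₁ n j < 1 / 2 := by
  have hj : ((j : ℕ) : ℝ) + 1 ≤ n := by exact_mod_cast j.2
  have h0 : (0 : ℝ) ≤ ((j : ℕ) : ℝ) := Nat.cast_nonneg _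
  have hn : (0 : ℝ) ≤ (n : ℝ) := Nat.cast_nonneg _
  unfold θ₁
  constructor
  · positivity
  · rw [div_lt_div_iff₀ (by positivity) (by norm_num)]
    linarith

theorem mul_ne {i j : Fin n} : pt (θ₁ n) i * pt (θ₁ n) j ≠ 1 := by
  intro he
  unfold pt at he
  rw [← Complex.exp_add, Complex.exp_eq_one_iff] at he
  obtain ⟨k, hk⟩ := he
  have h1 : (2 * (Real.pi : ℂ) * Complex.I) * ((θ₁ n i : ℂ) + (θ₁ n j : ℂ)) =
      (2 * (Real.pi : ℂ) * Complex.I) * (k : ℂ) := by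
    linear_combination hk
  have h2 : (2 * (Real.pi : ℂ) * Complex.I) ≠ 0 := Complex.two_pi_I_ne_zero
  have h3 := mul_left_cancel₀ h2 h1
  have h4 : θ₁ n i + θ₁ n j = k := by exact_mod_cast h3
  have hi := θ₁_mem i
  have hj := θ₁_mem j
  have h5 : (k : ℝ) < 1 := by linarith
  have h6 : (0 : ℝ) < k := by linarith
  have h7 : k < 1 := by exact_mod_cast h5
  have h8 : 0 < k := by exact_mod_cast h6
  omega

theorem mulinv_ne {i j : Fin n} (h : i ≠ j) : pt (θ₁ n) i * (pt (θ₁ n) j)⁻¹ ≠ 1 := by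
  intro he0
  have he : pt (θ₁ n) i = pt (θ₁ n) j := by
    have hz := pt_ne_zero (θ₁ n) j
    field_simp at he0
    exact he0
  unfold pt at he
  rw [Complex.exp_eq_exp_iff_exists_int] at he
  obtain ⟨k, hk⟩ := he
  have h1 : (2 * (Real.pi : ℂ) * Complex.I) * ((θ₁ n i : ℂ)) =
      (2 * (Real.pi : ℂ) * Complex.I) * ((θ₁ n j : ℂ) + k) := by
    linear_combination hk
  have h2 : (2 * (Real.pi : ℂ) * Complex.I) ≠ 0 := Complex.two_pi_I_ne_zero
  have h3 := mul_left_cancel₀ h2 h1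
  have h4 : θ₁ n i = θ₁ n j + k := by exact_mod_cast h3
  have hi := θ₁_mem i
  have hj := θ₁_mem j
  have h5 : (k : ℝ) < 1 := by linarith
  have h6 : (-1 : ℝ) < k := by linarith
  have h7 : k < 1 := by exact_mod_cast h5
  have h8 : -1 < k := by exact_mod_cast h6
  have h9 : k = 0 := by omega
  rw [h9, Int.cast_zero, add_zero] at h4
  unfold θ₁ at h4
  have h10 : (0 : ℝ) < 2 * (n : ℝ) + 1 := by positivity
  rw [div_left_inj' h10.ne'] at h4
  apply h
  apply Fin.ext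
  have : ((i : ℕ) : ℝ) = ((j : ℕ) : ℝ) := by linarith
  exact_mod_cast this

theorem W_θ₁ : W (θ₁ n) ≠ 0 := by
  unfold W
  refine mul_ne_zero (prod_ne_zero_iff.2 fun i _ => ?_)
    (prod_ne_zero_iff.2 fun i _ => prod_ne_zero_iff.2 fun j hj => ?_)
  · rw [pow_two (pt (θ₁ n) i)]
    exact pow_ne_zero 2 (norm_ne_zero_iff.2 (sub_ne_zero.2 mul_ne.symm))
  · have hij : i < j := (mem_filter.1 hj).2
    exact mul_ne_zero
      (pow_ne_zero 2 (norm_ne_zero_iff.2 (sub_ne_zero.2 mul_ne.symm)))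
      (pow_ne_zero 2 (norm_ne_zero_iff.2 (sub_ne_zero.2 (mulinv_ne hij.ne).symm)))

theorem W_int_pos : 0 < ∫ θ in Set.Icc (0 : Fin n → ℝ) 1, W θ := by
  have hint : IntegrableOn (fun θ : Fin n → ℝ => W θ) (Set.Icc (0 : Fin n → ℝ) 1) :=
    W_cont.continuousOn.integrableOn_compact isCompact_Icc
  rw [setIntegral_pos_iff_support_of_nonneg_ae
    (Filter.Eventually.of_forall fun θ => W_nonneg θ) hint]
  have hopen : IsOpen ((Function.support fun θ : Fin n → ℝ => W θ) ∩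
      Set.pi Set.univ fun _ : Fin n => Set.Ioo (0 : ℝ) 1) :=
    (W_cont.isOpen_support).inter (isOpen_set_pi Set.finite_univ fun _ _ => isOpen_Ioo)
  have hne : ((Function.support fun θ : Fin n → ℝ => W θ) ∩
      Set.pi Set.univ fun _ : Fin n => Set.Ioo (0 : ℝ) 1).Nonempty :=
    ⟨θ₁ n, W_θ₁, fun j _ => ⟨(θ₁_mem j).1, (θ₁_mem j).2.trans (by norm_num)⟩⟩
  refine lt_of_lt_of_le (hopen.measure_pos volume hne) (measure_mono ?_)
  rintro θ ⟨h1, h2⟩
  refine ⟨h1, ?_, ?_⟩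
  · intro j
    exact (h2 j (Set.mem_univ j)).1.le
  · intro j
    exact (h2 j (Set.mem_univ j)).2.le

end DenspAux

open DenAux DenspAux

theorem densp : S_DENSP := by
  intro n q hq
  exact ⟨densSp_cont hq, fun θ => densSp_nonneg q θ⟩

theorem massp_pos : S_MASSP := by
  intro n
  have hW := W_int_pos (n := n)
  refine ⟨((4 / 9) ^ n * ((4 / 9) * (4 / 9)) ^ N n) * ∫ θ in Set.Icc (0 : Fin n → ℝ) 1, W θ,
    by positivity, fun q hq => ?_⟩
  unfold massSp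
  rw [← integral_const_mul]
  refine setIntegral_mono_on ?_ ?_ measurableSet_Icc fun θ _ => le_densSp hq θ
  · exact (W_cont.const_mul _).continuousOn.integrableOn_compact isCompact_Icc
  · exact (densSp_cont hq).continuousOn.integrableOn_compact isCompact_Icc

end Pool.Agent.N846.AT

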