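import Pool.Agent.N846.AT.Main

set_option autoImplicit false

namespace Pool.Agent.N846.AT

open Finset Complex MeasureTheory
open scoped BigOperators ComplexConjugate

namespace Fin

/-- powers of `log log T` against powers of `log T` -/
lemma loglog (δ r : ℝ) (hδ : 0 < δ) (hr : 0 ≤ r) : ∃ C : ℝ, 0 < C ∧ ∀ x : ℝ, 1 ≤ x →
    (Real.log x) ^ r ≤ C * x ^ δ := by
  refine ⟨(r / δ + 1) ^ r + 1, by positivity, fun x hx => ?_⟩
  have hx0 : 0 < x := by linarith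
  have hl : 0 ≤ Real.log x := Real.log_nonneg hx
  rcases hr.eq_or_lt with h | h
  · rw [← h]
    simp only [Real.rpow_zero]
    have : 1 ≤ x ^ δ := Real.one_le_rpow hx hδ.le
    nlinarith
  · have h1 := Real.log_le_rpow_div hx0.le (ε := δ / r) (by positivity)
    have h2 : (Real.log x) ^ r ≤ (x ^ (δ / r) / (δ / r)) ^ r := Real.rpow_le_rpow hl h1 hr
    have h3 : (x ^ (δ / r) / (δ / r)) ^ r = x ^ δ * (r / δ) ^ r := by
      rw [Real.div_rpow (by positivity) (by positivity), ← Real.rpow_mul hx0.le,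
        div_mul_cancel₀ _ h.ne', div_eq_mul_inv, ← Real.inv_rpow (by positivity), inv_div]
    rw [h3] at h2
    have h4 : (r / δ) ^ r ≤ (r / δ + 1) ^ r + 1 := by
      have : (r / δ) ^ r ≤ (r / δ + 1) ^ r :=
        Real.rpow_le_rpow (by positivity) (by linarith) h.le
      linarith
    calc (Real.log x) ^ r ≤ x ^ δ * (r / δ) ^ r := h2
      _ ≤ x ^ δ * ((r / δ + 1) ^ r + 1) := mul_le_mul_of_nonneg_left h4 (by positivity)
      _ = ((r / δ + 1) ^ r + 1) * x ^ δ := by ring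

/-- the family of the forms up to `T` with the equidistribution theorem -/
structure Family (n : ℕ) (Form : Type) (upTo : ℝ → Finset Form) (α : Form → ℕ → Fin n → ℂ) : Prop where
  unitary : ∀ T : ℝ, ∀ φ ∈ upTo T, ∀ p : ℕ, p.Prime → Unitary (α φ p)
  equi : ∃ A C η : ℝ, 0 ≤ A ∧ 0 ≤ C ∧ 0 < η ∧ ∀ T : ℝ, 2 ≤ T → ∀ p : ℕ, p.Prime →
    ∀ w : List ℤ, w.sum = 0 →
    ‖∑ φ ∈ upTo T, word (α φ p) w - ((upTo T).card : ℂ) * pl (p : ℝ) (fun a : Fin n → ℂ => word a w)‖ ≤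
      C * (n : ℝ) ^ w.length * (p : ℝ) ^ (A * (w.map (fun m => (m.natAbs : ℕ))).sum) *
        T ^ (-η) * (upTo T).card

open scoped Classical in
theorem one (S : Leaves) {n : ℕ} (hn : 1 ≤ n) {Form : Type} {upTo : ℝ → Finset Form}
    {α : Form → ℕ → Fin n → ℂ} (hF : Family n Form upTo α) {ε : ℝ} (he0 : 0 < ε) (he1 : ε ≤ 1) :
    ∃ C : ℝ, 0 < C ∧ ∀ T : ℝ, 2 ≤ T → ∀ p : ℕ, p.Prime →
      (((upTo T).filter (fun φ => ¬ Tempered (α φ p))).card : ℝ) ≤
        C * (Real.log p / Real.log T) ^ (3 - ε) * (upTo T).card := by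
  obtain ⟨A, C₀, η, hA, hC₀, hη, hE⟩ := hF.equi
  obtain ⟨C, hC, h⟩ := Main.main S hn he0 he1 hη hA hC₀
  refine ⟨C, hC, fun T hT p hp => ?_⟩
  refine h Form (upTo T) (fun φ => α φ p) (fun φ hφ => hF.unitary T φ hφ p hp) p T
    (by exact_mod_cast hp.two_le) hT (fun w hw => hE T hT p hp w hw) _ (filter_subset _ _) ?_
  intro φ hφ
  exact (mem_filter.1 hφ).2

open scoped Classical in
/-- sets of primes -/
theorem two (S : Leaves) {n : ℕ} (hn : 1 ≤ n) {Form : Type} {upTo : ℝ → Finset Form}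
    {α : Form → ℕ → Fin n → ℂ} (hF : Family n Form upTo α) {ε : ℝ} (he0 : 0 < ε) (he1 : ε ≤ 1) :
    ∃ C : ℝ, 0 < C ∧ ∀ T : ℝ, 2 ≤ T → ∀ P : Finset ℕ, (∀ p ∈ P, p.Prime) →
      (∑ φ ∈ upTo T, ((P.filter (fun p => ¬ Tempered (α φ p))).card : ℝ) ≤
        C * (∑ p ∈ P, (Real.log p / Real.log T) ^ (3 - ε)) * (upTo T).card) ∧
      (((upTo T).filter (fun φ => ∃ p ∈ P, ¬ Tempered (α φ p))).card : ℝ) ≤
        C * (∑ p ∈ P, (Real.log p / Real.log T) ^ (3 - ε)) * (upTo T).card := by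
  obtain ⟨C, hC, h⟩ := one S hn hF he0 he1
  refine ⟨C, hC, fun T hT P hP => ?_⟩
  have h1 : ∑ φ ∈ upTo T, ((P.filter (fun p => ¬ Tempered (α φ p))).card : ℝ) ≤
      C * (∑ p ∈ P, (Real.log p / Real.log T) ^ (3 - ε)) * (upTo T).card := by
    have e1 : ∑ φ ∈ upTo T, ((P.filter (fun p => ¬ Tempered (α φ p))).card : ℝ) =
        ∑ p ∈ P, (((upTo T).filter (fun φ => ¬ Tempered (α φ p))).card : ℝ) := by
      simp_rw [card_filter]
      push_cast
      rw [sum_comm]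
    rw [e1, mul_sum, sum_mul]
    exact sum_le_sum fun p hp => h T hT p (hP p hp)
  refine ⟨h1, le_trans ?_ h1⟩
  calc (((upTo T).filter (fun φ => ∃ p ∈ P, ¬ Tempered (α φ p))).card : ℝ)
      = ∑ _φ ∈ (upTo T).filter (fun φ => ∃ p ∈ P, ¬ Tempered (α φ p)), (1 : ℝ) := by simp
    _ ≤ ∑ φ ∈ (upTo T).filter (fun φ => ∃ p ∈ P, ¬ Tempered (α φ p)),
        ((P.filter (fun p => ¬ Tempered (α φ p))).card : ℝ) := by
        refine sum_le_sum fun φ hφ => ?_
        obtain ⟨p, hp, hnt⟩ := (mem_filter.1 hφ).2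
        have : 0 < (P.filter (fun p => ¬ Tempered (α φ p))).card :=
          card_pos.2 ⟨p, mem_filter.2 ⟨hp, hnt⟩⟩
        exact_mod_cast this
    _ ≤ ∑ φ ∈ upTo T, ((P.filter (fun p => ¬ Tempered (α φ p))).card : ℝ) :=
        sum_le_sum_of_subset_of_nonneg (filter_subset _ _) fun φ _ _ => by positivity

open scoped Classical in
/-- all small primes -/
theorem three (S : Leaves) {n : ℕ} (hn : 1 ≤ n) {Form : Type} {upTo : ℝ → Finset Form}
    {α : Form → ℕ → Fin n → ℂ} (hF : Family n Form upTo α) {ε : ℝ} (he0 : 0 < ε) (he1 : ε ≤ 1) :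
    ∃ C : ℝ, 0 < C ∧ ∀ T : ℝ, 2 ≤ T →
      (((upTo T).filter (fun φ => ∃ p : ℕ, p.Prime ∧ (p : ℝ) ≤ (Real.log T) ^ (3 - ε) ∧
        ¬ Tempered (α φ p))).card : ℝ) ≤ C * (Real.log T) ^ (-(ε / 4)) * (upTo T).card := by
  obtain ⟨C, hC, h⟩ := two S hn hF (ε := ε / 2) (by linarith) (by linarith)
  obtain ⟨C', hC', hl⟩ := loglog (ε / 4) (3 - ε / 2) (by linarith) (by linarith)
  refine ⟨C * (3 ^ (3 - ε / 2) * C'), by positivity, fun T hT => ?_⟩
  have hlT : 0 < Real.log T := Real.log_pos (by linarith)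
  obtain ⟨l, hll⟩ : ∃ l, l = Real.log T := ⟨_, rfl⟩
  rw [← hll] at hlT ⊢
  obtain ⟨P, hPdef⟩ : ∃ P : Finset ℕ, P = (range (⌊l ^ (3 - ε)⌋₊ + 1)).filter Nat.Prime := ⟨_, rfl⟩
  have hmem : ∀ p : ℕ, p ∈ P ↔ p.Prime ∧ (p : ℝ) ≤ l ^ (3 - ε) := by
    intro p
    rw [hPdef, mem_filter, mem_range, Nat.lt_succ_iff, and_comm]
    refine and_congr_right fun hp => ?_
    exact ⟨fun h => (Nat.le_floor_iff (by positivity)).1 h, fun h => (Nat.le_floor_iff (by positivity)).2 h⟩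
  have hset : (upTo T).filter (fun φ => ∃ p : ℕ, p.Prime ∧ (p : ℝ) ≤ l ^ (3 - ε) ∧
      ¬ Tempered (α φ p)) = (upTo T).filter (fun φ => ∃ p ∈ P, ¬ Tempered (α φ p)) := by
    refine filter_congr fun φ _ => ?_
    constructor
    · rintro ⟨p, h1, h2, h3⟩
      exact ⟨p, (hmem p).2 ⟨h1, h2⟩, h3⟩
    · rintro ⟨p, h1, h3⟩
      exact ⟨p, ((hmem p).1 h1).1, ((hmem p).1 h1).2, h3⟩
  rw [hset]
  have h2 := (h T hT P (fun p hp => ((hmem p).1 hp).1)).2
  refine h2.trans (mul_le_mul_of_nonneg_right ?_ (by positivity))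
  rw [mul_assoc]
  refine mul_le_mul_of_nonneg_left ?_ hC.le
  rw [← hll]
  by_cases hP0 : P = ∅
  · rw [hP0]
    simp only [sum_empty]
    positivity
  · obtain ⟨p₀, hp₀⟩ := nonempty_iff_ne_empty.2 hP0
    have h3 := (hmem p₀).1 hp₀
    have hbig : 2 ≤ l ^ (3 - ε) := le_trans (by exact_mod_cast h3.1.two_le) h3.2
    have hl1 : 1 ≤ l := by
      by_contra hcon
      push Not at hcon
      have : l ^ (3 - ε) ≤ 1 := Real.rpow_le_one hlT.le hcon.le (by linarith)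
      linarith
    have hterm : ∀ p ∈ P, (Real.log p / l) ^ (3 - ε / 2) ≤
        (3 * Real.log l) ^ (3 - ε / 2) * l ^ (-(3 - ε / 2)) := by
      intro p hp
      obtain ⟨hp1, hp2⟩ := (hmem p).1 hp
      have hp0 : (0 : ℝ) < p := by exact_mod_cast hp1.pos
      have h4 : Real.log p ≤ 3 * Real.log l := by
        calc Real.log p ≤ Real.log (l ^ (3 - ε)) := Real.log_le_log hp0 hp2
          _ = (3 - ε) * Real.log l := Real.log_rpow hlT _
          _ ≤ 3 * Real.log l := by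
            have := Real.log_nonneg hl1
            nlinarith
      have h5 : 0 ≤ Real.log p := Real.log_nonneg (by exact_mod_cast hp1.one_lt.le)
      rw [Real.div_rpow h5 hlT.le, div_eq_mul_inv, Real.rpow_neg hlT.le]
      refine mul_le_mul_of_nonneg_right ?_ (by positivity)
      exact Real.rpow_le_rpow h5 h4 (by linarith)
    have hcard : (P.card : ℝ) ≤ l ^ (3 - ε) := by
      have h6 : P.card ≤ ⌊l ^ (3 - ε)⌋₊ := by
        have h7 : P ⊆ Icc 1 ⌊l ^ (3 - ε)⌋₊ := by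
          intro p hp
          obtain ⟨hp1, hp2⟩ := (hmem p).1 hp
          exact mem_Icc.2 ⟨hp1.one_lt.le, Nat.le_floor hp2⟩
        simpa using card_le_card h7
      exact (Nat.cast_le.2 h6).trans (Nat.floor_le (by positivity))
    have hll0 : 0 ≤ Real.log l := Real.log_nonneg hl1
    calc ∑ p ∈ P, (Real.log p / l) ^ (3 - ε / 2)
        ≤ ∑ _p ∈ P, (3 * Real.log l) ^ (3 - ε / 2) * l ^ (-(3 - ε / 2)) := sum_le_sum hterm
      _ = P.card * ((3 * Real.log l) ^ (3 - ε / 2) * l ^ (-(3 - ε / 2))) := by simp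
      _ ≤ l ^ (3 - ε) * ((3 * Real.log l) ^ (3 - ε / 2) * l ^ (-(3 - ε / 2))) :=
          mul_le_mul_of_nonneg_right hcard (by positivity)
      _ = 3 ^ (3 - ε / 2) * (Real.log l) ^ (3 - ε / 2) * (l ^ (3 - ε) * l ^ (-(3 - ε / 2))) := by
          rw [Real.mul_rpow (by norm_num) hll0]; ring
      _ ≤ 3 ^ (3 - ε / 2) * (C' * l ^ (ε / 4)) * (l ^ (3 - ε) * l ^ (-(3 - ε / 2))) := by
          refine mul_le_mul_of_nonneg_right ?_ (by positivity)
          exact mul_le_mul_of_nonneg_left (hl l hl1) (by positivity)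
      _ = 3 ^ (3 - ε / 2) * C' * (l ^ (ε / 4) * (l ^ (3 - ε) * l ^ (-(3 - ε / 2)))) := by ring
      _ = 3 ^ (3 - ε / 2) * C' * l ^ (-(ε / 4)) := by
          rw [← Real.rpow_add hlT, ← Real.rpow_add hlT]
          congr 2
          ring

end Fin

end Pool.Agent.N846.AT
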