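import Pool.Agent.N846.AT.Joint
import Pool.Agent.N846.AT.Fin

set_option autoImplicit false

namespace Pool.Agent.N846.AT

open Finset Complex MeasureTheory
open scoped BigOperators ComplexConjugate

namespace Fin2

/-- the family of the forms up to `T` with the (joint, effective) equidistribution theorem -/
structure Family (n : ℕ) (Form : Type) (upTo : ℝ → Finset Form) (α : Form → ℕ → Fin n → ℂ) : Prop where
  unitary : ∀ T : ℝ, ∀ φ ∈ upTo T, ∀ p : ℕ, p.Prime → Unitary (α φ p)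
  equi : ∃ A C η : ℝ, 0 ≤ A ∧ 0 ≤ C ∧ 0 < η ∧ ∀ T : ℝ, 2 ≤ T →
    ∀ P : Finset ℕ, (∀ p ∈ P, p.Prime) → ∀ (w : ℕ → List ℤ) (κ : ℕ),
    (∀ p ∈ P, (w p).sum = 0 ∧ ((w p).map (fun m => (m.natAbs : ℕ))).sum ≤ κ) →
    ‖∑ φ ∈ upTo T, ∏ p ∈ P, word (α φ p) (w p) -
        ((upTo T).card : ℂ) * ∏ p ∈ P, pl (p : ℝ) (fun a : Fin n → ℂ => word a (w p))‖ ≤
      C * (∏ p ∈ P, (n : ℝ) ^ (w p).length) * (∏ p ∈ P, (p : ℝ)) ^ (A * (κ + 1)) *
        T ^ (-η) * (upTo T).card

theorem several (S : Leaves) {n : ℕ} (hn : 1 ≤ n) {Form : Type} {upTo : ℝ → Finset Form}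
    {α : Form → ℕ → Fin n → ℂ} (hF : Family n Form upTo α) {ε : ℝ} (he0 : 0 < ε) (he1 : ε ≤ 1)
    {k : ℕ} (hk : 1 ≤ k) :
    ∃ C : ℝ, 0 < C ∧ ∀ T : ℝ, 2 ≤ T → ∀ P : Finset ℕ, (∀ p ∈ P, p.Prime) → P.card = k →
      ∀ G ⊆ upTo T, (∀ φ ∈ G, ∀ p ∈ P, ¬ Tempered (α φ p)) →
      (G.card : ℝ) ≤ C * (Real.log (∏ p ∈ P, (p : ℝ)) / Real.log T) ^ ((3 - ε) * k) *
        (upTo T).card := by
  obtain ⟨A, C₀, η, hA, hC₀, hη, hE⟩ := hF.equi
  obtain ⟨C₁, hC₁, havg⟩ := Joint.javg S hn (s := 1 - ε) (by linarith) (by linarith)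
  have hkp : (0 : ℝ) < k := by exact_mod_cast hk
  have hrr : (0 : ℝ) < 3 - ε := by linarith
  have hrk : (0 : ℝ) < (3 - ε) * k := by positivity
  obtain ⟨C₂, hC₂, hlog⟩ := Main.pow_log (η / 2) ((3 - ε) * k) (by positivity) hrk
  obtain ⟨B, hB⟩ : ∃ B : ℝ, B = 3 * A * n + 10 + 5 * n := ⟨_, rfl⟩
  have hBpos : 0 < B := by rw [hB]; positivity
  refine ⟨C₁ ^ k * (4 * B / η) ^ ((3 - ε) * k) + C₀ * C₂ * (1 / Real.log 2) ^ ((3 - ε) * k) +
    (2 * B / η) ^ ((3 - ε) * k), by positivity, fun T hT P hP hPk G hG hnt => ?_⟩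
  obtain ⟨D, hD⟩ : ∃ D : ℝ, D = ∏ p ∈ P, (p : ℝ) := ⟨_, rfl⟩
  rw [← hD]
  have hD2 : 2 ≤ D := by
    have hne : P.Nonempty := by
      rw [← card_pos]
      omega
    obtain ⟨p₀, hp₀⟩ := hne
    rw [hD, ← mul_prod_erase P _ hp₀]
    have h1 : (1 : ℝ) ≤ ∏ p ∈ P.erase p₀, (p : ℝ) := by
      calc (1 : ℝ) = ∏ _p ∈ P.erase p₀, (1 : ℝ) := by simp
        _ ≤ ∏ p ∈ P.erase p₀, (p : ℝ) := prod_le_prod (fun _ _ => by norm_num) fun p hp => by
            exact_mod_cast (hP p (mem_of_mem_erase hp)).one_lt.le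
    have h2 : (2 : ℝ) ≤ (p₀ : ℝ) := by exact_mod_cast (hP p₀ hp₀).two_le
    nlinarith
  have hD0 : 0 < D := by linarith
  have hT0 : 0 < T := by linarith
  have hlq : 0 < Real.log D := Real.log_pos (by linarith)
  have hlT : 0 < Real.log T := Real.log_pos (by linarith)
  have hl2 : 0 < Real.log 2 := Real.log_pos (by norm_num)
  have hFc : (0 : ℝ) ≤ (upTo T).card := by positivity
  obtain ⟨y, hy⟩ : ∃ y, y = Real.log D / Real.log T := ⟨_, rfl⟩
  have hy0 : 0 < y := by rw [hy]; positivity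
  rw [← hy]
  have hyr : 0 < y ^ ((3 - ε) * k) := Real.rpow_pos_of_pos hy0 _
  have ht1 : 0 ≤ C₁ ^ k * (4 * B / η) ^ ((3 - ε) * k) := by positivity
  have ht2 : 0 ≤ C₀ * C₂ * (1 / Real.log 2) ^ ((3 - ε) * k) := by positivity
  have ht3 : 0 ≤ (2 * B / η) ^ ((3 - ε) * k) := by positivity
  by_cases hΛ : η / (2 * B * y) < 1
  · have h1 : 1 ≤ (2 * B / η) * y := by
      rw [div_lt_one (by positivity)] at hΛ
      rw [div_mul_eq_mul_div, le_div_iff₀ hη]
      linarith
    have h2 : 1 ≤ (2 * B / η) ^ ((3 - ε) * k) * y ^ ((3 - ε) * k) := by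
      rw [← Real.mul_rpow (by positivity) hy0.le]
      exact Real.one_le_rpow h1 hrk.le
    have h3 : (G.card : ℝ) ≤ (upTo T).card := by exact_mod_cast card_le_card hG
    calc (G.card : ℝ) ≤ 1 * (upTo T).card := by linarith
      _ ≤ ((2 * B / η) ^ ((3 - ε) * k) * y ^ ((3 - ε) * k)) * (upTo T).card :=
          mul_le_mul_of_nonneg_right h2 hFc
      _ ≤ (C₁ ^ k * (4 * B / η) ^ ((3 - ε) * k) + C₀ * C₂ * (1 / Real.log 2) ^ ((3 - ε) * k) +
          (2 * B / η) ^ ((3 - ε) * k)) * y ^ ((3 - ε) * k) * (upTo T).card := by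
          refine mul_le_mul_of_nonneg_right ?_ hFc
          exact mul_le_mul_of_nonneg_right (by linarith) hyr.le
  · have hΛ' : 1 ≤ η / (2 * B * y) := not_lt.1 hΛ
    obtain ⟨Λ, hΛe⟩ : ∃ Λ, Λ = η / (2 * B * y) := ⟨_, rfl⟩
    rw [← hΛe] at hΛ'
    obtain ⟨K, hK⟩ : ∃ K, K = ⌊Λ⌋₊ := ⟨_, rfl⟩
    have hK1 : 1 ≤ K := by rw [hK]; exact Nat.one_le_floor_iff _ |>.2 hΛ'
    have hKle : (K : ℝ) ≤ Λ := by rw [hK]; exact Nat.floor_le (by linarith)
    have hKge : Λ / 2 ≤ K := by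
      have h1 : Λ < K + 1 := by rw [hK]; exact Nat.lt_floor_add_one _
      have h2 : (1 : ℝ) ≤ K := by exact_mod_cast hK1
      linarith
    have hprodP : ∀ {M : Type} [CommMonoid M] (f : ℕ → M), ∏ i : P, f i = ∏ p ∈ P, f p :=
      fun f => prod_coe_sort P f
    have hEj := havg P Form (upTo T) (fun φ i => α φ i)
      (fun φ hφ i => hF.unitary T φ hφ i (hP i i.2)) (fun i => ((i : ℕ) : ℝ))
      (fun i => by exact_mod_cast (hP i i.2).two_le) (C₀ * T ^ (-η) * (upTo T).card) A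
      (by positivity) hA
      (by
        intro w κ hw
        have h1 := hE T hT P hP (fun p => if h : p ∈ P then w ⟨p, h⟩ else []) κ (by
          intro p hp
          simp only [hp, dif_pos]
          exact hw ⟨p, hp⟩)
        have e1 : ∀ φ, ∏ i : P, word (α φ i) (w i) =
            ∏ p ∈ P, word (α φ p) (if h : p ∈ P then w ⟨p, h⟩ else []) := by
          intro φ
          rw [← hprodP]
          exact prod_congr rfl fun i _ => by simp
        have e2 : ∏ i : P, pl ((i : ℕ) : ℝ) (fun a : Fin n → ℂ => word a (w i)) =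
            ∏ p ∈ P, pl (p : ℝ) (fun a : Fin n → ℂ => word a (if h : p ∈ P then w ⟨p, h⟩ else [])) := by
          rw [← hprodP]
          exact prod_congr rfl fun i _ => by simp
        have e3 : ∏ i : P, (n : ℝ) ^ (w i).length =
            ∏ p ∈ P, (n : ℝ) ^ (if h : p ∈ P then w ⟨p, h⟩ else []).length := by
          rw [← hprodP]
          exact prod_congr rfl fun i _ => by simp
        have e4 : ∏ i : P, ((i : ℕ) : ℝ) = ∏ p ∈ P, (p : ℝ) := hprodP fun p : ℕ => (p : ℝ)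
        rw [e2, e3, e4]
        simp_rw [e1]
        refine h1.trans (le_of_eq (by ring)))
      K hK1 G hG (fun φ hφ i => hnt φ hφ i i.2)
    have e4 : ∏ i : P, ((i : ℕ) : ℝ) = D := by
      rw [hD]
      exact hprodP fun p : ℕ => (p : ℝ)
    rw [e4, Fintype.card_coe, hPk] at hEj
    have hΛ0 : 0 < Λ := by linarith
    have hK0 : (0 : ℝ) < K := by exact_mod_cast hK1
    have hKr : (K : ℝ) ^ (-(2 + (1 - ε))) ≤ (4 * B / η * y) ^ (3 - ε) := by
      have h1 : -(2 + (1 - ε)) = -(3 - ε) := by ring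
      rw [h1]
      calc (K : ℝ) ^ (-(3 - ε)) ≤ (Λ / 2) ^ (-(3 - ε)) :=
            Real.rpow_le_rpow_of_nonpos (by positivity) hKge (by linarith)
        _ = (4 * B / η * y) ^ (3 - ε) := by
            rw [Real.rpow_neg (by positivity), ← Real.inv_rpow (by positivity), hΛe]
            congr 1
            field_simp
            ring
    have hKk : (C₁ * (K : ℝ) ^ (-(2 + (1 - ε)))) ^ k ≤
        C₁ ^ k * ((4 * B / η) ^ ((3 - ε) * k) * y ^ ((3 - ε) * k)) := by
      rw [mul_pow]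
      refine mul_le_mul_of_nonneg_left ?_ (by positivity)
      calc ((K : ℝ) ^ (-(2 + (1 - ε)))) ^ k ≤ ((4 * B / η * y) ^ (3 - ε)) ^ k :=
            pow_le_pow_left₀ (by positivity) hKr k
        _ = (4 * B / η) ^ ((3 - ε) * k) * y ^ ((3 - ε) * k) := by
            rw [← Real.rpow_natCast _ k, ← Real.rpow_mul (by positivity),
              Real.mul_rpow (by positivity) hy0.le]
    have hpow : D ^ ((3 * A * n + 10 + 5 * n) * K) ≤ T ^ (η / 2) := by
      rw [← hB, Real.rpow_def_of_pos hD0, Real.rpow_def_of_pos hT0]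
      refine Real.exp_le_exp.2 ?_
      have h1 : B * K ≤ B * Λ := mul_le_mul_of_nonneg_left hKle hBpos.le
      have h2 : Real.log D * (B * Λ) = Real.log T * (η / 2) := by
        rw [hΛe, hy]
        field_simp
      calc Real.log D * (B * K) ≤ Real.log D * (B * Λ) := mul_le_mul_of_nonneg_left h1 hlq.le
        _ = Real.log T * (η / 2) := h2
    have hTT : T ^ (-η) * T ^ (η / 2) = T ^ (-(η / 2)) := by
      rw [← Real.rpow_add hT0]
      congr 1
      ring
    have hlogT : T ^ (-(η / 2)) ≤ C₂ * (1 / Real.log 2) ^ ((3 - ε) * k) * y ^ ((3 - ε) * k) := by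
      refine (hlog T hT).trans ?_
      rw [mul_assoc]
      refine mul_le_mul_of_nonneg_left ?_ hC₂.le
      rw [← Real.mul_rpow (by positivity) hy0.le, Real.rpow_neg hlT.le, ← Real.inv_rpow hlT.le]
      refine Real.rpow_le_rpow (by positivity) ?_ hrk.le
      rw [hy, inv_eq_one_div, div_mul_div_comm, one_mul, div_le_div_iff₀ hlT (by positivity)]
      have : Real.log 2 ≤ Real.log D := Real.log_le_log (by norm_num) hD2
      nlinarith
    calc (G.card : ℝ) ≤ (C₁ * (K : ℝ) ^ (-(2 + (1 - ε)))) ^ k * (upTo T).card +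
          C₀ * T ^ (-η) * (upTo T).card * D ^ ((3 * A * n + 10 + 5 * n) * K) := hEj
      _ ≤ C₁ ^ k * ((4 * B / η) ^ ((3 - ε) * k) * y ^ ((3 - ε) * k)) * (upTo T).card +
          C₀ * T ^ (-η) * (upTo T).card * T ^ (η / 2) := by
          refine add_le_add ?_ ?_
          · exact mul_le_mul_of_nonneg_right hKk hFc
          · exact mul_le_mul_of_nonneg_left hpow (by positivity)
      _ = C₁ ^ k * ((4 * B / η) ^ ((3 - ε) * k) * y ^ ((3 - ε) * k)) * (upTo T).card +
          C₀ * (T ^ (-η) * T ^ (η / 2)) * (upTo T).card := by ring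
      _ ≤ C₁ ^ k * ((4 * B / η) ^ ((3 - ε) * k) * y ^ ((3 - ε) * k)) * (upTo T).card +
          C₀ * (C₂ * (1 / Real.log 2) ^ ((3 - ε) * k) * y ^ ((3 - ε) * k)) * (upTo T).card := by
          rw [hTT]
          have : C₀ * T ^ (-(η / 2)) ≤
              C₀ * (C₂ * (1 / Real.log 2) ^ ((3 - ε) * k) * y ^ ((3 - ε) * k)) :=
            mul_le_mul_of_nonneg_left hlogT hC₀
          have := mul_le_mul_of_nonneg_right this hFc
          linarith
      _ ≤ (C₁ ^ k * (4 * B / η) ^ ((3 - ε) * k) + C₀ * C₂ * (1 / Real.log 2) ^ ((3 - ε) * k) +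
          (2 * B / η) ^ ((3 - ε) * k)) * y ^ ((3 - ε) * k) * (upTo T).card := by
          have : 0 ≤ (2 * B / η) ^ ((3 - ε) * k) * y ^ ((3 - ε) * k) * (upTo T).card := by positivity
          nlinarith

open scoped Classical in
/-- at least `k` small primes -/
theorem small (S : Leaves) {n : ℕ} (hn : 1 ≤ n) {Form : Type} {upTo : ℝ → Finset Form}
    {α : Form → ℕ → Fin n → ℂ} (hF : Family n Form upTo α) {ε : ℝ} (he0 : 0 < ε) (he1 : ε ≤ 1)
    {k : ℕ} (hk : 1 ≤ k) :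
    ∃ C : ℝ, 0 < C ∧ ∀ T : ℝ, 2 ≤ T →
      (((upTo T).filter (fun φ => ∃ P : Finset ℕ, P.card = k ∧ ∀ p ∈ P, p.Prime ∧
        (p : ℝ) ≤ (Real.log T) ^ (3 - ε) ∧ ¬ Tempered (α φ p))).card : ℝ) ≤
        C * (Real.log T) ^ (-(ε * k / 4)) * (upTo T).card := by
  obtain ⟨C, hC, h⟩ := several S hn hF (ε := ε / 2) (by linarith) (by linarith) hk
  have hkp : (0 : ℝ) < k := by exact_mod_cast hk
  have hrr : (0 : ℝ) < 3 - ε / 2 := by linarith
  obtain ⟨C', hC', hl⟩ := Fin.loglog (ε * k / 4) ((3 - ε / 2) * k) (by positivity) (by positivity)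
  refine ⟨C * ((3 * k) ^ ((3 - ε / 2) * k) * C'), by positivity, fun T hT => ?_⟩
  have hlT : 0 < Real.log T := Real.log_pos (by linarith)
  obtain ⟨l, hll⟩ : ∃ l, l = Real.log T := ⟨_, rfl⟩
  rw [← hll] at hlT ⊢
  obtain ⟨R, hRdef⟩ : ∃ R : Finset ℕ, R = (range (⌊l ^ (3 - ε)⌋₊ + 1)).filter Nat.Prime := ⟨_, rfl⟩
  have hmem : ∀ p : ℕ, p ∈ R ↔ p.Prime ∧ (p : ℝ) ≤ l ^ (3 - ε) := by
    intro p
    rw [hRdef, mem_filter, mem_range, Nat.lt_succ_iff, and_comm]
    refine and_congr_right fun hp => ?_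
    exact ⟨fun h => (Nat.le_floor_iff (by positivity)).1 h, fun h => (Nat.le_floor_iff (by positivity)).2 h⟩
  have hsub : (upTo T).filter (fun φ => ∃ P : Finset ℕ, P.card = k ∧ ∀ p ∈ P, p.Prime ∧
      (p : ℝ) ≤ l ^ (3 - ε) ∧ ¬ Tempered (α φ p)) ⊆
      (powersetCard k R).biUnion (fun P => (upTo T).filter (fun φ => ∀ p ∈ P, ¬ Tempered (α φ p))) := by
    intro φ hφ
    obtain ⟨h1, P, h2, h3⟩ := mem_filter.1 hφ
    refine mem_biUnion.2 ⟨P, mem_powersetCard.2 ⟨fun p hp => (hmem p).2 ⟨(h3 p hp).1, (h3 p hp).2.1⟩,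
      h2⟩, mem_filter.2 ⟨h1, fun p hp => (h3 p hp).2.2⟩⟩
  have hFc : (0 : ℝ) ≤ (upTo T).card := by positivity
  by_cases hP0 : powersetCard k R = ∅
  · have : (upTo T).filter (fun φ => ∃ P : Finset ℕ, P.card = k ∧ ∀ p ∈ P, p.Prime ∧
        (p : ℝ) ≤ l ^ (3 - ε) ∧ ¬ Tempered (α φ p)) = ∅ := by
      rw [hP0, biUnion_empty] at hsub
      exact subset_empty.1 hsub
    rw [this, card_empty, Nat.cast_zero]
    positivity
  · obtain ⟨P₀, hP₀⟩ := nonempty_iff_ne_empty.2 hP0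
    obtain ⟨hPR, hPk⟩ := mem_powersetCard.1 hP₀
    have hne : P₀.Nonempty := by
      rw [← card_pos]
      omega
    obtain ⟨p₀, hp₀⟩ := hne
    have h3 := (hmem p₀).1 (hPR hp₀)
    have hbig : 2 ≤ l ^ (3 - ε) := le_trans (by exact_mod_cast h3.1.two_le) h3.2
    have hl1 : 1 ≤ l := by
      by_contra hcon
      push Not at hcon
      have : l ^ (3 - ε) ≤ 1 := Real.rpow_le_one hlT.le hcon.le (by linarith)
      linarith
    have hll0 : 0 ≤ Real.log l := Real.log_nonneg hl1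
    have hterm : ∀ P ∈ powersetCard k R,
        (((upTo T).filter (fun φ => ∀ p ∈ P, ¬ Tempered (α φ p))).card : ℝ) ≤
        C * ((3 * k * Real.log l) ^ ((3 - ε / 2) * k) * l ^ (-((3 - ε / 2) * k))) *
          (upTo T).card := by
      intro P hP
      obtain ⟨hPR, hPk⟩ := mem_powersetCard.1 hP
      have h4 := h T hT P (fun p hp => ((hmem p).1 (hPR hp)).1) hPk _ (filter_subset _ _)
        (fun φ hφ => (mem_filter.1 hφ).2)
      refine h4.trans (mul_le_mul_of_nonneg_right (mul_le_mul_of_nonneg_left ?_ hC.le) hFc)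
      have h5 : Real.log (∏ p ∈ P, (p : ℝ)) ≤ 3 * k * Real.log l := by
        rw [Real.log_prod (fun p hp => by
          have := ((hmem p).1 (hPR hp)).1.pos
          positivity)]
        calc ∑ p ∈ P, Real.log (p : ℝ) ≤ ∑ _p ∈ P, 3 * Real.log l := by
              refine sum_le_sum fun p hp => ?_
              obtain ⟨hp1, hp2⟩ := (hmem p).1 (hPR hp)
              have hp0 : (0 : ℝ) < p := by exact_mod_cast hp1.pos
              calc Real.log p ≤ Real.log (l ^ (3 - ε)) := Real.log_le_log hp0 hp2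
                _ = (3 - ε) * Real.log l := Real.log_rpow hlT _
                _ ≤ 3 * Real.log l := by nlinarith
          _ = 3 * k * Real.log l := by
              rw [sum_const, hPk, nsmul_eq_mul]
              ring
      have h6 : 0 ≤ Real.log (∏ p ∈ P, (p : ℝ)) := by
        refine Real.log_nonneg ?_
        calc (1 : ℝ) = ∏ _p ∈ P, (1 : ℝ) := by simp
          _ ≤ ∏ p ∈ P, (p : ℝ) := prod_le_prod (fun _ _ => by norm_num) fun p hp => by
              exact_mod_cast ((hmem p).1 (hPR hp)).1.one_lt.le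
      rw [← hll, Real.div_rpow h6 hlT.le, div_eq_mul_inv, Real.rpow_neg hlT.le]
      refine mul_le_mul_of_nonneg_right ?_ (by positivity)
      exact Real.rpow_le_rpow h6 h5 (by positivity)
    have hcard : ((powersetCard k R).card : ℝ) ≤ l ^ ((3 - ε) * k) := by
      have h6 : R.card ≤ ⌊l ^ (3 - ε)⌋₊ := by
        have h7 : R ⊆ Icc 1 ⌊l ^ (3 - ε)⌋₊ := by
          intro p hp
          obtain ⟨hp1, hp2⟩ := (hmem p).1 hp
          exact mem_Icc.2 ⟨hp1.one_lt.le, Nat.le_floor hp2⟩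
        simpa using card_le_card h7
      have h8 : (R.card : ℝ) ≤ l ^ (3 - ε) := (Nat.cast_le.2 h6).trans (Nat.floor_le (by positivity))
      rw [card_powersetCard]
      calc ((R.card.choose k : ℕ) : ℝ) ≤ ((R.card ^ k : ℕ) : ℝ) := by
            exact_mod_cast Nat.choose_le_pow _ _
        _ = (R.card : ℝ) ^ k := by push_cast; rfl
        _ ≤ (l ^ (3 - ε)) ^ k := pow_le_pow_left₀ (by positivity) h8 k
        _ = l ^ ((3 - ε) * k) := by rw [← Real.rpow_natCast, ← Real.rpow_mul hlT.le]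
    have hX : 0 ≤ C * ((3 * k * Real.log l) ^ ((3 - ε / 2) * k) * l ^ (-((3 - ε / 2) * k))) *
        ((upTo T).card : ℝ) := by positivity
    calc (((upTo T).filter (fun φ => ∃ P : Finset ℕ, P.card = k ∧ ∀ p ∈ P, p.Prime ∧
          (p : ℝ) ≤ l ^ (3 - ε) ∧ ¬ Tempered (α φ p))).card : ℝ)
        ≤ (((powersetCard k R).biUnion
            (fun P => (upTo T).filter (fun φ => ∀ p ∈ P, ¬ Tempered (α φ p)))).card : ℝ) := by
          exact_mod_cast card_le_card hsub
      _ ≤ ((∑ P ∈ powersetCard k R,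
            ((upTo T).filter (fun φ => ∀ p ∈ P, ¬ Tempered (α φ p))).card : ℕ) : ℝ) := by
          exact_mod_cast card_biUnion_le
      _ = ∑ P ∈ powersetCard k R,
            (((upTo T).filter (fun φ => ∀ p ∈ P, ¬ Tempered (α φ p))).card : ℝ) := by push_cast; rfl
      _ ≤ ∑ _P ∈ powersetCard k R,
            C * ((3 * k * Real.log l) ^ ((3 - ε / 2) * k) * l ^ (-((3 - ε / 2) * k))) *
              (upTo T).card := sum_le_sum hterm
      _ = (powersetCard k R).card *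
            (C * ((3 * k * Real.log l) ^ ((3 - ε / 2) * k) * l ^ (-((3 - ε / 2) * k))) *
              (upTo T).card) := by simp
      _ ≤ l ^ ((3 - ε) * k) *
            (C * ((3 * k * Real.log l) ^ ((3 - ε / 2) * k) * l ^ (-((3 - ε / 2) * k))) *
              (upTo T).card) := mul_le_mul_of_nonneg_right hcard hX
      _ = C * ((3 * k) ^ ((3 - ε / 2) * k) * (Real.log l) ^ ((3 - ε / 2) * k)) *
            (l ^ ((3 - ε) * k) * l ^ (-((3 - ε / 2) * k))) * (upTo T).card := by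
          rw [Real.mul_rpow (by positivity) hll0]; ring
      _ ≤ C * ((3 * k) ^ ((3 - ε / 2) * k) * (C' * l ^ (ε * k / 4))) *
            (l ^ ((3 - ε) * k) * l ^ (-((3 - ε / 2) * k))) * (upTo T).card := by
          refine mul_le_mul_of_nonneg_right (mul_le_mul_of_nonneg_right ?_ (by positivity)) hFc
          refine mul_le_mul_of_nonneg_left ?_ hC.le
          exact mul_le_mul_of_nonneg_left (hl l hl1) (by positivity)
      _ = C * ((3 * k) ^ ((3 - ε / 2) * k) * C') *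
            (l ^ (ε * k / 4) * (l ^ ((3 - ε) * k) * l ^ (-((3 - ε / 2) * k)))) * (upTo T).card := by
          ring
      _ = C * ((3 * k) ^ ((3 - ε / 2) * k) * C') * l ^ (-(ε * k / 4)) * (upTo T).card := by
          rw [← Real.rpow_add hlT, ← Real.rpow_add hlT]
          congr 3
          ring

end Fin2

end Pool.Agent.N846.AT
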