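import Pool.Agent.N846.AT.Near

/-!
# Project AT: the argument for an abstract Plancherel functional and any set of places
-/

set_option autoImplicit false

namespace Pool.Agent.N846.AT

open Finset Complex MeasureTheory
open scoped BigOperators ComplexConjugate

namespace Gen

open Mean Avg

/-- the properties of the Plancherel functional that are used; `N` is the number of the parameters -/
structure Plan (N : ℕ) (L : ℝ → ((Fin N → ℂ) → ℂ) → ℂ) : Prop where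
  lin : ∀ q : ℝ, 2 ≤ q → ∀ (m : ℕ) (c : Fin m → ℂ) (v : Fin m → List ℤ),
    L q (fun a => ∑ j, c j * word a (v j)) = ∑ j, c j * L q (fun a => word a (v j))
  mean : ∀ s : ℝ, 0 ≤ s → s < 1 → ∃ C : ℝ, 0 < C ∧ ∀ K : ℕ, 1 ≤ K → ∀ Q : Polynomial ℝ,
    Good N K Q → ∀ q : ℝ, 2 ≤ q → ‖L q (fun a => trQ K Q a)‖ ≤ C * (K : ℝ) ^ (-(2 + s))
  second : ∀ q : ℝ, 2 ≤ q → ∀ m : ℤ, ‖L q (fun a => word a [m, -m])‖ ≤ (N : ℝ) ^ 2

/-- members that are not tempered at several places -/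
theorem javg (S : Leaves) {n : ℕ} (hn : 1 ≤ n) {L : ℝ → ((Fin n → ℂ) → ℂ) → ℂ} (hL : Plan n L)
    {s : ℝ} (hs0 : 0 ≤ s) (hs1 : s < 1) :
    ∃ C : ℝ, 0 < C ∧ ∀ (ι : Type) [Fintype ι] [DecidableEq ι] (Form : Type) (F : Finset Form)
      (α : Form → ι → Fin n → ℂ), (∀ φ ∈ F, ∀ i, Unitary (α φ i)) → ∀ q : ι → ℝ, (∀ i, 2 ≤ q i) →
      ∀ (E A : ℝ), 0 ≤ E → 0 ≤ A →
      (∀ (w : ι → List ℤ) (κ : ℕ), (∀ i, (w i).sum = 0 ∧
          ((w i).map (fun m => (m.natAbs : ℕ))).sum ≤ κ) →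
        ‖∑ φ ∈ F, ∏ i, word (α φ i) (w i) -
          (F.card : ℂ) * ∏ i, L (q i) (fun a : Fin n → ℂ => word a (w i))‖ ≤
          E * (∏ i, (n : ℝ) ^ (w i).length) * (∏ i, q i) ^ (A * (κ + 1))) →
      ∀ K : ℕ, 1 ≤ K → ∀ G : Finset Form, G ⊆ F → (∀ φ ∈ G, ∀ i, ¬ Tempered (α φ i)) →
        (G.card : ℝ) ≤ (C * (K : ℝ) ^ (-(2 + s))) ^ Fintype.card ι * F.card +
          E * (∏ i, q i) ^ ((3 * A * n + 10 + 5 * n) * K) := by
  obtain ⟨C, hC0, hmean⟩ := hL.mean s hs0 hs1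
  refine ⟨C, hC0, fun ι _ _ Form F α hU q hq E A hE hA hEQ K hK G hG hnt => ?_⟩
  obtain ⟨Q, hQ1, hQ2, hQ3, hQ4, hQ5, hQ6⟩ := S.che n K hn hK
  have hgood : Good n K Q := ⟨hQ1, hQ3, hQ5, hQ6⟩
  obtain ⟨m, c, v, hv1, hv2, hv3, -⟩ := Joint.combo S hn Q hQ2
  have hv4 : ∀ q : ℝ, 2 ≤ q → L q (fun a : Fin n → ℂ => trQ K Q a) =
      ∑ j, c j * L q (fun a : Fin n → ℂ => word a (v j)) := by
    intro q hq
    rw [← hL.lin q hq m c v]
    exact congrArg _ (funext hv1)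
  have hn1 : (1 : ℝ) ≤ n := by exact_mod_cast hn
  have hK1 : (1 : ℝ) ≤ K := by exact_mod_cast hK
  have hq0 : ∀ i, 0 < q i := fun i => by linarith [hq i]
  have hPq0 : 0 < ∏ i, q i := prod_pos fun i _ => hq0 i
  have hPq1 : 1 ≤ ∏ i, q i := by
    calc (1 : ℝ) = ∏ _i : ι, (1 : ℝ) := by simp
      _ ≤ ∏ i, q i := prod_le_prod (fun i _ => by norm_num) fun i _ => by linarith [hq i]
  have hval : ∀ φ ∈ F, ∀ i, ∃ x : ℝ, trQ K Q (α φ i) = (x : ℂ) ∧ 0 ≤ x ∧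
      (¬ Tempered (α φ i) → 1 ≤ x) := by
    intro φ hφ i
    obtain ⟨h, hneg⟩ := S.her n (α φ i) (hU φ hφ i)
    refine ⟨∑ i, Q.eval (h.eigenvalues i), trQ_eq S.pow hQ1 h, sum_nonneg fun i _ => hQ3 _,
      fun hT => ?_⟩
    obtain ⟨i, hi⟩ := hneg hT
    calc (1 : ℝ) ≤ Q.eval (h.eigenvalues i) := hQ4 _ hi
      _ ≤ ∑ i, Q.eval (h.eigenvalues i) :=
        single_le_sum (f := fun i => Q.eval (h.eigenvalues i)) (fun i _ => hQ3 _) (mem_univ i)
  have hprod : ∀ φ ∈ F, ∃ x : ℝ, ∏ i, trQ K Q (α φ i) = (x : ℂ) ∧ 0 ≤ x ∧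
      ((∀ i, ¬ Tempered (α φ i)) → 1 ≤ x) := by
    intro φ hφ
    choose x hx using hval φ hφ
    refine ⟨∏ i, x i, ?_, prod_nonneg fun i _ => (hx i).2.1, fun hT => ?_⟩
    · rw [Complex.ofReal_prod]
      exact prod_congr rfl fun i _ => (hx i).1
    · calc (1 : ℝ) = ∏ _i : ι, (1 : ℝ) := by simp
        _ ≤ ∏ i, x i := prod_le_prod (fun i _ => by norm_num) fun i _ => (hx i).2.2 (hT i)
  have hcount : (G.card : ℝ) ≤ (∑ φ ∈ F, ∏ i, trQ K Q (α φ i)).re := by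
    rw [Complex.re_sum]
    calc (G.card : ℝ) = ∑ _φ ∈ G, (1 : ℝ) := by simp
      _ ≤ ∑ φ ∈ G, (∏ i, trQ K Q (α φ i)).re := by
          refine sum_le_sum fun φ hφ => ?_
          obtain ⟨x, hx, -, h1⟩ := hprod φ (hG hφ)
          rw [hx, Complex.ofReal_re]
          exact h1 (hnt φ hφ)
      _ ≤ ∑ φ ∈ F, (∏ i, trQ K Q (α φ i)).re := by
          refine sum_le_sum_of_subset_of_nonneg hG fun φ hφ _ => ?_
          obtain ⟨x, hx, h0, -⟩ := hprod φ hφ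
          rw [hx, Complex.ofReal_re]
          exact h0
  have hdiff : ‖∑ φ ∈ F, ∏ i, trQ K Q (α φ i) -
      (F.card : ℂ) * ∏ i, L (q i) (fun a : Fin n → ℂ => trQ K Q a)‖ ≤
      E * (∏ i, q i) ^ ((3 * A * n + 10 + 5 * n) * K) := by
    have e1 : ∑ φ ∈ F, ∏ i, trQ K Q (α φ i) =
        ∑ x : ι → Fin m, (∏ i, c (x i)) * ∑ φ ∈ F, ∏ i, word (α φ i) (v (x i)) := by
      simp_rw [hv1]
      simp_rw [mul_sum]
      rw [sum_comm]
      refine sum_congr rfl fun φ _ => ?_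
      rw [prod_univ_sum, Fintype.piFinset_univ]
      exact sum_congr rfl fun x _ => prod_mul_distrib
    have e2 : ∏ i, L (q i) (fun a : Fin n → ℂ => trQ K Q a) =
        ∑ x : ι → Fin m, (∏ i, c (x i)) * ∏ i, L (q i) (fun a : Fin n → ℂ => word a (v (x i))) := by
      have : ∀ i, L (q i) (fun a : Fin n → ℂ => trQ K Q a) =
          ∑ j, c j * L (q i) (fun a : Fin n → ℂ => word a (v j)) := fun i => hv4 (q i) (hq i)
      simp_rw [this]
      rw [prod_univ_sum, Fintype.piFinset_univ]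
      exact sum_congr rfl fun x _ => prod_mul_distrib
    rw [e1, e2, mul_sum, ← sum_sub_distrib]
    have h1 : ∀ x ∈ (univ : Finset (ι → Fin m)),
        ‖(∏ i, c (x i)) * ∑ φ ∈ F, ∏ i, word (α φ i) (v (x i)) - (F.card : ℂ) * ((∏ i, c (x i)) *
          ∏ i, L (q i) (fun a : Fin n → ℂ => word a (v (x i))))‖ ≤
        (∏ i, (‖c (x i)‖ * (n : ℝ) ^ (v (x i)).length)) *
          (E * (∏ i, q i) ^ (A * ((2 * n * K : ℕ) + 1))) := by
      intro x _
      have e3 : (∏ i, c (x i)) * ∑ φ ∈ F, ∏ i, word (α φ i) (v (x i)) -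
          (F.card : ℂ) * ((∏ i, c (x i)) *
          ∏ i, L (q i) (fun a : Fin n → ℂ => word a (v (x i)))) =
          (∏ i, c (x i)) * (∑ φ ∈ F, ∏ i, word (α φ i) (v (x i)) -
            (F.card : ℂ) * ∏ i, L (q i) (fun a : Fin n → ℂ => word a (v (x i)))) := by ring
      rw [e3, norm_mul, norm_prod]
      refine (mul_le_mul_of_nonneg_left (hEQ (fun i => v (x i)) (2 * n * K) fun i => hv2 (x i))
        (prod_nonneg fun i _ => norm_nonneg _)).trans (le_of_eq ?_)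
      rw [prod_mul_distrib]
      ring
    refine (norm_sum_le_of_le _ h1).trans ?_
    rw [← sum_mul]
    have e4 : ∑ x : ι → Fin m, ∏ i, (‖c (x i)‖ * (n : ℝ) ^ (v (x i)).length) =
        (∑ j, ‖c j‖ * (n : ℝ) ^ (v j).length) ^ Fintype.card ι := by
      rw [← card_univ, ← prod_const, prod_univ_sum, Fintype.piFinset_univ]
    rw [e4]
    have h2 : (∑ j, ‖c j‖ * (n : ℝ) ^ (v j).length) ^ Fintype.card ι ≤
        (∏ i, q i) ^ ((10 + 5 * (n : ℝ)) * K) := by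
      have h9 : ∀ i, (∑ j, ‖c j‖ * (n : ℝ) ^ (v j).length) ≤ q i ^ ((10 + 5 * (n : ℝ)) * K) := by
        intro i
        have h10 : (n : ℝ) ≤ 2 ^ (n : ℝ) := by
          rw [Real.rpow_natCast]
          exact_mod_cast Nat.lt_two_pow_self.le
        have h11 : (n : ℝ) ^ 4 ≤ 2 ^ (4 * (n : ℝ)) := by
          calc (n : ℝ) ^ 4 ≤ (2 ^ (n : ℝ)) ^ 4 := pow_le_pow_left₀ (by positivity) h10 4
            _ = 2 ^ (4 * (n : ℝ)) := by
              rw [← Real.rpow_natCast (2 ^ (n : ℝ)) 4, ← Real.rpow_mul (by norm_num)]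
              congr 1
              push_cast
              ring
        have h12 : (1000 : ℝ) * (n : ℝ) ^ 4 ≤ 2 ^ ((10 : ℝ) + 4 * n) := by
          calc (1000 : ℝ) * (n : ℝ) ^ 4 ≤ 2 ^ (10 : ℝ) * 2 ^ (4 * (n : ℝ)) := by
                refine mul_le_mul ?_ h11 (by positivity) (by positivity)
                rw [show (10 : ℝ) = ((10 : ℕ) : ℝ) by norm_num, Real.rpow_natCast]
                norm_num
            _ = 2 ^ ((10 : ℝ) + 4 * n) := by rw [← Real.rpow_add (by norm_num)]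
        have h13 : (n : ℝ) ≤ 2 ^ ((n : ℝ) * K) := by
          refine h10.trans (Real.rpow_le_rpow_of_exponent_le (by norm_num) ?_)
          nlinarith
        calc ∑ j, ‖c j‖ * (n : ℝ) ^ (v j).length ≤ n * (1000 * (n : ℝ) ^ 4) ^ K := hv3
          _ ≤ 2 ^ ((n : ℝ) * K) * (2 ^ ((10 : ℝ) + 4 * n)) ^ K :=
              mul_le_mul h13 (pow_le_pow_left₀ (by positivity) h12 K) (by positivity) (by positivity)
          _ = 2 ^ ((10 + 5 * (n : ℝ)) * K) := by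
              rw [← Real.rpow_natCast (2 ^ ((10 : ℝ) + 4 * n)) K, ← Real.rpow_mul (by norm_num),
                ← Real.rpow_add (by norm_num)]
              congr 1
              ring
          _ ≤ q i ^ ((10 + 5 * (n : ℝ)) * K) :=
              Real.rpow_le_rpow (by norm_num) (hq i) (by positivity)
      rw [← card_univ, ← prod_const, ← Real.finsetProd_rpow _ _ fun i _ => (hq0 i).le]
      refine prod_le_prod (fun i _ => ?_) fun i _ => h9 i
      exact sum_nonneg fun j _ => by positivity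
    have h3 : (∏ i, q i) ^ (A * ((2 * n * K : ℕ) + 1)) ≤ (∏ i, q i) ^ (3 * A * n * K) := by
      refine Real.rpow_le_rpow_of_exponent_le hPq1 ?_
      push_cast
      have h4 : (1 : ℝ) ≤ n * K := by nlinarith
      nlinarith [mul_le_mul_of_nonneg_left h4 hA]
    calc (∑ j, ‖c j‖ * (n : ℝ) ^ (v j).length) ^ Fintype.card ι *
          (E * (∏ i, q i) ^ (A * ((2 * n * K : ℕ) + 1)))
        ≤ (∏ i, q i) ^ ((10 + 5 * (n : ℝ)) * K) * (E * (∏ i, q i) ^ (3 * A * n * K)) := by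
          refine mul_le_mul h2 (mul_le_mul_of_nonneg_left h3 hE) (by positivity) (by positivity)
      _ = E * (∏ i, q i) ^ ((3 * A * n + 10 + 5 * n) * K) := by
          have e5 : (3 * A * n + 10 + 5 * n) * K = (10 + 5 * (n : ℝ)) * K + 3 * A * n * K := by ring
          rw [e5, Real.rpow_add hPq0]
          ring
  have h12 : (∑ φ ∈ F, ∏ i, trQ K Q (α φ i)).re ≤ ‖∑ φ ∈ F, ∏ i, trQ K Q (α φ i)‖ :=
    Complex.re_le_norm _
  have h13 : ‖∑ φ ∈ F, ∏ i, trQ K Q (α φ i)‖ ≤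
      ‖(F.card : ℂ) * ∏ i, L (q i) (fun a : Fin n → ℂ => trQ K Q a)‖ +
      ‖∑ φ ∈ F, ∏ i, trQ K Q (α φ i) -
        (F.card : ℂ) * ∏ i, L (q i) (fun a : Fin n → ℂ => trQ K Q a)‖ := by
    have := norm_add_le ((F.card : ℂ) * ∏ i, L (q i) (fun a : Fin n → ℂ => trQ K Q a))
      (∑ φ ∈ F, ∏ i, trQ K Q (α φ i) -
        (F.card : ℂ) * ∏ i, L (q i) (fun a : Fin n → ℂ => trQ K Q a))
    rwa [add_sub_cancel] at this
  have h14 : ‖(F.card : ℂ) * ∏ i, L (q i) (fun a : Fin n → ℂ => trQ K Q a)‖ ≤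
      (C * (K : ℝ) ^ (-(2 + s))) ^ Fintype.card ι * F.card := by
    rw [norm_mul, Complex.norm_natCast, mul_comm, norm_prod]
    refine mul_le_mul_of_nonneg_right ?_ (by positivity)
    rw [← card_univ, ← prod_const]
    exact prod_le_prod (fun i _ => norm_nonneg _) fun i _ => hmean K hK Q hgood (q i) (hq i)
  linarith

end Gen

end Pool.Agent.N846.AT
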