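import Pool.Agent.N846.AT.GenDev

/-!
# Project AT: uniform statements with exceptional places
-/

set_option autoImplicit false

namespace Pool.Agent.N846.AT

open Finset Complex MeasureTheory
open scoped BigOperators ComplexConjugate

namespace Gen

open Mean Avg Near

open scoped Classical in
/-- the uniform statements, exceptional places allowed -/
theorem three (S : Leaves) {n : ℕ} (hn : 1 ≤ n) {L : ℝ → ((Fin n → ℂ) → ℂ) → ℂ}
    (hL : Plan n L) {V Form : Type} {nm : V → ℕ} {d : ℕ} (hV : Places V nm d) {E : Set V}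
    {upTo : ℝ → Finset Form} {α : Form → V → Fin n → ℂ} (hF : FamilyOff n L V Form nm E upTo α)
    {ε : ℝ} (he0 : 0 < ε) (he1 : ε ≤ 1) :
    (∃ C c : ℝ, 0 < C ∧ 0 < c ∧ ∀ T : ℝ, 2 ≤ T → ∀ P : Finset V, P.Nonempty → (∀ v ∈ P, v ∉ E) →
      (((upTo T).filter (fun φ => ∀ v ∈ P, ¬ Tempered (α φ v))).card : ℝ) ≤
        ((C * (Real.log (∏ v ∈ P, (nm v : ℝ)) / Real.log T) ^ (3 - ε)) ^ P.card +
          C * T ^ (-c)) * (upTo T).card) ∧
    (∃ C c : ℝ, 0 < C ∧ 0 < c ∧ ∀ T X : ℝ, 2 ≤ T → 2 ≤ X → ∀ m : ℕ, 1 ≤ m →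
      (((upTo T).filter (fun φ => ∃ P : Finset V, P.card = m ∧ ∀ v ∈ P, v ∉ E ∧
        (nm v : ℝ) ≤ X ∧ ¬ Tempered (α φ v))).card : ℝ) ≤
        ((C * X * (m : ℝ) ^ (2 - ε) * (Real.log X / Real.log T) ^ (3 - ε)) ^ m + C * T ^ (-c)) *
          (upTo T).card) ∧
    (∀ β : ℝ, 0 ≤ β → β < 1 → ∃ C : ℝ, 0 < C ∧ ∀ T : ℝ, 2 ≤ T →
      (((upTo T).filter (fun φ => ∃ P : Finset V, (Real.log T) ^ β ≤ (P.card : ℝ) ∧ ∀ v ∈ P,
        v ∉ E ∧ (nm v : ℝ) ≤ (Real.log T) ^ (3 - 2 * β - ε) ∧ ¬ Tempered (α φ v))).card : ℝ) ≤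
        C * Real.exp (-(Real.log T) ^ β) * (upTo T).card) := by
  have hV' := hV.sub E
  have hF' := hF.sub
  refine ⟨?_, ?_, fun β hβ0 hβ1 => ?_⟩
  · obtain ⟨C, c, hC, hc, h1⟩ := uniform S hn hL hV' hF' he0 he1
    refine ⟨C, c, hC, hc, fun T hT P hne hP => ?_⟩
    obtain ⟨P', hP'⟩ : ∃ P' : Finset {v : V // v ∉ E}, P'.map (Function.Embedding.subtype _) = P :=
      ⟨P.subtype _, subtype_map_of_mem hP⟩
    subst hP'
    have h2 := h1 T hT P' (by simpa using hne) ((upTo T).filter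
      (fun φ => ∀ v ∈ P'.map (Function.Embedding.subtype _), ¬ Tempered (α φ v))) (filter_subset _ _)
      (fun φ hφ p hp => (mem_filter.1 hφ).2 p (mem_map_of_mem _ hp))
    rw [prod_map, card_map]
    exact h2
  · obtain ⟨C, c, hC, hc, h1⟩ := tail S hn hL hV' hF' he0 he1
    refine ⟨C, c, hC, hc, fun T X hT hX m hm =>
      (Nat.cast_le.2 (card_le_card ?_)).trans (h1 T X hT hX m hm)⟩
    intro φ hφ
    obtain ⟨h2, P, hPk, hP⟩ := mem_filter.1 hφ
    refine mem_filter.2 ⟨h2, P.subtype _, ?_, ?_⟩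
    · rw [← hPk, ← card_map (Function.Embedding.subtype _),
        subtype_map_of_mem (p := fun v => v ∉ E) fun v hv => (hP v hv).1]
    · intro p hp
      exact (hP p (mem_subtype.1 hp)).2
  · obtain ⟨C, hC, h1⟩ := deviations S hn hL hV' hF' he0 he1 hβ0 hβ1
    refine ⟨C, hC, fun T hT => (Nat.cast_le.2 (card_le_card ?_)).trans (h1 T hT)⟩
    intro φ hφ
    obtain ⟨h2, P, hPk, hP⟩ := mem_filter.1 hφ
    refine mem_filter.2 ⟨h2, P.subtype _, ?_, ?_⟩
    · have : (P.subtype (fun v => v ∉ E)).card = P.card := by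
        rw [← card_map (Function.Embedding.subtype _),
          subtype_map_of_mem (p := fun v => v ∉ E) fun v hv => (hP v hv).1]
      rw [this]
      exact hPk
    · intro p hp
      exact (hP p (mem_subtype.1 hp)).2

end Gen

end Pool.Agent.N846.AT
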