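import Pool.Agent.N846.AT.GenTail

/-!
# Project AT: large deviations of the number of the nontempered places
-/

set_option autoImplicit false

namespace Pool.Agent.N846.AT

open Finset Complex MeasureTheory
open scoped BigOperators ComplexConjugate

namespace Gen

open Mean Avg Near

open scoped Classical in
/-- large deviations -/
theorem deviations (S : Leaves) {n : ℕ} (hn : 1 ≤ n) {L : ℝ → ((Fin n → ℂ) → ℂ) → ℂ}
    (hL : Plan n L) {V Form : Type} {nm : V → ℕ} {d : ℕ} (hV : Places V nm d)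
    {upTo : ℝ → Finset Form} {α : Form → V → Fin n → ℂ} (hF : Family n L V Form nm upTo α)
    {ε : ℝ} (he0 : 0 < ε) (he1 : ε ≤ 1) {β : ℝ} (hβ0 : 0 ≤ β) (hβ1 : β < 1) :
    ∃ C : ℝ, 0 < C ∧ ∀ T : ℝ, 2 ≤ T →
      (((upTo T).filter (fun φ => ∃ P : Finset V, (Real.log T) ^ β ≤ (P.card : ℝ) ∧ ∀ p ∈ P,
        (nm p : ℝ) ≤ (Real.log T) ^ (3 - 2 * β - ε) ∧ ¬ Tempered (α φ p))).card : ℝ) ≤
      C * Real.exp (-(Real.log T) ^ β) * (upTo T).card := by
  obtain ⟨C₁, c, hC₁, hc, h⟩ := tail S hn hL hV hF (ε := ε / 4) (by linarith) (by linarith)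
  obtain ⟨C₂, hC₂, hll⟩ := Fin.loglog (ε / 4) (3 - ε / 4) (by positivity) (by linarith)
  obtain ⟨C₄, hC₄⟩ : ∃ C₄ : ℝ, C₄ = C₁ * 4 * 27 * C₂ := ⟨_, rfl⟩
  have hC₄0 : 0 < C₄ := by rw [hC₄]; positivity
  obtain ⟨l₂, hl₂⟩ : ∃ l₂ : ℝ, l₂ = max 1 (max ((Real.exp 1 * C₄) ^ (2 / ε))
    ((1 / c) ^ (1 / (1 - β)))) := ⟨_, rfl⟩
  have hl₂1 : 1 ≤ l₂ := by rw [hl₂]; exact le_max_left _ _
  have hl₂2 : (Real.exp 1 * C₄) ^ (2 / ε) ≤ l₂ := by
    rw [hl₂]; exact (le_max_left _ _).trans (le_max_right _ _)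
  have hl₂3 : (1 / c) ^ (1 / (1 - β)) ≤ l₂ := by
    rw [hl₂]; exact (le_max_right _ _).trans (le_max_right _ _)
  refine ⟨1 + C₁ + Real.exp (l₂ ^ β), by positivity, fun T hT => ?_⟩
  have hT0 : 0 < T := by linarith
  have hlT : 0 < Real.log T := Real.log_pos (by linarith)
  have hFc : (0 : ℝ) ≤ (upTo T).card := by positivity
  have hT' := h T
  obtain ⟨l, hl⟩ : ∃ l, l = Real.log T := ⟨_, rfl⟩
  have hTc : T ^ (-c) = Real.exp (-(c * l)) := by
    rw [Real.rpow_def_of_pos hT0, hl]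
    congr 1
    ring
  rw [← hl] at hT' hlT ⊢
  obtain ⟨a, ha⟩ : ∃ a : ℝ, a = 3 - 2 * β - ε := ⟨_, rfl⟩
  have ha0 : 0 < a := by rw [ha]; linarith
  have ha3 : a ≤ 3 := by rw [ha]; linarith
  rw [← ha]
  have hE0 : 0 < Real.exp (-l ^ β) := Real.exp_pos _
  obtain ⟨G, hGdef⟩ : ∃ G : Finset Form, G = (upTo T).filter (fun φ => ∃ P : Finset V,
    l ^ β ≤ (P.card : ℝ) ∧ ∀ p ∈ P, (nm p : ℝ) ≤ l ^ a ∧ ¬ Tempered (α φ p)) := ⟨_, rfl⟩
  rw [← hGdef]
  have hGsub : G ⊆ upTo T := by rw [hGdef]; exact filter_subset _ _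
  have hGle : (G.card : ℝ) ≤ (upTo T).card := by exact_mod_cast card_le_card hGsub
  by_cases hlow : l < l₂
  · have h1 : l ^ β ≤ l₂ ^ β := Real.rpow_le_rpow hlT.le hlow.le hβ0
    have h2 : 1 ≤ (1 + C₁ + Real.exp (l₂ ^ β)) * Real.exp (-l ^ β) := by
      calc (1 : ℝ) ≤ Real.exp (l₂ ^ β + -l ^ β) := Real.one_le_exp (by linarith)
        _ = Real.exp (l₂ ^ β) * Real.exp (-l ^ β) := Real.exp_add _ _
        _ ≤ (1 + C₁ + Real.exp (l₂ ^ β)) * Real.exp (-l ^ β) :=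
            mul_le_mul_of_nonneg_right (by linarith) hE0.le
    calc (G.card : ℝ) ≤ 1 * (upTo T).card := by linarith
      _ ≤ _ := mul_le_mul_of_nonneg_right h2 hFc
  push Not at hlow
  have hl1 : 1 ≤ l := hl₂1.trans hlow
  have hll0 : 0 ≤ Real.log l := Real.log_nonneg hl1
  have hlβ : 1 ≤ l ^ β := Real.one_le_rpow hl1 hβ0
  by_cases hX : l ^ a < 2
  · have : G = ∅ := by
      rw [hGdef]
      refine filter_eq_empty_iff.2 fun φ _ => ?_
      rintro ⟨P, hPk, hP⟩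
      have h1 : (1 : ℝ) ≤ P.card := hlβ.trans hPk
      have h2 : 0 < P.card := by exact_mod_cast (by linarith : (0 : ℝ) < P.card)
      obtain ⟨p, hp⟩ := card_pos.1 h2
      have h3 := (hP p hp).1
      have h4 : (2 : ℝ) ≤ nm p := by exact_mod_cast hV.two_le p
      linarith
    rw [this, card_empty, Nat.cast_zero]
    positivity
  push Not at hX
  obtain ⟨k, hk⟩ : ∃ k, k = ⌈l ^ β⌉₊ := ⟨_, rfl⟩
  have hkge : l ^ β ≤ k := by rw [hk]; exact Nat.le_ceil _
  have hkle : (k : ℝ) ≤ 2 * l ^ β := by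
    have : (k : ℝ) < l ^ β + 1 := by rw [hk]; exact Nat.ceil_lt_add_one (by positivity)
    linarith
  have hk1 : 1 ≤ k := by
    have : (0 : ℝ) < k := by linarith
    exact_mod_cast this
  have hkp : (0 : ℝ) < k := by linarith
  have hsub : G ⊆ (upTo T).filter (fun φ => ∃ P : Finset V, P.card = k ∧ ∀ p ∈ P,
      (nm p : ℝ) ≤ l ^ a ∧ ¬ Tempered (α φ p)) := by
    intro φ hφ
    rw [hGdef] at hφ
    obtain ⟨h1, P, h2, h3⟩ := mem_filter.1 hφ
    have h4 : k ≤ P.card := by rw [hk]; exact Nat.ceil_le.2 h2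
    obtain ⟨P', hP', hc'⟩ := exists_subset_card_eq h4
    exact mem_filter.2 ⟨h1, P', hc', fun p hp => h3 p (hP' hp)⟩
  have hmain := hT' (l ^ a) hT hX k hk1
  -- the base
  have hbase : C₁ * l ^ a * (k : ℝ) ^ (2 - ε / 4) * (Real.log (l ^ a) / l) ^ (3 - ε / 4) ≤
      Real.exp (-1) := by
    have h1 : (k : ℝ) ^ (2 - ε / 4) ≤ 4 * l ^ (β * (2 - ε / 4)) := by
      calc (k : ℝ) ^ (2 - ε / 4) ≤ (2 * l ^ β) ^ (2 - ε / 4) :=
            Real.rpow_le_rpow hkp.le hkle (by linarith)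
        _ = 2 ^ (2 - ε / 4) * l ^ (β * (2 - ε / 4)) := by
            rw [Real.mul_rpow (by norm_num) (by positivity), ← Real.rpow_mul hlT.le]
        _ ≤ 4 * l ^ (β * (2 - ε / 4)) := by
            refine mul_le_mul_of_nonneg_right ?_ (by positivity)
            calc (2 : ℝ) ^ (2 - ε / 4) ≤ 2 ^ (2 : ℝ) :=
                  Real.rpow_le_rpow_of_exponent_le (by norm_num) (by linarith)
              _ = 4 := by
                  rw [show (2 : ℝ) = ((2 : ℕ) : ℝ) by norm_num, Real.rpow_natCast]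
                  norm_num
    have h2 : (Real.log (l ^ a) / l) ^ (3 - ε / 4) ≤ 27 * (C₂ * l ^ (ε / 4)) * l ^ (-(3 - ε / 4)) := by
      rw [Real.log_rpow hlT, Real.div_rpow (by positivity) hlT.le, div_eq_mul_inv,
        Real.rpow_neg hlT.le]
      refine mul_le_mul_of_nonneg_right ?_ (by positivity)
      calc (a * Real.log l) ^ (3 - ε / 4) ≤ (3 * Real.log l) ^ (3 - ε / 4) :=
            Real.rpow_le_rpow (by positivity) (mul_le_mul_of_nonneg_right ha3 hll0) (by linarith)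
        _ = 3 ^ (3 - ε / 4) * (Real.log l) ^ (3 - ε / 4) := Real.mul_rpow (by norm_num) hll0
        _ ≤ 27 * (C₂ * l ^ (ε / 4)) := by
            refine mul_le_mul ?_ (hll l hl1) (by positivity) (by norm_num)
            calc (3 : ℝ) ^ (3 - ε / 4) ≤ 3 ^ (3 : ℝ) :=
                  Real.rpow_le_rpow_of_exponent_le (by norm_num) (by linarith)
              _ = 27 := by
                  rw [show (3 : ℝ) = ((3 : ℕ) : ℝ) by norm_num, Real.rpow_natCast]
                  norm_num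
    have h3 : C₁ * l ^ a * (k : ℝ) ^ (2 - ε / 4) * (Real.log (l ^ a) / l) ^ (3 - ε / 4) ≤
        C₁ * l ^ a * (4 * l ^ (β * (2 - ε / 4))) *
          (27 * (C₂ * l ^ (ε / 4)) * l ^ (-(3 - ε / 4))) := by
      have hlog0 : 0 ≤ Real.log (l ^ a) / l := by
        rw [Real.log_rpow hlT]
        positivity
      exact mul_le_mul (mul_le_mul_of_nonneg_left h1 (by positivity)) h2 (by positivity)
        (by positivity)
    have h4 : C₁ * l ^ a * (4 * l ^ (β * (2 - ε / 4))) *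
          (27 * (C₂ * l ^ (ε / 4)) * l ^ (-(3 - ε / 4))) =
        C₄ * l ^ (-(ε / 2) - β * ε / 4) := by
      have e1 : l ^ (-(ε / 2) - β * ε / 4) =
          l ^ a * l ^ (β * (2 - ε / 4)) * l ^ (ε / 4) * l ^ (-(3 - ε / 4)) := by
        rw [← Real.rpow_add hlT, ← Real.rpow_add hlT, ← Real.rpow_add hlT]
        congr 1
        rw [ha]
        ring
      rw [e1, hC₄]
      ring
    have h5 : l ^ (-(ε / 2) - β * ε / 4) ≤ l ^ (-(ε / 2)) := by
      refine Real.rpow_le_rpow_of_exponent_le hl1 ?_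
      have : 0 ≤ β * ε / 4 := by positivity
      linarith
    have h6 : Real.exp 1 * C₄ ≤ l ^ (ε / 2) := by
      have h7 : (Real.exp 1 * C₄) ^ (2 / ε) ≤ l := hl₂2.trans hlow
      calc Real.exp 1 * C₄ = ((Real.exp 1 * C₄) ^ (2 / ε)) ^ (ε / 2) := by
            rw [← Real.rpow_mul (by positivity)]
            have : 2 / ε * (ε / 2) = 1 := by field_simp
            rw [this, Real.rpow_one]
        _ ≤ l ^ (ε / 2) := Real.rpow_le_rpow (by positivity) h7 (by positivity)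
    have h8 : C₄ * l ^ (-(ε / 2)) ≤ Real.exp (-1) := by
      have hp : 0 < l ^ (ε / 2) := by positivity
      rw [Real.rpow_neg hlT.le, Real.exp_neg, ← div_eq_mul_inv, div_le_iff₀ hp,
        inv_mul_eq_div, le_div_iff₀ (Real.exp_pos 1)]
      linarith
    calc _ ≤ _ := h3
      _ = C₄ * l ^ (-(ε / 2) - β * ε / 4) := h4
      _ ≤ C₄ * l ^ (-(ε / 2)) := mul_le_mul_of_nonneg_left h5 hC₄0.le
      _ ≤ Real.exp (-1) := h8
  have hbase0 : 0 ≤ C₁ * l ^ a * (k : ℝ) ^ (2 - ε / 4) * (Real.log (l ^ a) / l) ^ (3 - ε / 4) := by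
    have hlog0 : 0 ≤ Real.log (l ^ a) / l := by
      rw [Real.log_rpow hlT]
      positivity
    positivity
  have hpow : (C₁ * l ^ a * (k : ℝ) ^ (2 - ε / 4) * (Real.log (l ^ a) / l) ^ (3 - ε / 4)) ^ k ≤
      Real.exp (-l ^ β) := by
    calc _ ≤ (Real.exp (-1)) ^ k := pow_le_pow_left₀ hbase0 hbase k
      _ = Real.exp (-(k : ℝ)) := by
          rw [← Real.exp_nat_mul]
          congr 1
          ring
      _ ≤ Real.exp (-l ^ β) := Real.exp_le_exp.2 (by linarith)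
  have hTpow : T ^ (-c) ≤ Real.exp (-l ^ β) := by
    rw [hTc]
    refine Real.exp_le_exp.2 (neg_le_neg ?_)
    have h1 : 1 / c ≤ l ^ (1 - β) := by
      have h7 : (1 / c) ^ (1 / (1 - β)) ≤ l := hl₂3.trans hlow
      have hβ' : 0 < 1 - β := by linarith
      calc 1 / c = ((1 / c) ^ (1 / (1 - β))) ^ (1 - β) := by
            rw [← Real.rpow_mul (by positivity)]
            have : 1 / (1 - β) * (1 - β) = 1 := by field_simp
            rw [this, Real.rpow_one]
        _ ≤ l ^ (1 - β) := Real.rpow_le_rpow (by positivity) h7 hβ'.le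
    have h2 : l = l ^ β * l ^ (1 - β) := by
      rw [← Real.rpow_add hlT]
      have : β + (1 - β) = 1 := by ring
      rw [this, Real.rpow_one]
    have h3 : 1 ≤ c * l ^ (1 - β) := by
      rw [div_le_iff₀ hc] at h1
      linarith
    calc l ^ β = l ^ β * 1 := (mul_one _).symm
      _ ≤ l ^ β * (c * l ^ (1 - β)) := mul_le_mul_of_nonneg_left h3 (by positivity)
      _ = c * (l ^ β * l ^ (1 - β)) := by ring
      _ = c * l := by rw [← h2]
  calc (G.card : ℝ) ≤ _ := Nat.cast_le.2 (card_le_card hsub)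
    _ ≤ _ := hmain
    _ ≤ (Real.exp (-l ^ β) + C₁ * Real.exp (-l ^ β)) * (upTo T).card := by
        refine mul_le_mul_of_nonneg_right (add_le_add hpow ?_) hFc
        exact mul_le_mul_of_nonneg_left hTpow hC₁.le
    _ ≤ (1 + C₁ + Real.exp (l₂ ^ β)) * Real.exp (-l ^ β) * (upTo T).card := by
        refine mul_le_mul_of_nonneg_right ?_ hFc
        have : 0 ≤ Real.exp (l₂ ^ β) * Real.exp (-l ^ β) := by positivity
        nlinarith

end Gen

end Pool.Agent.N846.AT
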