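import Pool.Agent.N846.AT.GenNear

set_option autoImplicit false

namespace Pool.Agent.N846.AT

open Finset Complex MeasureTheory
open scoped BigOperators ComplexConjugate

namespace Gen

open Mean Avg Near

open scoped Classical in
lemma one_place (S : Leaves) {n : ℕ} (hn : 1 ≤ n) {L : ℝ → ((Fin n → ℂ) → ℂ) → ℂ} (hL : Plan n L)
    {V Form : Type} {nm : V → ℕ} {d : ℕ} (hV : Places V nm d) {upTo : ℝ → Finset Form}
    {α : Form → V → Fin n → ℂ} (hF : Family n L V Form nm upTo α) {ε : ℝ} (he0 : 0 < ε)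
    (he1 : ε ≤ 1) : ∃ C : ℝ, 0 < C ∧ ∀ T : ℝ, 2 ≤ T → ∀ P : Finset V,
      ∑ φ ∈ upTo T, ((P.filter (fun p => ¬ Tempered (α φ p))).card : ℝ) ≤
        C * (∑ p ∈ P, (Real.log (nm p) / Real.log T) ^ (3 - ε)) * (upTo T).card := by
  obtain ⟨C, hC, h1⟩ := several S hn hL hV hF he0 he1 (k := 1) le_rfl
  refine ⟨C, hC, fun T hT P => ?_⟩
  have e1 : ∑ φ ∈ upTo T, ((P.filter (fun p => ¬ Tempered (α φ p))).card : ℝ) =
      ∑ p ∈ P, (((upTo T).filter (fun φ => ¬ Tempered (α φ p))).card : ℝ) := by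
    simp_rw [card_filter]
    push_cast
    rw [sum_comm]
  rw [e1, mul_sum, sum_mul]
  refine sum_le_sum fun p hp => ?_
  have h2 := h1 T hT {p} (card_singleton p)
    ((upTo T).filter (fun φ => ¬ Tempered (α φ p))) (filter_subset _ _)
    (fun φ hφ q hq => by rw [mem_singleton.1 hq]; exact (mem_filter.1 hφ).2)
  simpa using h2

open scoped Classical in
theorem every (S : Leaves) (hN : S_NEWT) {n : ℕ} (hn : 1 ≤ n) {L : ℝ → ((Fin n → ℂ) → ℂ) → ℂ}
    (hL : Plan n L) {V Form : Type} {nm : V → ℕ} {d : ℕ} (hV : Places V nm d)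
    {upTo : ℝ → Finset Form} {α : Form → V → Fin n → ℂ} (hF : Family n L V Form nm upTo α)
    {b : ℝ} (hb0 : 0 ≤ b) (hb : ∀ T : ℝ, ∀ φ ∈ upTo T, ∀ p : V, ∀ i, ‖α φ p i‖ ≤ (nm p : ℝ) ^ b)
    {ε : ℝ} (he0 : 0 < ε) (he1 : ε ≤ 1) :
    ∃ C : ℝ, 0 < C ∧ ∀ T : ℝ, 2 ≤ T →
      (((upTo T).filter (fun φ => ∃ p : V,
        ((nm p : ℝ) ≤ (Real.log T) ^ (3 - ε) ∧ ¬ Tempered (α φ p)) ∨
          ∃ i, Real.exp (C * (Real.log (nm p)) ^ 2 / Real.log T) < ‖α φ p i‖)).card : ℝ) ≤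
        C * (Real.log T) ^ (-(ε / 4)) * (upTo T).card := by
  obtain ⟨C₁, hC₁, h1⟩ := small S hn hL hV hF he0 he1 (k := 1) le_rfl
  obtain ⟨C₂, hC₂, h2⟩ := near hN hn hL hV hF hb0 hb
  have hl2 : 0 < Real.log 2 := Real.log_pos (by norm_num)
  refine ⟨C₁ + C₂ + C₂ / Real.log 2, by positivity, fun T hT => ?_⟩
  have hlT2 : Real.log 2 ≤ Real.log T := Real.log_le_log (by norm_num) hT
  have hlT : 0 < Real.log T := by linarith
  have hFc : (0 : ℝ) ≤ (upTo T).card := by positivity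
  obtain ⟨l, hl⟩ : ∃ l, l = Real.log T := ⟨_, rfl⟩
  have h1' := h1 T hT
  have h2' := h2 T hT
  rw [← hl] at h1' h2' hlT hlT2 ⊢
  have hsub : (upTo T).filter (fun φ => ∃ p : V,
      (((nm p : ℝ) ≤ l ^ (3 - ε) ∧ ¬ Tempered (α φ p)) ∨
        ∃ i, Real.exp ((C₁ + C₂ + C₂ / Real.log 2) * (Real.log (nm p)) ^ 2 / l) < ‖α φ p i‖)) ⊆
      (upTo T).filter (fun φ => ∃ P : Finset V, P.card = 1 ∧ ∀ p ∈ P,
        (nm p : ℝ) ≤ l ^ (3 - ε) ∧ ¬ Tempered (α φ p)) ∪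
      (upTo T).filter (fun φ => ∃ p : V, l ≤ nm p ∧
        ∃ i, Real.exp (C₂ * (Real.log (nm p)) ^ 2 / l) < ‖α φ p i‖) := by
    intro φ hφ
    obtain ⟨hφ1, p, hcase⟩ := mem_filter.1 hφ
    have hp2 : (2 : ℝ) ≤ nm p := by exact_mod_cast hV.two_le p
    rw [mem_union]
    rcases hcase with ⟨hp3, hnt⟩ | ⟨i, hi⟩
    · refine Or.inl (mem_filter.2 ⟨hφ1, {p}, card_singleton p, fun q hq => ?_⟩)
      rw [mem_singleton.1 hq]
      exact ⟨hp3, hnt⟩
    · have hC0 : 0 ≤ C₁ + C₂ / Real.log 2 := by positivity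
      by_cases hpl : l ≤ nm p
      · refine Or.inr (mem_filter.2 ⟨hφ1, p, hpl, i, lt_of_le_of_lt (Real.exp_le_exp.2 ?_) hi⟩)
        gcongr
        linarith
      · refine Or.inl (mem_filter.2 ⟨hφ1, {p}, card_singleton p, fun q hq => ?_⟩)
        rw [mem_singleton.1 hq]
        push Not at hpl
        refine ⟨?_, fun hT' => ?_⟩
        · have h1l : (1 : ℝ) ≤ l := by linarith
          calc (nm p : ℝ) ≤ l := hpl.le
            _ = l ^ (1 : ℝ) := (Real.rpow_one l).symm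
            _ ≤ l ^ (3 - ε) := Real.rpow_le_rpow_of_exponent_le h1l (by linarith)
        · have h3 := hT' i
          rw [h3] at hi
          have h4 : (1 : ℝ) ≤ Real.exp ((C₁ + C₂ + C₂ / Real.log 2) * (Real.log (nm p)) ^ 2 / l) :=
            Real.one_le_exp (by positivity)
          linarith
  have hlast : C₂ / l ≤ C₂ / Real.log 2 * l ^ (-(ε / 4)) := by
    have h5 : 1 / l ≤ 1 / Real.log 2 * l ^ (-(ε / 4)) := by
      rcases le_total 1 l with h6 | h6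
      · have h7 : 1 / l ≤ l ^ (-(ε / 4)) := by
          rw [one_div, ← Real.rpow_neg_one]
          exact Real.rpow_le_rpow_of_exponent_le h6 (by linarith)
        have h8 : 1 ≤ 1 / Real.log 2 := by
          rw [le_div_iff₀ hl2, one_mul]
          have := Real.log_two_lt_d9
          linarith
        have h9 : 0 ≤ l ^ (-(ε / 4)) := by positivity
        nlinarith
      · have h7 : 1 ≤ l ^ (-(ε / 4)) :=
          Real.one_le_rpow_of_pos_of_le_one_of_nonpos hlT h6 (by linarith)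
        have h8 : 1 / l ≤ 1 / Real.log 2 := one_div_le_one_div_of_le hl2 hlT2
        have h9 : 0 ≤ 1 / Real.log 2 := by positivity
        nlinarith
    calc C₂ / l = C₂ * (1 / l) := by ring
      _ ≤ C₂ * (1 / Real.log 2 * l ^ (-(ε / 4))) := mul_le_mul_of_nonneg_left h5 hC₂.le
      _ = C₂ / Real.log 2 * l ^ (-(ε / 4)) := by ring
  have h1'' := h1'
  rw [show -(ε * ((1 : ℕ) : ℝ) / 4) = -(ε / 4) by push_cast; ring] at h1''
  have hpw : 0 ≤ l ^ (-(ε / 4)) := by positivity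
  refine (Nat.cast_le.2 ((card_le_card hsub).trans (card_union_le _ _))).trans ?_
  push_cast
  calc _ ≤ C₁ * l ^ (-(ε / 4)) * (upTo T).card + C₂ / l * (upTo T).card := add_le_add h1'' h2'
    _ ≤ C₁ * l ^ (-(ε / 4)) * (upTo T).card +
        (C₂ / Real.log 2 * l ^ (-(ε / 4))) * (upTo T).card := by
        have := mul_le_mul_of_nonneg_right hlast hFc
        linarith
    _ ≤ (C₁ + C₂ + C₂ / Real.log 2) * l ^ (-(ε / 4)) * (upTo T).card := by
        have : 0 ≤ C₂ * l ^ (-(ε / 4)) * (upTo T).card := by positivity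
        nlinarith

/-- a family with exceptional places -/
structure FamilyOff (n : ℕ) (L : ℝ → ((Fin n → ℂ) → ℂ) → ℂ) (V Form : Type) (nm : V → ℕ)
    (E : Set V) (upTo : ℝ → Finset Form) (α : Form → V → Fin n → ℂ) : Prop where
  unitary : ∀ T : ℝ, ∀ φ ∈ upTo T, ∀ v ∉ E, Unitary (α φ v)
  equi : ∃ A C η : ℝ, 0 ≤ A ∧ 0 ≤ C ∧ 0 < η ∧ ∀ T : ℝ, 2 ≤ T →
    ∀ P : Finset V, (∀ v ∈ P, v ∉ E) → ∀ (w : V → List ℤ) (κ : ℕ),
    (∀ v ∈ P, (w v).sum = 0 ∧ ((w v).map (fun m => (m.natAbs : ℕ))).sum ≤ κ) →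
    ‖∑ φ ∈ upTo T, ∏ v ∈ P, word (α φ v) (w v) -
        ((upTo T).card : ℂ) * ∏ v ∈ P, L (nm v : ℝ) (fun a : Fin n → ℂ => word a (w v))‖ ≤
      C * (∏ v ∈ P, (n : ℝ) ^ (w v).length) * (∏ v ∈ P, (nm v : ℝ)) ^ (A * (κ + 1)) *
        T ^ (-η) * (upTo T).card

lemma FamilyOff.sub {n : ℕ} {L : ℝ → ((Fin n → ℂ) → ℂ) → ℂ} {V Form : Type} {nm : V → ℕ}
    {E : Set V} {upTo : ℝ → Finset Form} {α : Form → V → Fin n → ℂ}
    (h : FamilyOff n L V Form nm E upTo α) :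
    Family n L {v : V // v ∉ E} Form (fun v => nm v) upTo (fun φ v => α φ v) where
  unitary := fun T φ hφ v => h.unitary T φ hφ v v.2
  equi := by
    classical
    obtain ⟨A, C, η, hA, hC, hη, hE⟩ := h.equi
    refine ⟨A, C, η, hA, hC, hη, fun T hT P w κ hw => ?_⟩
    have e : ∀ u : {v : V // v ∉ E}, (if hv : (u : V) ∉ E then w ⟨u, hv⟩ else []) = w u :=
      fun u => dif_pos u.2
    have h1 := hE T hT (P.map (Function.Embedding.subtype _)) (fun v hv => by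
      obtain ⟨u, -, rfl⟩ := mem_map.1 hv
      exact u.2) (fun v => if hv : v ∉ E then w ⟨v, hv⟩ else []) κ (fun v hv => by
      obtain ⟨u, hu, rfl⟩ := mem_map.1 hv
      have h2 := hw u hu
      rw [← e u] at h2
      exact h2)
    rw [prod_map, prod_map, prod_map] at h1
    have e1 : ∀ φ, ∏ v ∈ P.map (Function.Embedding.subtype _), word (α φ v)
        (if hv : v ∉ E then w ⟨v, hv⟩ else []) = ∏ u ∈ P, word (α φ u) (w u) := by
      intro φ
      rw [prod_map]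
      exact prod_congr rfl fun u _ => congrArg _ (e u)
    simp_rw [e1] at h1
    have e2 : ∏ u ∈ P, L (nm ((Function.Embedding.subtype _) u) : ℝ) (fun a : Fin n → ℂ => word a
        (if hv : (Function.Embedding.subtype (fun v => v ∉ E)) u ∉ E then
          w ⟨(Function.Embedding.subtype _) u, hv⟩ else [])) =
        ∏ u ∈ P, L (nm (u : V) : ℝ) (fun a : Fin n → ℂ => word a (w u)) := by
      refine prod_congr rfl fun u _ => ?_
      have := e u
      exact congrArg (fun z => L (nm (u : V) : ℝ) (fun a : Fin n → ℂ => word a z)) this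
    have e3 : ∏ u ∈ P, (n : ℝ) ^ (if hv : (Function.Embedding.subtype (fun v => v ∉ E)) u ∉ E then
          w ⟨(Function.Embedding.subtype _) u, hv⟩ else []).length =
        ∏ u ∈ P, (n : ℝ) ^ (w u).length := by
      refine prod_congr rfl fun u _ => ?_
      have := e u
      exact congrArg (fun z : List ℤ => (n : ℝ) ^ z.length) this
    rw [e2, e3] at h1
    exact h1

lemma Places.sub {V : Type} {nm : V → ℕ} {d : ℕ} (hV : Places V nm d) (E : Set V) :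
    Places {v : V // v ∉ E} (fun v => nm v) d where
  two_le := fun v => hV.two_le v
  few := fun m P hP => by
    have := hV.few m (P.map (Function.Embedding.subtype _)) (fun v hv => by
      obtain ⟨u, hu, rfl⟩ := mem_map.1 hv
      exact hP u hu)
    rwa [card_map] at this

open scoped Classical in
/-- the four statements, exceptional places allowed -/
theorem four (S : Leaves) (hN : S_NEWT) {n : ℕ} (hn : 1 ≤ n) {L : ℝ → ((Fin n → ℂ) → ℂ) → ℂ}
    (hL : Plan n L) {V Form : Type} {nm : V → ℕ} {d : ℕ} (hV : Places V nm d) {E : Set V}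
    {upTo : ℝ → Finset Form} {α : Form → V → Fin n → ℂ} (hF : FamilyOff n L V Form nm E upTo α)
    {b : ℝ} (hb0 : 0 ≤ b)
    (hb : ∀ T : ℝ, ∀ φ ∈ upTo T, ∀ p ∉ E, ∀ i, ‖α φ p i‖ ≤ (nm p : ℝ) ^ b)
    {ε : ℝ} (he0 : 0 < ε) (he1 : ε ≤ 1) :
    (∀ k : ℕ, 1 ≤ k → ∃ C : ℝ, 0 < C ∧ ∀ T : ℝ, 2 ≤ T →
      ∀ P : Finset V, (∀ v ∈ P, v ∉ E) → P.card = k →
      (((upTo T).filter (fun φ => ∀ v ∈ P, ¬ Tempered (α φ v))).card : ℝ) ≤
        C * (Real.log (∏ v ∈ P, (nm v : ℝ)) / Real.log T) ^ ((3 - ε) * k) * (upTo T).card) ∧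
    (∀ k : ℕ, 1 ≤ k → ∃ C : ℝ, 0 < C ∧ ∀ T : ℝ, 2 ≤ T →
      (((upTo T).filter (fun φ => ∃ P : Finset V, P.card = k ∧ ∀ v ∈ P, v ∉ E ∧
        (nm v : ℝ) ≤ (Real.log T) ^ (3 - ε) ∧ ¬ Tempered (α φ v))).card : ℝ) ≤
        C * (Real.log T) ^ (-(ε * k / 4)) * (upTo T).card) ∧
    (∃ C : ℝ, 0 < C ∧ ∀ T : ℝ, 2 ≤ T → ∀ P : Finset V, (∀ v ∈ P, v ∉ E) →
      ∑ φ ∈ upTo T, ((P.filter (fun v => ¬ Tempered (α φ v))).card : ℝ) ≤
        C * (∑ v ∈ P, (Real.log (nm v) / Real.log T) ^ (3 - ε)) * (upTo T).card) ∧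
    (∃ C : ℝ, 0 < C ∧ ∀ T : ℝ, 2 ≤ T →
      (((upTo T).filter (fun φ => ∃ v ∉ E,
        ((nm v : ℝ) ≤ (Real.log T) ^ (3 - ε) ∧ ¬ Tempered (α φ v)) ∨
          ∃ i, Real.exp (C * (Real.log (nm v)) ^ 2 / Real.log T) < ‖α φ v i‖)).card : ℝ) ≤
        C * (Real.log T) ^ (-(ε / 4)) * (upTo T).card) := by
  have hV' := hV.sub E
  have hF' := hF.sub
  refine ⟨fun k hk => ?_, fun k hk => ?_, ?_, ?_⟩
  · obtain ⟨C, hC, h1⟩ := several S hn hL hV' hF' he0 he1 hk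
    refine ⟨C, hC, fun T hT P hP hPk => ?_⟩
    obtain ⟨P', hP'⟩ : ∃ P' : Finset {v : V // v ∉ E}, P'.map (Function.Embedding.subtype _) = P :=
      ⟨P.subtype _, subtype_map_of_mem hP⟩
    subst hP'
    have h2 := h1 T hT P' (by rwa [card_map] at hPk) ((upTo T).filter
      (fun φ => ∀ v ∈ P'.map (Function.Embedding.subtype _), ¬ Tempered (α φ v))) (filter_subset _ _)
      (fun φ hφ p hp => (mem_filter.1 hφ).2 p (mem_map_of_mem _ hp))
    rw [prod_map]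
    exact h2
  · obtain ⟨C, hC, h1⟩ := small S hn hL hV' hF' he0 he1 hk
    refine ⟨C, hC, fun T hT => (Nat.cast_le.2 (card_le_card ?_)).trans (h1 T hT)⟩
    intro φ hφ
    obtain ⟨h2, P, hPk, hP⟩ := mem_filter.1 hφ
    refine mem_filter.2 ⟨h2, P.subtype _, ?_, ?_⟩
    · rw [← hPk, ← card_map (Function.Embedding.subtype _),
        subtype_map_of_mem (p := fun v => v ∉ E) fun v hv => (hP v hv).1]
    · intro p hp
      exact (hP p (mem_subtype.1 hp)).2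
  · obtain ⟨C, hC, h1⟩ := one_place S hn hL hV' hF' he0 he1
    refine ⟨C, hC, fun T hT P hP => ?_⟩
    obtain ⟨P', hP'⟩ : ∃ P' : Finset {v : V // v ∉ E}, P'.map (Function.Embedding.subtype _) = P :=
      ⟨P.subtype _, subtype_map_of_mem hP⟩
    subst hP'
    have h2 := h1 T hT P'
    rw [sum_map]
    refine le_trans (le_of_eq ?_) h2
    refine sum_congr rfl fun φ _ => ?_
    rw [filter_map, card_map]
    rfl
  · obtain ⟨C, hC, h1⟩ := every S hN hn hL hV' hF' hb0 (fun T φ hφ p i => hb T φ hφ p p.2 i) he0 he1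
    refine ⟨C, hC, fun T hT => (Nat.cast_le.2 (card_le_card ?_)).trans (h1 T hT)⟩
    intro φ hφ
    obtain ⟨h2, v, hv, h3⟩ := mem_filter.1 hφ
    exact mem_filter.2 ⟨h2, ⟨v, hv⟩, h3⟩

end Gen

end Pool.Agent.N846.AT
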