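import Pool.Agent.N846.AT.GenU

/-!
# Project AT: the number of the nontempered places up to a bound
-/

set_option autoImplicit false

namespace Pool.Agent.N846.AT

open Finset Complex MeasureTheory
open scoped BigOperators ComplexConjugate

namespace Gen

open Mean Avg Near

open scoped Classical in
/-- the number of the nontempered places of norm at most `X` -/
theorem tail (S : Leaves) {n : ℕ} (hn : 1 ≤ n) {L : ℝ → ((Fin n → ℂ) → ℂ) → ℂ} (hL : Plan n L)
    {V Form : Type} {nm : V → ℕ} {d : ℕ} (hV : Places V nm d) {upTo : ℝ → Finset Form}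
    {α : Form → V → Fin n → ℂ} (hF : Family n L V Form nm upTo α) {ε : ℝ} (he0 : 0 < ε)
    (he1 : ε ≤ 1) :
    ∃ C c : ℝ, 0 < C ∧ 0 < c ∧ ∀ T X : ℝ, 2 ≤ T → 2 ≤ X → ∀ k : ℕ, 1 ≤ k →
      (((upTo T).filter (fun φ => ∃ P : Finset V, P.card = k ∧ ∀ p ∈ P,
        (nm p : ℝ) ≤ X ∧ ¬ Tempered (α φ p))).card : ℝ) ≤
      ((C * X * (k : ℝ) ^ (2 - ε) * (Real.log X / Real.log T) ^ (3 - ε)) ^ k + C * T ^ (-c)) *
        (upTo T).card := by
  obtain ⟨C₁, c₁, hC₁, hc₁, h⟩ := uniform S hn hL hV hF he0 he1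
  have hrr : (0 : ℝ) < 3 - ε := by linarith
  have hl2 : 0 < Real.log 2 := Real.log_pos (by norm_num)
  obtain ⟨d', hd'⟩ : ∃ d' : ℝ, d' = (d : ℝ) + 1 := ⟨_, rfl⟩
  have hd1 : 1 ≤ d' := by
    have : (0 : ℝ) ≤ d := by positivity
    linarith
  have hd0 : 0 < d' := by linarith
  obtain ⟨M, hM⟩ : ∃ M : ℝ, M = 1 + Real.log (3 * d') / Real.log 2 := ⟨_, rfl⟩
  have hlog3 : 0 ≤ Real.log (3 * d') := Real.log_nonneg (by linarith)
  have hMpos : 0 < M := by rw [hM]; positivity
  obtain ⟨c₃, hc₃⟩ : ∃ c₃ : ℝ, c₃ = c₁ / (2 * M) := ⟨_, rfl⟩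
  have hc₃0 : 0 < c₃ := by rw [hc₃]; positivity
  have hc₃r : 0 < c₃ ^ (3 - ε) := Real.rpow_pos_of_pos hc₃0 _
  obtain ⟨C, hC⟩ : ∃ C : ℝ, C = 3 * d' * C₁ + d' / c₃ ^ (3 - ε) + C₁ + 1 := ⟨_, rfl⟩
  have ht1 : 0 ≤ 3 * d' * C₁ := by positivity
  have ht2 : 0 ≤ d' / c₃ ^ (3 - ε) := by positivity
  have hCpos : 0 < C := by rw [hC]; linarith
  refine ⟨C, c₁ / 2, hCpos, by positivity, fun T X hT hX k hk => ?_⟩
  have hT0 : 0 < T := by linarith
  have hX0 : 0 < X := by linarith
  have hlT : 0 < Real.log T := Real.log_pos (by linarith)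
  have hlX : 0 < Real.log X := Real.log_pos (by linarith)
  have hlX2 : Real.log 2 ≤ Real.log X := Real.log_le_log (by norm_num) hX
  have hkp : (0 : ℝ) < k := by exact_mod_cast hk
  have hk1 : (1 : ℝ) ≤ k := by exact_mod_cast hk
  have hFc : (0 : ℝ) ≤ (upTo T).card := by positivity
  have hTc : 0 < T ^ (-(c₁ / 2)) := Real.rpow_pos_of_pos hT0 _
  obtain ⟨z, hz⟩ : ∃ z, z = Real.log X / Real.log T := ⟨_, rfl⟩
  have hz0 : 0 < z := by rw [hz]; positivity
  rw [← hz]
  -- the main quantity
  have hkey : ∀ B : ℝ, B * X * (k : ℝ) ^ (2 - ε) * z ^ (3 - ε) =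
      B * (X / k) * ((k : ℝ) * z) ^ (3 - ε) := by
    intro B
    have h1 : ((k : ℝ) * z) ^ (3 - ε) = (k : ℝ) ^ (2 - ε) * k * z ^ (3 - ε) := by
      rw [Real.mul_rpow hkp.le hz0.le]
      congr 1
      rw [show (3 - ε : ℝ) = (2 - ε) + 1 by ring, Real.rpow_add hkp, Real.rpow_one]
    rw [h1]
    field_simp
  have hmain0 : 0 ≤ C * X * (k : ℝ) ^ (2 - ε) * z ^ (3 - ε) := by positivity
  obtain ⟨R, hR1, hR2⟩ := hV.le ⌊X⌋₊
  have hmem : ∀ p : V, p ∈ R ↔ (nm p : ℝ) ≤ X := by
    intro p
    rw [hR1]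
    exact ⟨fun h => (Nat.le_floor_iff (by positivity)).1 h,
      fun h => (Nat.le_floor_iff (by positivity)).2 h⟩
  have hRc : (R.card : ℝ) ≤ d' * X := by
    calc (R.card : ℝ) ≤ ((d * ⌊X⌋₊ : ℕ) : ℝ) := by exact_mod_cast hR2
      _ = d * (⌊X⌋₊ : ℝ) := by push_cast; rfl
      _ ≤ d' * X := by
          refine mul_le_mul (by rw [hd']; linarith) (Nat.floor_le (by positivity)) (by positivity)
            (by positivity)
  obtain ⟨G, hGdef⟩ : ∃ G : Finset Form, G = (upTo T).filter (fun φ => ∃ P : Finset V,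
    P.card = k ∧ ∀ p ∈ P, (nm p : ℝ) ≤ X ∧ ¬ Tempered (α φ p)) := ⟨_, rfl⟩
  rw [← hGdef]
  have hGsub : G ⊆ upTo T := by rw [hGdef]; exact filter_subset _ _
  have hGle : (G.card : ℝ) ≤ (upTo T).card := by exact_mod_cast card_le_card hGsub
  have hrhs0 : 0 ≤ C * T ^ (-(c₁ / 2)) := by positivity
  by_cases hkR : R.card < k
  · have : G = ∅ := by
      rw [hGdef]
      refine filter_eq_empty_iff.2 fun φ _ => ?_
      rintro ⟨P, hPk, hP⟩
      have h1 : P ⊆ R := fun p hp => (hmem p).2 (hP p hp).1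
      have := card_le_card h1
      omega
    rw [this, card_empty, Nat.cast_zero]
    positivity
  · have hkX : (k : ℝ) ≤ d' * X := by
      refine le_trans ?_ hRc
      exact_mod_cast not_lt.1 hkR
    by_cases hcase : c₁ / 2 * Real.log T < k * (M * Real.log X)
    · -- trivial bound
      have h1 : c₃ ≤ k * z := by
        rw [hc₃, hz, ← mul_div_assoc, div_le_div_iff₀ (by positivity) hlT]
        nlinarith
      have h2 : c₃ ^ (3 - ε) ≤ ((k : ℝ) * z) ^ (3 - ε) := Real.rpow_le_rpow hc₃0.le h1 hrr.le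
      have h3 : 1 / d' ≤ X / k := by
        rw [div_le_div_iff₀ hd0 hkp]
        linarith
      have h4 : 1 ≤ C * X * (k : ℝ) ^ (2 - ε) * z ^ (3 - ε) := by
        rw [hkey]
        have h5 : d' / c₃ ^ (3 - ε) ≤ C := by rw [hC]; linarith
        calc (1 : ℝ) = (d' / c₃ ^ (3 - ε)) * (1 / d') * c₃ ^ (3 - ε) := by field_simp
          _ ≤ C * (X / k) * ((k : ℝ) * z) ^ (3 - ε) := by
              refine mul_le_mul (mul_le_mul h5 h3 (by positivity) hCpos.le) h2 (by positivity)
                (by positivity)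
      have h5 : 1 ≤ (C * X * (k : ℝ) ^ (2 - ε) * z ^ (3 - ε)) ^ k := one_le_pow₀ h4
      calc (G.card : ℝ) ≤ 1 * (upTo T).card := by linarith
        _ ≤ _ := mul_le_mul_of_nonneg_right (by linarith) hFc
    · -- the union bound
      push Not at hcase
      have hsub : G ⊆ (powersetCard k R).biUnion
          (fun P => (upTo T).filter (fun φ => ∀ p ∈ P, ¬ Tempered (α φ p))) := by
        intro φ hφ
        rw [hGdef] at hφ
        obtain ⟨h1, P, h2, h3⟩ := mem_filter.1 hφ
        exact mem_biUnion.2 ⟨P, mem_powersetCard.2 ⟨fun p hp => (hmem p).2 (h3 p hp).1, h2⟩,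
          mem_filter.2 ⟨h1, fun p hp => (h3 p hp).2⟩⟩
      have hterm : ∀ P ∈ powersetCard k R,
          (((upTo T).filter (fun φ => ∀ p ∈ P, ¬ Tempered (α φ p))).card : ℝ) ≤
          ((C₁ * ((k : ℝ) * z) ^ (3 - ε)) ^ k + C₁ * T ^ (-c₁)) * (upTo T).card := by
        intro P hP
        obtain ⟨hPR, hPk⟩ := mem_powersetCard.1 hP
        have hne : P.Nonempty := by
          rw [← card_pos]
          omega
        have h4 := h T hT P hne _ (filter_subset _ _) (fun φ hφ => (mem_filter.1 hφ).2)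
        refine h4.trans (mul_le_mul_of_nonneg_right (add_le_add ?_ le_rfl) hFc)
        rw [hPk]
        have h6 : 0 ≤ Real.log (∏ p ∈ P, (nm p : ℝ)) := by
          refine Real.log_nonneg ?_
          calc (1 : ℝ) = ∏ _p ∈ P, (1 : ℝ) := by simp
            _ ≤ ∏ p ∈ P, (nm p : ℝ) := prod_le_prod (fun _ _ => by norm_num) fun p hp => by
                have := hV.two_le p
                exact_mod_cast (by omega : 1 ≤ nm p)
        have h7 : Real.log (∏ p ∈ P, (nm p : ℝ)) ≤ k * Real.log X := by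
          rw [Real.log_prod (fun p hp => by
            have := hV.two_le p
            have : (0 : ℝ) < nm p := by exact_mod_cast (by omega : 0 < nm p)
            positivity)]
          calc ∑ p ∈ P, Real.log (nm p : ℝ) ≤ ∑ _p ∈ P, Real.log X := by
                refine sum_le_sum fun p hp => ?_
                have hp1 := hV.two_le p
                have hp0 : (0 : ℝ) < nm p := by exact_mod_cast (by omega : 0 < nm p)
                exact Real.log_le_log hp0 ((hmem p).1 (hPR hp))
            _ = k * Real.log X := by rw [sum_const, hPk, nsmul_eq_mul]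
        have h8 : Real.log (∏ p ∈ P, (nm p : ℝ)) / Real.log T ≤ k * z := by
          rw [hz, ← mul_div_assoc]
          exact div_le_div_of_nonneg_right h7 hlT.le
        refine pow_le_pow_left₀ (by positivity) ?_ k
        refine mul_le_mul_of_nonneg_left ?_ hC₁.le
        exact Real.rpow_le_rpow (by positivity) h8 hrr.le
      have hX' : 0 ≤ ((C₁ * ((k : ℝ) * z) ^ (3 - ε)) ^ k + C₁ * T ^ (-c₁)) * ((upTo T).card : ℝ) := by
        positivity
      have hch : ((powersetCard k R).card : ℝ) ≤ (3 * d' * X / k) ^ k := by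
        rw [card_powersetCard]
        refine (choose_le R.card k hk).trans (pow_le_pow_left₀ (by positivity) ?_ k)
        refine div_le_div_of_nonneg_right ?_ hkp.le
        nlinarith
      have hsecond : (3 * d' * X / k) ^ k * (C₁ * T ^ (-c₁)) ≤ C * T ^ (-(c₁ / 2)) := by
        have h1 : (3 * d' * X / k) ^ k ≤ T ^ (c₁ / 2) := by
          calc (3 * d' * X / k) ^ k ≤ (3 * d' * X) ^ k := by
                refine pow_le_pow_left₀ (by positivity) ?_ k
                exact div_le_self (by positivity) hk1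
            _ = Real.exp (k * Real.log (3 * d' * X)) := by
                rw [Real.exp_nat_mul, Real.exp_log (by positivity)]
            _ ≤ Real.exp (c₁ / 2 * Real.log T) := by
                refine Real.exp_le_exp.2 (le_trans ?_ hcase)
                refine mul_le_mul_of_nonneg_left ?_ hkp.le
                rw [Real.log_mul (by positivity) (by positivity), hM, add_mul, one_mul]
                have h9 : Real.log (3 * d') ≤ Real.log (3 * d') / Real.log 2 * Real.log X := by
                  rw [div_mul_eq_mul_div, le_div_iff₀ hl2]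
                  exact mul_le_mul_of_nonneg_left hlX2 hlog3
                linarith
            _ = T ^ (c₁ / 2) := by
                rw [Real.rpow_def_of_pos hT0, mul_comm]
        calc (3 * d' * X / k) ^ k * (C₁ * T ^ (-c₁)) ≤ T ^ (c₁ / 2) * (C₁ * T ^ (-c₁)) :=
              mul_le_mul_of_nonneg_right h1 (by positivity)
          _ = C₁ * (T ^ (c₁ / 2) * T ^ (-c₁)) := by ring
          _ = C₁ * T ^ (-(c₁ / 2)) := by
              rw [← Real.rpow_add hT0]
              congr 2
              ring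
          _ ≤ C * T ^ (-(c₁ / 2)) := by
              refine mul_le_mul_of_nonneg_right ?_ hTc.le
              rw [hC]
              linarith
      have hfirst : (3 * d' * X / k) ^ k * (C₁ * ((k : ℝ) * z) ^ (3 - ε)) ^ k ≤
          (C * X * (k : ℝ) ^ (2 - ε) * z ^ (3 - ε)) ^ k := by
        rw [← mul_pow, hkey]
        refine pow_le_pow_left₀ (by positivity) ?_ k
        calc 3 * d' * X / k * (C₁ * ((k : ℝ) * z) ^ (3 - ε)) =
              3 * d' * C₁ * (X / k) * ((k : ℝ) * z) ^ (3 - ε) := by ring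
          _ ≤ C * (X / k) * ((k : ℝ) * z) ^ (3 - ε) := by
              refine mul_le_mul_of_nonneg_right (mul_le_mul_of_nonneg_right ?_ (by positivity))
                (by positivity)
              rw [hC]
              linarith
      calc (G.card : ℝ)
          ≤ (((powersetCard k R).biUnion
              (fun P => (upTo T).filter (fun φ => ∀ p ∈ P, ¬ Tempered (α φ p)))).card : ℝ) := by
            exact_mod_cast card_le_card hsub
        _ ≤ ((∑ P ∈ powersetCard k R,
              ((upTo T).filter (fun φ => ∀ p ∈ P, ¬ Tempered (α φ p))).card : ℕ) : ℝ) := by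
            exact_mod_cast card_biUnion_le
        _ = ∑ P ∈ powersetCard k R,
              (((upTo T).filter (fun φ => ∀ p ∈ P, ¬ Tempered (α φ p))).card : ℝ) := by
            push_cast; rfl
        _ ≤ ∑ _P ∈ powersetCard k R,
              ((C₁ * ((k : ℝ) * z) ^ (3 - ε)) ^ k + C₁ * T ^ (-c₁)) * (upTo T).card :=
            sum_le_sum hterm
        _ = (powersetCard k R).card *
              (((C₁ * ((k : ℝ) * z) ^ (3 - ε)) ^ k + C₁ * T ^ (-c₁)) * (upTo T).card) := by
            rw [sum_const, nsmul_eq_mul]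
        _ ≤ (3 * d' * X / k) ^ k *
              (((C₁ * ((k : ℝ) * z) ^ (3 - ε)) ^ k + C₁ * T ^ (-c₁)) * (upTo T).card) :=
            mul_le_mul_of_nonneg_right hch hX'
        _ = ((3 * d' * X / k) ^ k * (C₁ * ((k : ℝ) * z) ^ (3 - ε)) ^ k +
              (3 * d' * X / k) ^ k * (C₁ * T ^ (-c₁))) * (upTo T).card := by ring
        _ ≤ ((C * X * (k : ℝ) ^ (2 - ε) * z ^ (3 - ε)) ^ k + C * T ^ (-(c₁ / 2))) *
              (upTo T).card :=
            mul_le_mul_of_nonneg_right (add_le_add hfirst hsecond) hFc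

end Gen

end Pool.Agent.N846.AT
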