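import Pool.Agent.N846.AT.GenMain

/-!
# Project AT: uniformity in the number of the places, large deviations
-/

set_option autoImplicit false

namespace Pool.Agent.N846.AT

open Finset Complex MeasureTheory
open scoped BigOperators ComplexConjugate

namespace Gen

open Mean Avg Near

open scoped Classical in
/-- nontempered at several places, uniform in their number -/
theorem uniform (S : Leaves) {n : ℕ} (hn : 1 ≤ n) {L : ℝ → ((Fin n → ℂ) → ℂ) → ℂ} (hL : Plan n L)
    {V Form : Type} {nm : V → ℕ} {d : ℕ} (hV : Places V nm d) {upTo : ℝ → Finset Form}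
    {α : Form → V → Fin n → ℂ} (hF : Family n L V Form nm upTo α) {ε : ℝ} (he0 : 0 < ε)
    (he1 : ε ≤ 1) :
    ∃ C c : ℝ, 0 < C ∧ 0 < c ∧ ∀ T : ℝ, 2 ≤ T → ∀ P : Finset V, P.Nonempty →
      ∀ G ⊆ upTo T, (∀ φ ∈ G, ∀ p ∈ P, ¬ Tempered (α φ p)) →
      (G.card : ℝ) ≤ ((C * (Real.log (∏ p ∈ P, (nm p : ℝ)) / Real.log T) ^ (3 - ε)) ^ P.card +
        C * T ^ (-c)) * (upTo T).card := by
  obtain ⟨A, C₀, η, hA, hC₀, hη, hE⟩ := hF.equi
  obtain ⟨C₁, hC₁, havg⟩ := javg S hn hL (s := 1 - ε) (by linarith) (by linarith)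
  have hrr : (0 : ℝ) < 3 - ε := by linarith
  obtain ⟨B, hB⟩ : ∃ B : ℝ, B = 3 * A * n + 10 + 5 * n := ⟨_, rfl⟩
  have hBpos : 0 < B := by rw [hB]; positivity
  have ht1 : 0 ≤ C₁ * (4 * B / η) ^ (3 - ε) := by positivity
  have ht3 : 0 ≤ (2 * B / η) ^ (3 - ε) := by positivity
  obtain ⟨C, hC⟩ : ∃ C : ℝ, C = C₁ * (4 * B / η) ^ (3 - ε) + (2 * B / η) ^ (3 - ε) + C₀ + 1 :=
    ⟨_, rfl⟩
  have hCpos : 0 < C := by rw [hC]; positivity
  refine ⟨C, η / 2, hCpos, by positivity, fun T hT P hne G hG hnt => ?_⟩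
  obtain ⟨D, hD⟩ : ∃ D : ℝ, D = ∏ p ∈ P, (nm p : ℝ) := ⟨_, rfl⟩
  rw [← hD]
  have hD2 : 2 ≤ D := by
    obtain ⟨p₀, hp₀⟩ := hne
    rw [hD, ← mul_prod_erase P _ hp₀]
    have h1 : (1 : ℝ) ≤ ∏ p ∈ P.erase p₀, (nm p : ℝ) := by
      calc (1 : ℝ) = ∏ _p ∈ P.erase p₀, (1 : ℝ) := by simp
        _ ≤ ∏ p ∈ P.erase p₀, (nm p : ℝ) := prod_le_prod (fun _ _ => by norm_num) fun p hp => by
            have := hV.two_le p
            exact_mod_cast (by omega : 1 ≤ nm p)
    have h2 : (2 : ℝ) ≤ (nm p₀ : ℝ) := by exact_mod_cast hV.two_le p₀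
    nlinarith
  have hD0 : 0 < D := by linarith
  have hT0 : 0 < T := by linarith
  have hlq : 0 < Real.log D := Real.log_pos (by linarith)
  have hlT : 0 < Real.log T := Real.log_pos (by linarith)
  have hFc : (0 : ℝ) ≤ (upTo T).card := by positivity
  obtain ⟨y, hy⟩ : ∃ y, y = Real.log D / Real.log T := ⟨_, rfl⟩
  have hy0 : 0 < y := by rw [hy]; positivity
  rw [← hy]
  have hyr : 0 < y ^ (3 - ε) := Real.rpow_pos_of_pos hy0 _
  have hTc : 0 < T ^ (-(η / 2)) := Real.rpow_pos_of_pos hT0 _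
  by_cases hΛ : η / (2 * B * y) < 1
  · have h1 : 1 ≤ (2 * B / η) * y := by
      rw [div_lt_one (by positivity)] at hΛ
      rw [div_mul_eq_mul_div, le_div_iff₀ hη]
      linarith
    have h2 : 1 ≤ (2 * B / η) ^ (3 - ε) * y ^ (3 - ε) := by
      rw [← Real.mul_rpow (by positivity) hy0.le]
      exact Real.one_le_rpow h1 hrr.le
    have h3 : (G.card : ℝ) ≤ (upTo T).card := by exact_mod_cast card_le_card hG
    have h4 : 1 ≤ C * y ^ (3 - ε) := by
      refine h2.trans (mul_le_mul_of_nonneg_right ?_ hyr.le)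
      rw [hC]
      linarith
    have h5 : 1 ≤ (C * y ^ (3 - ε)) ^ P.card := one_le_pow₀ h4
    calc (G.card : ℝ) ≤ 1 * (upTo T).card := by linarith
      _ ≤ ((C * y ^ (3 - ε)) ^ P.card + C * T ^ (-(η / 2))) * (upTo T).card := by
          refine mul_le_mul_of_nonneg_right ?_ hFc
          have : 0 ≤ C * T ^ (-(η / 2)) := by positivity
          linarith
  · have hΛ' : 1 ≤ η / (2 * B * y) := not_lt.1 hΛ
    obtain ⟨Λ, hΛe⟩ : ∃ Λ, Λ = η / (2 * B * y) := ⟨_, rfl⟩
    rw [← hΛe] at hΛ'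
    obtain ⟨K, hK⟩ : ∃ K, K = ⌊Λ⌋₊ := ⟨_, rfl⟩
    have hK1 : 1 ≤ K := by rw [hK]; exact Nat.one_le_floor_iff _ |>.2 hΛ'
    have hKle : (K : ℝ) ≤ Λ := by rw [hK]; exact Nat.floor_le (by linarith)
    have hKge : Λ / 2 ≤ K := by
      have h1 : Λ < K + 1 := by rw [hK]; exact Nat.lt_floor_add_one _
      have h2 : (1 : ℝ) ≤ K := by exact_mod_cast hK1
      linarith
    have hprodP : ∀ {M : Type} [CommMonoid M] (f : V → M), ∏ i : P, f i = ∏ p ∈ P, f p :=
      fun f => prod_coe_sort P f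
    have hEj := havg P Form (upTo T) (fun φ i => α φ i)
      (fun φ hφ i => hF.unitary T φ hφ i) (fun i => (nm (i : V) : ℝ))
      (fun i => by exact_mod_cast hV.two_le i) (C₀ * T ^ (-η) * (upTo T).card) A
      (by positivity) hA
      (by
        intro w κ hw
        have h1 := hE T hT P (fun p => if h : p ∈ P then w ⟨p, h⟩ else []) κ (by
          intro p hp
          simp only [hp, dif_pos]
          exact hw ⟨p, hp⟩)
        have e1 : ∀ φ, ∏ i : P, word (α φ i) (w i) =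
            ∏ p ∈ P, word (α φ p) (if h : p ∈ P then w ⟨p, h⟩ else []) := by
          intro φ
          rw [← hprodP]
          exact prod_congr rfl fun i _ => by simp
        have e2 : ∏ i : P, L (nm (i : V) : ℝ) (fun a : Fin n → ℂ => word a (w i)) =
            ∏ p ∈ P, L (nm p : ℝ) (fun a : Fin n → ℂ => word a (if h : p ∈ P then w ⟨p, h⟩ else [])) := by
          rw [← hprodP]
          exact prod_congr rfl fun i _ => by simp
        have e3 : ∏ i : P, (n : ℝ) ^ (w i).length =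
            ∏ p ∈ P, (n : ℝ) ^ (if h : p ∈ P then w ⟨p, h⟩ else []).length := by
          rw [← hprodP]
          exact prod_congr rfl fun i _ => by simp
        have e4 : ∏ i : P, (nm (i : V) : ℝ) = ∏ p ∈ P, (nm p : ℝ) := hprodP fun p : V => (nm p : ℝ)
        rw [e2, e3, e4]
        simp_rw [e1]
        refine h1.trans (le_of_eq (by ring)))
      K hK1 G hG (fun φ hφ i => hnt φ hφ i i.2)
    have e4 : ∏ i : P, (nm (i : V) : ℝ) = D := by
      rw [hD]
      exact hprodP fun p : V => (nm p : ℝ)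
    rw [e4, Fintype.card_coe] at hEj
    have hΛ0 : 0 < Λ := by linarith
    have hK0 : (0 : ℝ) < K := by exact_mod_cast hK1
    have hKr : (K : ℝ) ^ (-(2 + (1 - ε))) ≤ (4 * B / η * y) ^ (3 - ε) := by
      have h1 : -(2 + (1 - ε)) = -(3 - ε) := by ring
      rw [h1]
      calc (K : ℝ) ^ (-(3 - ε)) ≤ (Λ / 2) ^ (-(3 - ε)) :=
            Real.rpow_le_rpow_of_nonpos (by positivity) hKge (by linarith)
        _ = (4 * B / η * y) ^ (3 - ε) := by
            rw [Real.rpow_neg (by positivity), ← Real.inv_rpow (by positivity), hΛe]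
            congr 1
            field_simp
            ring
    have hKk : (C₁ * (K : ℝ) ^ (-(2 + (1 - ε)))) ^ P.card ≤ (C * y ^ (3 - ε)) ^ P.card := by
      refine pow_le_pow_left₀ (by positivity) ?_ _
      calc C₁ * (K : ℝ) ^ (-(2 + (1 - ε))) ≤ C₁ * (4 * B / η * y) ^ (3 - ε) :=
            mul_le_mul_of_nonneg_left hKr hC₁.le
        _ = C₁ * (4 * B / η) ^ (3 - ε) * y ^ (3 - ε) := by
            rw [Real.mul_rpow (by positivity) hy0.le, mul_assoc]
        _ ≤ C * y ^ (3 - ε) := by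
            refine mul_le_mul_of_nonneg_right ?_ hyr.le
            rw [hC]
            linarith
    have hpow : D ^ ((3 * A * n + 10 + 5 * n) * K) ≤ T ^ (η / 2) := by
      rw [← hB, Real.rpow_def_of_pos hD0, Real.rpow_def_of_pos hT0]
      refine Real.exp_le_exp.2 ?_
      have h1 : B * K ≤ B * Λ := mul_le_mul_of_nonneg_left hKle hBpos.le
      have h2 : Real.log D * (B * Λ) = Real.log T * (η / 2) := by
        rw [hΛe, hy]
        field_simp
      calc Real.log D * (B * K) ≤ Real.log D * (B * Λ) := mul_le_mul_of_nonneg_left h1 hlq.le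
        _ = Real.log T * (η / 2) := h2
    have hTT : T ^ (-η) * T ^ (η / 2) = T ^ (-(η / 2)) := by
      rw [← Real.rpow_add hT0]
      congr 1
      ring
    calc (G.card : ℝ) ≤ (C₁ * (K : ℝ) ^ (-(2 + (1 - ε)))) ^ P.card * (upTo T).card +
          C₀ * T ^ (-η) * (upTo T).card * D ^ ((3 * A * n + 10 + 5 * n) * K) := hEj
      _ ≤ (C * y ^ (3 - ε)) ^ P.card * (upTo T).card +
          C₀ * T ^ (-η) * (upTo T).card * T ^ (η / 2) := by
          refine add_le_add ?_ ?_
          · exact mul_le_mul_of_nonneg_right hKk hFc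
          · exact mul_le_mul_of_nonneg_left hpow (by positivity)
      _ = (C * y ^ (3 - ε)) ^ P.card * (upTo T).card +
          C₀ * (T ^ (-η) * T ^ (η / 2)) * (upTo T).card := by ring
      _ ≤ (C * y ^ (3 - ε)) ^ P.card * (upTo T).card + C * T ^ (-(η / 2)) * (upTo T).card := by
          rw [hTT]
          have h1 : C₀ ≤ C := by rw [hC]; linarith
          have h2 := mul_le_mul_of_nonneg_right (mul_le_mul_of_nonneg_right h1 hTc.le) hFc
          linarith
      _ = ((C * y ^ (3 - ε)) ^ P.card + C * T ^ (-(η / 2))) * (upTo T).card := by ring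

/-- binomial coefficients -/
lemma choose_le (N k : ℕ) (hk : 1 ≤ k) :
    ((N.choose k : ℕ) : ℝ) ≤ (3 * (N : ℝ) / k) ^ k := by
  have hkp : (0 : ℝ) < k := by exact_mod_cast hk
  have h1 : ((N.choose k : ℕ) : ℝ) ≤ (N : ℝ) ^ k / (k.factorial : ℝ) := Nat.choose_le_pow_div k N
  have h2 : (k : ℝ) ^ k ≤ 3 ^ k * (k.factorial : ℝ) := by
    have h3 : (k : ℝ) ^ k / (k.factorial : ℝ) ≤ Real.exp k :=
      Real.pow_div_factorial_le_exp (k : ℝ) hkp.le k
    have h4 : Real.exp k ≤ 3 ^ k := by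
      calc Real.exp k = Real.exp 1 ^ k := by rw [← Real.exp_nat_mul, mul_one]
        _ ≤ 3 ^ k := pow_le_pow_left₀ (Real.exp_pos 1).le (by
            have := Real.exp_one_lt_d9
            linarith) k
    have h5 : (0 : ℝ) < k.factorial := by exact_mod_cast k.factorial_pos
    rw [div_le_iff₀ h5] at h3
    exact h3.trans (mul_le_mul_of_nonneg_right h4 h5.le)
  refine h1.trans ?_
  have h5 : (0 : ℝ) < k.factorial := by exact_mod_cast k.factorial_pos
  rw [div_pow, mul_pow, div_le_div_iff₀ h5 (by positivity)]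
  calc (N : ℝ) ^ k * (k : ℝ) ^ k ≤ (N : ℝ) ^ k * (3 ^ k * (k.factorial : ℝ)) :=
        mul_le_mul_of_nonneg_left h2 (by positivity)
    _ = 3 ^ k * (N : ℝ) ^ k * (k.factorial : ℝ) := by ring

end Gen

end Pool.Agent.N846.AT
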