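import Pool.Agent.N846.AT.Stm

/-!
# AT/HER: the Toeplitz matrix of the power sums at points which are not tempered (helper616)
-/

set_option autoImplicit false

namespace Pool.Agent.N846.AT

open Finset Complex Matrix
open scoped BigOperators ComplexConjugate ComplexOrder

namespace Her

variable {n : ℕ} {a : Fin n → ℂ}

lemma conj_psum {σ : Equiv.Perm (Fin n)} (hσ : ∀ i, a (σ i) = (conj (a i))⁻¹) (m : ℤ) :
    conj (psum a m) = psum a (-m) := by
  unfold psum
  rw [map_sum, ← Equiv.sum_comp σ fun i => a i ^ (-m)]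
  refine sum_congr rfl fun i _ => ?_
  rw [hσ, _root_.inv_zpow', neg_neg, map_zpow₀]

lemma herm {σ : Equiv.Perm (Fin n)} (hσ : ∀ i, a (σ i) = (conj (a i))⁻¹) :
    (H a).IsHermitian := by
  ext i j
  show conj (psum a ((j : ℤ) - (i : ℤ))) = psum a ((i : ℤ) - (j : ℤ))
  rw [conj_psum hσ, neg_sub]

/-- the quadratic form -/
lemma form (h0 : ∀ i, a i ≠ 0) (x : Fin n → ℂ) :
    star x ⬝ᵥ (H a *ᵥ x) =
      ∑ l, (∑ i : Fin n, conj (x i) * a l ^ (i : ℕ)) * (∑ j : Fin n, x j * (a l)⁻¹ ^ (j : ℕ)) := by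
  have h1 : ∀ i j : Fin n, H a i j = ∑ l, a l ^ (i : ℕ) * (a l)⁻¹ ^ (j : ℕ) := by
    intro i j
    show ∑ l, a l ^ ((i : ℤ) - (j : ℤ)) = _
    refine sum_congr rfl fun l _ => ?_
    rw [zpow_sub₀ (h0 l), zpow_natCast, zpow_natCast, inv_pow, div_eq_mul_inv]
  calc star x ⬝ᵥ (H a *ᵥ x) = ∑ i, conj (x i) * ∑ j, H a i j * x j := rfl
    _ = ∑ i, ∑ j, ∑ l, conj (x i) * a l ^ (i : ℕ) * (x j * (a l)⁻¹ ^ (j : ℕ)) := by
      refine sum_congr rfl fun i _ => ?_
      rw [mul_sum]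
      refine sum_congr rfl fun j _ => ?_
      rw [h1, sum_mul, mul_sum]
      refine sum_congr rfl fun l _ => ?_
      ring
    _ = ∑ l, ∑ i, ∑ j, conj (x i) * a l ^ (i : ℕ) * (x j * (a l)⁻¹ ^ (j : ℕ)) := by
      rw [sum_congr rfl fun i _ => sum_comm]
      exact sum_comm
    _ = _ := by
      refine sum_congr rfl fun l _ => ?_
      rw [sum_mul_sum]

lemma ev (P : Polynomial ℂ) (hP : P.natDegree < n) (z : ℂ) :
    ∑ i : Fin n, P.coeff i * z ^ (i : ℕ) = P.eval z := by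
  rw [Polynomial.eval_eq_sum_range' hP, Finset.sum_range]

lemma isotropic (h0 : ∀ i, a i ≠ 0) {σ : Equiv.Perm (Fin n)}
    (hσ : ∀ i, a (σ i) = (conj (a i))⁻¹) (k : Fin n) (hk : ‖a k‖ ≠ 1) :
    ∃ x : Fin n → ℂ, x ≠ 0 ∧ star x ⬝ᵥ (H a *ᵥ x) = 0 := by
  classical
  have hn : 0 < n := k.pos
  set P : Polynomial ℂ := ∏ l ∈ univ.erase k, (Polynomial.X - Polynomial.C (a l)) with hP
  have hmon : P.Monic := Polynomial.monic_prod_of_monic _ _ fun l _ => Polynomial.monic_X_sub_C _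
  have hdeg : P.natDegree < n := by
    rw [hP, Polynomial.natDegree_prod_of_monic _ _ fun l _ => Polynomial.monic_X_sub_C _]
    simp only [Polynomial.natDegree_X_sub_C, sum_const, smul_eq_mul, mul_one]
    rw [card_erase_of_mem (mem_univ _), card_univ, Fintype.card_fin]
    omega
  have hroot : ∀ l, l ≠ k → P.eval (a l) = 0 := by
    intro l hl
    rw [hP, Polynomial.eval_prod]
    refine prod_eq_zero (mem_erase.2 ⟨hl, mem_univ l⟩) ?_
    simp
  have hσk : σ k ≠ k := by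
    intro h
    have h1 := hσ k
    rw [h] at h1
    apply hk
    have h3 : conj (a k) ≠ 0 := by
      rw [Ne, map_eq_zero]
      exact h0 k
    have h2 : a k * conj (a k) = 1 := by
      nth_rewrite 1 [h1]
      exact inv_mul_cancel₀ h3
    rw [Complex.mul_conj, Complex.normSq_eq_norm_sq] at h2
    have h4 : ‖a k‖ ^ 2 = 1 := by exact_mod_cast h2
    exact (pow_eq_one_iff_of_nonneg (norm_nonneg _) two_ne_zero).1 h4
  refine ⟨fun i => conj (P.coeff i), ?_, ?_⟩
  · intro h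
    have h1 := congrFun h ⟨P.natDegree, hdeg⟩
    change conj (P.coeff P.natDegree) = 0 at h1
    rw [map_eq_zero, hmon.coeff_natDegree] at h1
    exact one_ne_zero h1
  · rw [form h0]
    refine sum_eq_zero fun l _ => ?_
    by_cases hl : l = k
    · subst hl
      have h1 : ∑ j : Fin n, conj (P.coeff j) * (a l)⁻¹ ^ (j : ℕ) = conj (P.eval (a (σ l))) := by
        rw [← ev P hdeg, map_sum]
        refine sum_congr rfl fun j _ => ?_
        rw [map_mul, map_pow, hσ, map_inv₀, Complex.conj_conj]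
      rw [h1, hroot _ hσk, map_zero, mul_zero]
    · have h1 : ∑ i : Fin n, conj (conj (P.coeff i)) * a l ^ (i : ℕ) = P.eval (a l) := by
        rw [← ev P hdeg]
        refine sum_congr rfl fun j _ => ?_
        rw [Complex.conj_conj]
      rw [h1, hroot l hl, zero_mul]

end Her

theorem her : S_HER := by
  rintro n a ⟨h0, σ, hσ⟩
  refine ⟨Her.herm hσ, fun hT => ?_⟩
  obtain ⟨k, hk⟩ : ∃ k, ‖a k‖ ≠ 1 := by
    by_contra hcon
    exact hT fun i => by_contra fun h => hcon ⟨i, h⟩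
  by_contra hcon
  have hpos : ∀ i, 0 < (Her.herm hσ).eigenvalues i := fun i =>
    not_le.1 fun h => hcon ⟨i, h⟩
  have hpd := (Her.herm hσ).posDef_iff_eigenvalues_pos.2 hpos
  obtain ⟨x, hx, hx0⟩ := Her.isotropic h0 hσ k hk
  have h1 := (Matrix.posDef_iff_dotProduct_mulVec.1 hpd).2 hx
  rw [hx0] at h1
  exact lt_irrefl _ h1

end Pool.Agent.N846.AT
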