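import Pool.Agent.N846.AT.Stm

/-!
# Project AT: eigenvalues of the Toeplitz matrix of the power sums at a tempered point (helper288)
-/

set_option autoImplicit false

namespace Pool.Agent.N846.AT

open Finset Complex MeasureTheory
open scoped BigOperators ComplexConjugate ComplexOrder

namespace LowX

open Polynomial

/-- the matrix `(a_l ^ i)` -/
noncomputable def V {n : ℕ} (a : Fin n → ℂ) : Matrix (Fin n) (Fin n) ℂ :=
  Matrix.of fun i l => a l ^ (i : ℕ)

theorem H_eq {n : ℕ} {a : Fin n → ℂ} (ha : Tempered a) : H a = V a * (V a).conjTranspose := by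
  ext i j
  rw [Matrix.mul_apply]
  simp only [H, V, Matrix.of_apply, Matrix.conjTranspose_apply, psum]
  refine sum_congr rfl fun l _ => ?_
  have h0 : a l ≠ 0 := by
    intro h
    have := ha l
    rw [h, norm_zero] at this
    exact zero_ne_one this
  rw [zpow_sub₀ h0, zpow_natCast, zpow_natCast, star_pow, div_eq_mul_inv, ← inv_pow]
  congr 2
  rw [Complex.inv_def, Complex.normSq_eq_norm_sq, ha l]
  simp

theorem quad {n : ℕ} (a x : Fin n → ℂ) :
    star x ⬝ᵥ ((V a * (V a).conjTranspose).mulVec x) =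
      ((∑ l, ‖∑ i, star (x i) * a l ^ (i : ℕ)‖ ^ 2 : ℝ) : ℂ) := by
  rw [← Matrix.mulVec_mulVec, Matrix.dotProduct_mulVec]
  unfold dotProduct
  push_cast
  refine sum_congr rfl fun l _ => ?_
  have e1 : Matrix.vecMul (star x) (V a) l = ∑ i, star (x i) * a l ^ (i : ℕ) := by
    simp [Matrix.vecMul, dotProduct, V]
  have e2 : (V a).conjTranspose.mulVec x l = star (∑ i, star (x i) * a l ^ (i : ℕ)) := by
    rw [star_sum]
    simp only [Matrix.mulVec, dotProduct, V, Matrix.conjTranspose_apply, Matrix.of_apply]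
    refine sum_congr rfl fun i _ => ?_
    rw [star_mul, star_star]
  rw [e1, e2]
  exact Complex.mul_conj' _

theorem coeff_bound {n : ℕ} {a : Fin n → ℂ} (ha : Tempered a) (S : Finset (Fin n)) :
    ∀ m : ℕ, ∑ k ∈ range m, ‖(∏ j ∈ S, (X - C (a j))).coeff k‖ ≤ 2 ^ S.card := by
  classical
  induction S using Finset.induction_on with
  | empty =>
    intro m
    simp only [prod_empty, card_empty, pow_zero]
    rcases m with _ | m
    · simp
    · rw [sum_range_succ']
      simp [Polynomial.coeff_one]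
  | insert b S hb ih =>
    intro m
    rw [prod_insert hb, card_insert_of_notMem hb, pow_succ, sub_mul]
    have h1 : ∀ k, ‖(X * ∏ j ∈ S, (X - C (a j)) - C (a b) * ∏ j ∈ S, (X - C (a j))).coeff k‖ ≤
        ‖(X * ∏ j ∈ S, (X - C (a j))).coeff k‖ + ‖(∏ j ∈ S, (X - C (a j))).coeff k‖ := by
      intro k
      rw [coeff_sub, coeff_C_mul]
      refine (norm_sub_le _ _).trans ?_
      rw [norm_mul, ha b, one_mul]
    refine (sum_le_sum fun k _ => h1 k).trans ?_
    rw [sum_add_distrib]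
    have h2 : ∑ k ∈ range m, ‖(X * ∏ j ∈ S, (X - C (a j))).coeff k‖ ≤ 2 ^ S.card := by
      rcases m with _ | m
      · simp
      · rw [sum_range_succ', coeff_X_mul_zero, norm_zero, add_zero]
        simp only [coeff_X_mul]
        exact ih m
    linarith [ih m]

theorem basis_eq {n : ℕ} (a : Fin n → ℂ) (l : Fin n) :
    Lagrange.basis univ a l = C (∏ j ∈ univ.erase l, (a l - a j)⁻¹) *
      ∏ j ∈ univ.erase l, (X - C (a j)) := by
  unfold Lagrange.basis Lagrange.basisDivisor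
  rw [prod_mul_distrib, map_prod]

theorem interp {n : ℕ} {a : Fin n → ℂ} (ha : Tempered a) (hinj : Function.Injective a)
    (y : Fin n → ℂ) : ∑ i, ‖y i‖ ≤ ∑ l, ‖∑ i, y i * a l ^ (i : ℕ)‖ *
      (2 ^ n * ∏ j ∈ univ.erase l, ‖a l - a j‖⁻¹) := by
  classical
  obtain ⟨P, hPd⟩ : ∃ P : Polynomial ℂ, P = ∑ i : Fin n, C (y i) * X ^ (i : ℕ) := ⟨_, rfl⟩
  have hP : ∀ i : Fin n, P.coeff i = y i := by
    intro i
    rw [hPd, finsetSum_coeff, sum_eq_single i]
    · simp
    · intro j _ hj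
      rw [coeff_C_mul, coeff_X_pow, if_neg (fun h => hj (Fin.ext h.symm)), mul_zero]
    · simp
  have hdeg : P.degree < n := by
    rw [hPd]
    refine lt_of_le_of_lt (degree_sum_le _ _) ?_
    rw [Finset.sup_lt_iff (by exact_mod_cast WithBot.bot_lt_coe n)]
    intro i _
    refine lt_of_le_of_lt (degree_C_mul_X_pow_le _ _) ?_
    exact_mod_cast i.2
  have heval : ∀ l, P.eval (a l) = ∑ i, y i * a l ^ (i : ℕ) := by
    intro l
    rw [hPd, eval_finsetSum]
    simp
  have h1 : P = Lagrange.interpolate univ a fun l => P.eval (a l) :=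
    Lagrange.eq_interpolate hinj.injOn (by rw [card_univ, Fintype.card_fin]; exact hdeg)
  rw [Lagrange.interpolate_apply] at h1
  have h2 : ∀ i : Fin n, ‖y i‖ ≤ ∑ l, ‖∑ i, y i * a l ^ (i : ℕ)‖ *
      ((∏ j ∈ univ.erase l, ‖a l - a j‖⁻¹) *
        ‖(∏ j ∈ univ.erase l, (X - C (a j))).coeff i‖) := by
    intro i
    rw [← hP i]
    conv_lhs => rw [h1]
    rw [finsetSum_coeff]
    refine (norm_sum_le _ _).trans (sum_le_sum fun l _ => ?_)
    rw [coeff_C_mul, norm_mul, heval l, basis_eq, coeff_C_mul, norm_mul, norm_prod]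
    simp only [norm_inv]
    exact le_rfl
  refine (sum_le_sum fun i _ => h2 i).trans ?_
  rw [sum_comm]
  refine sum_le_sum fun l _ => ?_
  rw [← mul_sum, ← mul_sum]
  refine mul_le_mul_of_nonneg_left ?_ (norm_nonneg _)
  rw [mul_comm]
  refine mul_le_mul_of_nonneg_right ?_ (prod_nonneg fun j _ => inv_nonneg.2 (norm_nonneg _))
  have h5 := coeff_bound ha (univ.erase l) n
  rw [Finset.sum_range] at h5
  refine h5.trans ?_
  refine pow_le_pow_right₀ (by norm_num) ?_
  refine (card_erase_le).trans ?_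
  rw [card_univ, Fintype.card_fin]

/-- the lower bound -/
theorem lower {n : ℕ} {a : Fin n → ℂ} (ha : Tempered a) (hinj : Function.Injective a)
    (y : Fin n → ℂ) (hy : ∑ i, ‖y i‖ ^ 2 = 1) :
    1 ≤ 4 ^ n * (∑ k, ∏ j ∈ univ.erase k, (‖a k - a j‖ ^ 2)⁻¹) *
      ∑ l, ‖∑ i, y i * a l ^ (i : ℕ)‖ ^ 2 := by
  have h1 : (1 : ℝ) ≤ ∑ i, ‖y i‖ := by
    rw [← hy]
    refine sum_le_sum fun i _ => ?_
    have h2 : ‖y i‖ ^ 2 ≤ 1 := by
      rw [← hy]
      exact single_le_sum (f := fun i => ‖y i‖ ^ 2) (fun j _ => sq_nonneg _) (mem_univ i)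
    have h3 : ‖y i‖ ≤ 1 := by
      by_contra h
      push Not at h
      nlinarith [norm_nonneg (y i)]
    nlinarith [norm_nonneg (y i)]
  have h2 := h1.trans (interp ha hinj y)
  have h3 := sum_mul_sq_le_sq_mul_sq univ (fun l => ‖∑ i, y i * a l ^ (i : ℕ)‖)
    (fun l => 2 ^ n * ∏ j ∈ univ.erase l, ‖a l - a j‖⁻¹)
  have h4 : (1 : ℝ) ≤ (∑ l, ‖∑ i, y i * a l ^ (i : ℕ)‖ *
      (2 ^ n * ∏ j ∈ univ.erase l, ‖a l - a j‖⁻¹)) ^ 2 := one_le_pow₀ h2
  have h5 := h4.trans h3
  refine h5.trans (le_of_eq ?_)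
  rw [mul_comm]
  congr 1
  rw [mul_sum]
  refine sum_congr rfl fun l _ => ?_
  rw [mul_pow, ← prod_pow, ← pow_mul, mul_comm n 2, pow_mul]
  norm_num

end LowX

open LowX

theorem low : S_LOW := by
  intro n a ha h i
  have hps : (H a).PosSemidef := by
    rw [H_eq ha]
    exact Matrix.posSemidef_self_mul_conjTranspose _
  have h0 : ∀ i, 0 ≤ h.eigenvalues i := hps.eigenvalues_nonneg
  refine ⟨h0 i, ?_, fun hinj => ?_⟩
  · have h1 : (H a).trace = ((n : ℂ)) ^ 2 := by
      simp [Matrix.trace, H, psum, sq]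
    have h2 := h.trace_eq_sum_eigenvalues
    rw [h1] at h2
    have h3 : ((n : ℝ)) ^ 2 = ∑ i, h.eigenvalues i := by
      have h4 : (((n : ℝ) ^ 2 : ℝ) : ℂ) = ((∑ i, h.eigenvalues i : ℝ) : ℂ) := by
        push_cast
        exact h2
      exact Complex.ofReal_injective h4
    rw [h3]
    exact single_le_sum (f := fun i => h.eigenvalues i) (fun j _ => h0 j) (mem_univ i)
  · have h1 := h.eigenvalues_eq i
    have h2 : ∑ l, ‖star (h.eigenvectorBasis i l)‖ ^ 2 = 1 := by
      simp only [norm_star]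
      rw [← EuclideanSpace.norm_sq_eq, h.eigenvectorBasis.orthonormal.1 i, one_pow]
    have h3 := lower ha hinj _ h2
    have h4 := quad a (h.eigenvectorBasis i)
    rw [← H_eq ha] at h4
    rw [h1, h4]
    exact h3

end Pool.Agent.N846.AT
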