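import Pool.Agent.N846.AT.Avg

set_option autoImplicit false

namespace Pool.Agent.N846.AT

open Finset Complex MeasureTheory
open scoped BigOperators ComplexConjugate

/-- the leaves together -/
structure Leaves : Prop where
  her : S_HER
  pow : S_POW
  wrd : S_WRD
  che : S_CHE
  low : S_LOW
  star : S_STAR
  mass_pos : S_MASS
  den : S_DEN

namespace Main

/-- `T ^ (-δ)` against powers of `log T` -/
lemma pow_log (δ r : ℝ) (hδ : 0 < δ) (hr : 0 < r) : ∃ C : ℝ, 0 < C ∧ ∀ T : ℝ, 2 ≤ T →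
    T ^ (-δ) ≤ C * (Real.log T) ^ (-r) := by
  refine ⟨(r / δ) ^ r, by positivity, fun T hT => ?_⟩
  have hT0 : 0 < T := by linarith
  have hl : 0 < Real.log T := Real.log_pos (by linarith)
  have h1 := Real.log_le_rpow_div hT0.le (ε := δ / r) (by positivity)
  have h2 : (Real.log T) ^ r ≤ (T ^ (δ / r) / (δ / r)) ^ r := Real.rpow_le_rpow hl.le h1 hr.le
  have h3 : (T ^ (δ / r) / (δ / r)) ^ r = T ^ δ * (r / δ) ^ r := by
    rw [Real.div_rpow (by positivity) (by positivity), ← Real.rpow_mul hT0.le,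
      div_mul_cancel₀ _ hr.ne', div_eq_mul_inv, ← Real.inv_rpow (by positivity), inv_div]
  rw [h3] at h2
  rw [Real.rpow_neg hT0.le, Real.rpow_neg hl.le, ← div_eq_mul_inv, inv_eq_one_div,
    div_le_div_iff₀ (by positivity) (by positivity)]
  linarith

theorem main (S : Leaves) {n : ℕ} (hn : 1 ≤ n) {ε : ℝ} (he0 : 0 < ε) (he1 : ε ≤ 1) {η A C₀ : ℝ}
    (hη : 0 < η) (hA : 0 ≤ A) (hC₀ : 0 ≤ C₀) :
    ∃ C : ℝ, 0 < C ∧ ∀ (Form : Type) (F : Finset Form) (α : Form → Fin n → ℂ),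
      (∀ φ ∈ F, Unitary (α φ)) → ∀ q T : ℝ, 2 ≤ q → 2 ≤ T →
      (∀ w : List ℤ, w.sum = 0 →
        ‖∑ φ ∈ F, word (α φ) w - (F.card : ℂ) * pl q (fun a : Fin n → ℂ => word a w)‖ ≤
          C₀ * (n : ℝ) ^ w.length * q ^ (A * (w.map (fun m => (m.natAbs : ℕ))).sum) *
            T ^ (-η) * F.card) →
      ∀ G : Finset Form, G ⊆ F → (∀ φ ∈ G, ¬ Tempered (α φ)) →
        (G.card : ℝ) ≤ C * (Real.log q / Real.log T) ^ (3 - ε) * F.card := by
  obtain ⟨C₁, hC₁, havg⟩ := Avg.avg S.her S.pow S.wrd S.che S.low S.den S.mass_pos S.star hn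
    (s := 1 - ε) (by linarith) (by linarith)
  obtain ⟨C₂, hC₂, hlog⟩ := pow_log (η / 2) (3 - ε) (by positivity) (by linarith)
  obtain ⟨B, hB⟩ : ∃ B : ℝ, B = 2 * A * n + 10 + 4 * n := ⟨_, rfl⟩
  have hBpos : 0 < B := by rw [hB]; positivity
  have hrr : (0 : ℝ) < 3 - ε := by linarith
  refine ⟨C₁ * (4 * B / η) ^ (3 - ε) + C₀ * n * C₂ * (1 / Real.log 2) ^ (3 - ε) +
    (2 * B / η) ^ (3 - ε), by positivity, fun Form F α hU q T hq hT hEQ G hG hnt => ?_⟩
  have hq0 : 0 < q := by linarith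
  have hT0 : 0 < T := by linarith
  have hlq : 0 < Real.log q := Real.log_pos (by linarith)
  have hlT : 0 < Real.log T := Real.log_pos (by linarith)
  have hl2 : 0 < Real.log 2 := Real.log_pos (by norm_num)
  have hFc : (0 : ℝ) ≤ F.card := by positivity
  obtain ⟨y, hy⟩ : ∃ y, y = Real.log q / Real.log T := ⟨_, rfl⟩
  have hy0 : 0 < y := by rw [hy]; positivity
  rw [← hy]
  have hyr : 0 < y ^ (3 - ε) := Real.rpow_pos_of_pos hy0 _
  have ht1 : 0 ≤ C₁ * (4 * B / η) ^ (3 - ε) := by positivity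
  have ht2 : 0 ≤ C₀ * n * C₂ * (1 / Real.log 2) ^ (3 - ε) := by positivity
  have ht3 : 0 ≤ (2 * B / η) ^ (3 - ε) := by positivity
  by_cases hΛ : η / (2 * B * y) < 1
  · -- the trivial range
    have h1 : 1 ≤ (2 * B / η) * y := by
      rw [div_lt_one (by positivity)] at hΛ
      rw [div_mul_eq_mul_div, le_div_iff₀ hη]
      linarith
    have h2 : 1 ≤ (2 * B / η) ^ (3 - ε) * y ^ (3 - ε) := by
      rw [← Real.mul_rpow (by positivity) hy0.le]
      exact Real.one_le_rpow h1 hrr.le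
    have h3 : (G.card : ℝ) ≤ F.card := by exact_mod_cast card_le_card hG
    calc (G.card : ℝ) ≤ 1 * F.card := by linarith
      _ ≤ ((2 * B / η) ^ (3 - ε) * y ^ (3 - ε)) * F.card := mul_le_mul_of_nonneg_right h2 hFc
      _ ≤ (C₁ * (4 * B / η) ^ (3 - ε) + C₀ * n * C₂ * (1 / Real.log 2) ^ (3 - ε) +
          (2 * B / η) ^ (3 - ε)) * y ^ (3 - ε) * F.card := by
          refine mul_le_mul_of_nonneg_right ?_ hFc
          exact mul_le_mul_of_nonneg_right (by linarith) hyr.le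
  · -- the main range
    have hΛ' : 1 ≤ η / (2 * B * y) := not_lt.1 hΛ
    obtain ⟨Λ, hΛe⟩ : ∃ Λ, Λ = η / (2 * B * y) := ⟨_, rfl⟩
    rw [← hΛe] at hΛ'
    obtain ⟨K, hK⟩ : ∃ K, K = ⌊Λ⌋₊ := ⟨_, rfl⟩
    have hK1 : 1 ≤ K := by rw [hK]; exact Nat.one_le_floor_iff _ |>.2 hΛ'
    have hKle : (K : ℝ) ≤ Λ := by rw [hK]; exact Nat.floor_le (by linarith)
    have hKge : Λ / 2 ≤ K := by
      have h1 : Λ < K + 1 := by rw [hK]; exact Nat.lt_floor_add_one _
      have h2 : (1 : ℝ) ≤ K := by exact_mod_cast hK1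
      linarith
    have hE := havg Form F α hU q hq (C₀ * T ^ (-η) * F.card) A (by positivity) hA
      (fun w hw => (hEQ w hw).trans (le_of_eq (by ring))) K hK1 G hG hnt
    have hΛ0 : 0 < Λ := by linarith
    have hKr : (K : ℝ) ^ (-(2 + (1 - ε))) ≤ (4 * B / η) ^ (3 - ε) * y ^ (3 - ε) := by
      have h1 : -(2 + (1 - ε)) = -(3 - ε) := by ring
      rw [h1]
      calc (K : ℝ) ^ (-(3 - ε)) ≤ (Λ / 2) ^ (-(3 - ε)) :=
            Real.rpow_le_rpow_of_nonpos (by positivity) hKge (by linarith)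
        _ = (4 * B / η * y) ^ (3 - ε) := by
            rw [Real.rpow_neg (by positivity), ← Real.inv_rpow (by positivity), hΛe]
            congr 1
            field_simp
            ring
        _ = (4 * B / η) ^ (3 - ε) * y ^ (3 - ε) := Real.mul_rpow (by positivity) hy0.le
    have hpow : q ^ ((2 * A * n + 10 + 4 * n) * K) ≤ T ^ (η / 2) := by
      rw [← hB, Real.rpow_def_of_pos hq0, Real.rpow_def_of_pos hT0]
      refine Real.exp_le_exp.2 ?_
      have h1 : B * K ≤ B * Λ := mul_le_mul_of_nonneg_left hKle hBpos.le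
      have h2 : Real.log q * (B * Λ) = Real.log T * (η / 2) := by
        rw [hΛe, hy]
        field_simp
      calc Real.log q * (B * K) ≤ Real.log q * (B * Λ) := mul_le_mul_of_nonneg_left h1 hlq.le
        _ = Real.log T * (η / 2) := h2
    have hTT : T ^ (-η) * T ^ (η / 2) = T ^ (-(η / 2)) := by
      rw [← Real.rpow_add hT0]
      congr 1
      ring
    have hlogT : T ^ (-(η / 2)) ≤ C₂ * (1 / Real.log 2) ^ (3 - ε) * y ^ (3 - ε) := by
      refine (hlog T hT).trans ?_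
      rw [mul_assoc]
      refine mul_le_mul_of_nonneg_left ?_ hC₂.le
      rw [← Real.mul_rpow (by positivity) hy0.le, Real.rpow_neg hlT.le, ← Real.inv_rpow hlT.le]
      refine Real.rpow_le_rpow (by positivity) ?_ hrr.le
      rw [hy, inv_eq_one_div, div_mul_div_comm, one_mul, div_le_div_iff₀ hlT (by positivity)]
      have : Real.log 2 ≤ Real.log q := Real.log_le_log (by norm_num) hq
      nlinarith
    calc (G.card : ℝ) ≤ C₁ * (K : ℝ) ^ (-(2 + (1 - ε))) * F.card +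
          C₀ * T ^ (-η) * F.card * n * q ^ ((2 * A * n + 10 + 4 * n) * K) := hE
      _ ≤ C₁ * ((4 * B / η) ^ (3 - ε) * y ^ (3 - ε)) * F.card +
          C₀ * T ^ (-η) * F.card * n * T ^ (η / 2) := by
          refine add_le_add ?_ ?_
          · exact mul_le_mul_of_nonneg_right (mul_le_mul_of_nonneg_left hKr hC₁.le) hFc
          · exact mul_le_mul_of_nonneg_left hpow (by positivity)
      _ = C₁ * ((4 * B / η) ^ (3 - ε) * y ^ (3 - ε)) * F.card +
          C₀ * n * (T ^ (-η) * T ^ (η / 2)) * F.card := by ring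
      _ ≤ C₁ * ((4 * B / η) ^ (3 - ε) * y ^ (3 - ε)) * F.card +
          C₀ * n * (C₂ * (1 / Real.log 2) ^ (3 - ε) * y ^ (3 - ε)) * F.card := by
          rw [hTT]
          have : C₀ * n * T ^ (-(η / 2)) ≤ C₀ * n * (C₂ * (1 / Real.log 2) ^ (3 - ε) * y ^ (3 - ε)) :=
            mul_le_mul_of_nonneg_left hlogT (by positivity)
          have := mul_le_mul_of_nonneg_right this hFc
          linarith
      _ ≤ (C₁ * (4 * B / η) ^ (3 - ε) + C₀ * n * C₂ * (1 / Real.log 2) ^ (3 - ε) +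
          (2 * B / η) ^ (3 - ε)) * y ^ (3 - ε) * F.card := by
          have : 0 ≤ (2 * B / η) ^ (3 - ε) * y ^ (3 - ε) * F.card := by positivity
          nlinarith

end Main

end Pool.Agent.N846.AT
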