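import Pool.Agent.N846.AT.Stm

set_option autoImplicit false

namespace Pool.Agent.N846.AT

open Finset Complex MeasureTheory
open scoped BigOperators ComplexConjugate

namespace Mean

lemma norm_pt {n : ℕ} (θ : Fin n → ℝ) (j : Fin n) : ‖pt θ j‖ = 1 := by
  unfold pt
  have : (2 * (Real.pi : ℂ) * (θ j : ℂ) * Complex.I) = ((2 * Real.pi * θ j : ℝ) : ℂ) * Complex.I := by
    push_cast; ring
  rw [this, Complex.norm_exp_ofReal_mul_I]

lemma tempered_pt {n : ℕ} (θ : Fin n → ℝ) : Tempered (pt θ) := fun j => norm_pt θ j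

lemma unitary_of_tempered {n : ℕ} (a : Fin n → ℂ) (h : Tempered a) : Unitary a := by
  refine ⟨fun i hi => ?_, Equiv.refl _, fun i => ?_⟩
  · have := h i
    rw [hi] at this
    simp at this
  · have hi := h i
    have hne : conj (a i) ≠ 0 := by
      intro h0
      have : a i = 0 := by simpa using h0
      rw [this] at hi
      simp at hi
    rw [Equiv.refl_apply]
    refine eq_inv_of_mul_eq_one_left ?_
    rw [Complex.mul_conj, Complex.normSq_eq_norm_sq, hi]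
    simp

/-- squared product over the pairs -/
lemma pair_bound {n : ℕ} (g : Fin n → Fin n → ℝ) (h0 : ∀ i j, 0 ≤ g i j) (h4 : ∀ i j, g i j ≤ 4)
    (hs : ∀ i j, g i j = g j i) (k : Fin n) :
    ∏ i : Fin n, ∏ j ∈ univ.filter (fun j => i < j), g i j ≤
      4 ^ (n ^ 2) * ∏ j ∈ univ.erase k, g k j := by
  have hA : (∏ i : Fin n, ∏ j ∈ univ.filter (fun j => i < j), g i j) ^ 2 =
      ∏ i : Fin n, ∏ j ∈ univ.erase i, g i j := by
    have h1 := Finset.prod_prod_Ioi_mul_eq_prod_prod_off_diag (fun i j : Fin n => g i j)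
    have h2 : ∀ i : Fin n, Ioi i = univ.filter (fun j => i < j) := by
      intro i; ext j; simp
    have h3 : ∀ i : Fin n, ({i}ᶜ : Finset (Fin n)) = univ.erase i := by
      intro i; ext j; simp
    have h4' : ∏ i : Fin n, ∏ j ∈ univ.erase i, g i j = ∏ i : Fin n, ∏ j ∈ ({i}ᶜ : Finset (Fin n)), g j i := by
      refine prod_congr rfl fun i _ => ?_
      rw [h3]
      exact prod_congr rfl fun j _ => hs i j
    rw [h4', ← h1, sq, ← prod_mul_distrib]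
    refine prod_congr rfl fun i _ => ?_
    rw [h2, ← prod_mul_distrib]
    refine prod_congr rfl fun j _ => ?_
    rw [hs j i]
  have hB : ∏ i : Fin n, ∏ j ∈ univ.erase i, g i j ≤
      (4 ^ (n ^ 2) * ∏ j ∈ univ.erase k, g k j) ^ 2 := by
    rw [← mul_prod_erase univ _ (mem_univ k)]
    have hC : ∏ i ∈ univ.erase k, ∏ j ∈ univ.erase i, g i j ≤
        ∏ i ∈ univ.erase k, (g k i * 4 ^ n) := by
      refine prod_le_prod (fun i _ => prod_nonneg fun j _ => h0 i j) fun i hi => ?_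
      have hk : k ∈ univ.erase i := by
        rw [mem_erase] at hi ⊢
        exact ⟨fun h => hi.1 h.symm, mem_univ k⟩
      rw [← mul_prod_erase _ _ hk, hs i k]
      refine mul_le_mul_of_nonneg_left ?_ (h0 k i)
      calc ∏ x ∈ (univ.erase i).erase k, g i x ≤ ∏ x ∈ (univ.erase i).erase k, (4 : ℝ) :=
            prod_le_prod (fun j _ => h0 i j) fun j _ => h4 i j
        _ = 4 ^ ((univ.erase i).erase k).card := by rw [prod_const]
        _ ≤ 4 ^ n := by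
            refine pow_le_pow_right₀ (by norm_num) ?_
            calc ((univ.erase i).erase k).card ≤ (univ : Finset (Fin n)).card :=
                  card_le_card ((erase_subset _ _).trans (erase_subset _ _))
              _ = n := by simp
    have hD : ∏ i ∈ univ.erase k, (g k i * 4 ^ n) =
        (∏ i ∈ univ.erase k, g k i) * (4 ^ n) ^ ((univ : Finset (Fin n)).erase k).card := by
      rw [prod_mul_distrib, prod_const]
    have hP : 0 ≤ ∏ j ∈ univ.erase k, g k j := prod_nonneg fun j _ => h0 k j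
    have hE : ((4 : ℝ) ^ n) ^ ((univ : Finset (Fin n)).erase k).card ≤ (4 ^ (n ^ 2)) ^ 2 := by
      have : ((univ : Finset (Fin n)).erase k).card ≤ n := by
        calc _ ≤ (univ : Finset (Fin n)).card := card_le_card (erase_subset _ _)
          _ = n := by simp
      calc ((4 : ℝ) ^ n) ^ ((univ : Finset (Fin n)).erase k).card ≤ ((4 : ℝ) ^ n) ^ n :=
            pow_le_pow_right₀ (one_le_pow₀ (by norm_num)) this
        _ = 4 ^ (n ^ 2) := by rw [← pow_mul, sq]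
        _ ≤ (4 ^ (n ^ 2)) ^ 2 := by
            have h1 : (1 : ℝ) ≤ 4 ^ (n ^ 2) := one_le_pow₀ (by norm_num)
            nlinarith
    calc (∏ j ∈ univ.erase k, g k j) * ∏ i ∈ univ.erase k, ∏ j ∈ univ.erase i, g i j
        ≤ (∏ j ∈ univ.erase k, g k j) * ((∏ i ∈ univ.erase k, g k i) *
            (4 ^ n) ^ ((univ : Finset (Fin n)).erase k).card) := by
          rw [← hD]
          exact mul_le_mul_of_nonneg_left hC hP
      _ ≤ (∏ j ∈ univ.erase k, g k j) * ((∏ i ∈ univ.erase k, g k i) * (4 ^ (n ^ 2)) ^ 2) := by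
          exact mul_le_mul_of_nonneg_left (mul_le_mul_of_nonneg_left hE hP) hP
      _ = (4 ^ (n ^ 2) * ∏ j ∈ univ.erase k, g k j) ^ 2 := by ring
  have hP : 0 ≤ ∏ j ∈ univ.erase k, g k j := prod_nonneg fun j _ => h0 k j
  exact le_of_sq_le_sq₀ (hA ▸ hB) (by positivity)
where
  le_of_sq_le_sq₀ {x y : ℝ} (h : x ^ 2 ≤ y ^ 2) (hy : 0 ≤ y) : x ≤ y := abs_le_of_sq_le_sq' h hy |>.2

/-- the trace of `Q (H a)` -/
noncomputable def trQ {n : ℕ} (K : ℕ) (Q : Polynomial ℝ) (a : Fin n → ℂ) : ℂ :=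
  ∑ r ∈ range (2 * K + 1), (Q.coeff r : ℂ) * ((H a) ^ r).trace

lemma trQ_eq (hP : S_POW) {n K : ℕ} {Q : Polynomial ℝ} (hQ : Q.natDegree ≤ 2 * K) {a : Fin n → ℂ}
    (h : (H a).IsHermitian) : trQ K Q a = ((∑ i, Q.eval (h.eigenvalues i) : ℝ) : ℂ) := by
  unfold trQ
  have h1 : ∀ x : ℝ, Q.eval x = ∑ r ∈ range (2 * K + 1), Q.coeff r * x ^ r := fun x =>
    Polynomial.eval_eq_sum_range' (by omega) x
  simp_rw [h1, hP n (H a) h]
  push_cast
  rw [sum_comm]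
  refine sum_congr rfl fun r _ => ?_
  rw [mul_sum]

/-- elementary -/
lemma min_bound {z Y t : ℝ} (hY : 0 ≤ Y) (h1 : z ≤ 1) (h2 : z ≤ Y ^ 2) (ht0 : 0 ≤ t) (ht : t ≤ 2) :
    z ≤ Y ^ t := by
  rcases le_total Y 1 with h | h
  · rcases hY.eq_or_lt with h0 | h0
    · rw [← h0] at h2 ⊢
      have : z ≤ 0 := by simpa using h2
      exact this.trans (Real.rpow_nonneg le_rfl _)
    · refine h2.trans ?_
      rw [← Real.rpow_natCast Y 2]
      exact Real.rpow_le_rpow_of_exponent_ge h0 h (by simpa using ht)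
  · exact h1.trans (Real.one_le_rpow h ht0)

/-- power of a sum -/
lemma sum_rpow_le {n : ℕ} (R : Fin n → ℝ) (hR : ∀ k, 0 ≤ R k) {t : ℝ} (ht : 0 < t) :
    (∑ k, R k) ^ t ≤ (n : ℝ) ^ t * ∑ k, (R k) ^ t := by
  rcases n.eq_zero_or_pos with h0 | h0
  · subst h0
    simp [Real.zero_rpow ht.ne']
  · obtain ⟨m, -, hm⟩ := exists_max_image (univ : Finset (Fin n)) R ⟨⟨0, h0⟩, mem_univ _⟩
    have h1 : ∑ k, R k ≤ n * R m := by
      calc ∑ k, R k ≤ ∑ _k : Fin n, R m := sum_le_sum fun k _ => hm k (mem_univ k)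
        _ = n * R m := by simp
    calc (∑ k, R k) ^ t ≤ (n * R m) ^ t :=
          Real.rpow_le_rpow (sum_nonneg fun k _ => hR k) h1 ht.le
      _ = (n : ℝ) ^ t * (R m) ^ t := Real.mul_rpow (by positivity) (hR m)
      _ ≤ (n : ℝ) ^ t * ∑ k, (R k) ^ t := by
          refine mul_le_mul_of_nonneg_left ?_ (by positivity)
          exact single_le_sum (f := fun k => (R k) ^ t)
            (fun k _ => Real.rpow_nonneg (hR k) t) (mem_univ m)

/-- the star product with its density -/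
lemma star_density {n : ℕ} (θ : Fin n → ℝ) (k : Fin n) (s : ℝ)
    (hinj : Function.Injective (pt θ)) :
    (∏ j ∈ univ.erase k, (‖pt θ k - pt θ j‖ ^ 2)⁻¹) ^ (1 + s / 2) *
      ∏ i : Fin n, ∏ j ∈ univ.filter (fun j => i < j), ‖pt θ i - pt θ j‖ ^ 2 ≤
      4 ^ (n ^ 2) * ∏ j ∈ univ.erase k, ‖pt θ k - pt θ j‖ ^ (-s) := by
  have h1 := pair_bound (fun i j => ‖pt θ i - pt θ j‖ ^ 2) (fun i j => by positivity)
    (fun i j => by
      have : ‖pt θ i - pt θ j‖ ≤ 2 := by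
        calc ‖pt θ i - pt θ j‖ ≤ ‖pt θ i‖ + ‖pt θ j‖ := norm_sub_le _ _
          _ = 2 := by rw [norm_pt, norm_pt]; norm_num
      nlinarith [norm_nonneg (pt θ i - pt θ j)])
    (fun i j => by rw [norm_sub_rev]) k
  have hpos : ∀ j ∈ univ.erase k, 0 < ‖pt θ k - pt θ j‖ := by
    intro j hj
    rw [norm_pos_iff, sub_ne_zero]
    intro h
    exact (mem_erase.1 hj).1 (hinj h).symm
  have h2 : (∏ j ∈ univ.erase k, (‖pt θ k - pt θ j‖ ^ 2)⁻¹) ^ (1 + s / 2) =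
      ∏ j ∈ univ.erase k, ((‖pt θ k - pt θ j‖ ^ 2)⁻¹) ^ (1 + s / 2) := by
    rw [Real.finsetProd_rpow]
    intro j _
    positivity
  rw [h2]
  calc (∏ j ∈ univ.erase k, ((‖pt θ k - pt θ j‖ ^ 2)⁻¹) ^ (1 + s / 2)) *
        ∏ i : Fin n, ∏ j ∈ univ.filter (fun j => i < j), ‖pt θ i - pt θ j‖ ^ 2
      ≤ (∏ j ∈ univ.erase k, ((‖pt θ k - pt θ j‖ ^ 2)⁻¹) ^ (1 + s / 2)) *
        (4 ^ (n ^ 2) * ∏ j ∈ univ.erase k, ‖pt θ k - pt θ j‖ ^ 2) :=
        mul_le_mul_of_nonneg_left h1 (prod_nonneg fun j _ => Real.rpow_nonneg (by positivity) _)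
    _ = 4 ^ (n ^ 2) * ∏ j ∈ univ.erase k,
        (((‖pt θ k - pt θ j‖ ^ 2)⁻¹) ^ (1 + s / 2) * ‖pt θ k - pt θ j‖ ^ 2) := by
        rw [prod_mul_distrib]; ring
    _ = 4 ^ (n ^ 2) * ∏ j ∈ univ.erase k, ‖pt θ k - pt θ j‖ ^ (-s) := by
        congr 1
        refine prod_congr rfl fun j hj => ?_
        have hp := hpos j hj
        rw [← Real.rpow_natCast _ 2, ← Real.rpow_neg hp.le, ← Real.rpow_mul hp.le,
          ← Real.rpow_add hp]
        congr 1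
        push_cast
        ring

/-- the properties of the polynomials used below -/
def Good (n K : ℕ) (Q : Polynomial ℝ) : Prop :=
  Q.natDegree ≤ 2 * K ∧ (∀ x : ℝ, 0 ≤ Q.eval x) ∧
  (∀ x : ℝ, 0 ≤ x → x ≤ (n : ℝ) ^ 2 → Q.eval x ≤ 1) ∧
  (∀ x : ℝ, 0 < x → x ≤ (n : ℝ) ^ 2 → Q.eval x ≤ 18 * (n : ℝ) ^ 4 / ((K : ℝ) ^ 2 * x) ^ 2)

/-- the values of `Q` at the eigenvalues -/
lemma eig_bound (hL : S_LOW) {n K : ℕ} (hn : 1 ≤ n) (hK : 1 ≤ K) {Q : Polynomial ℝ}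
    (hQ : Good n K Q) {a : Fin n → ℂ} (ha : Tempered a) (hinj : Function.Injective a)
    (h : (H a).IsHermitian) (i : Fin n) {t : ℝ} (ht0 : 0 ≤ t) (ht : t ≤ 2) :
    Q.eval (h.eigenvalues i) ≤ (5 * (n : ℝ) ^ 2 * 4 ^ n *
      (∑ k, ∏ j ∈ univ.erase k, (‖a k - a j‖ ^ 2)⁻¹) / (K : ℝ) ^ 2) ^ t := by
  obtain ⟨h1, h2, h3⟩ := hL n a ha h i
  have h4 := h3 hinj
  obtain ⟨R, hR⟩ : ∃ R, R = ∑ k, ∏ j ∈ univ.erase k, (‖a k - a j‖ ^ 2)⁻¹ := ⟨_, rfl⟩
  obtain ⟨x, hx⟩ : ∃ x, x = h.eigenvalues i := ⟨_, rfl⟩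
  rw [← hR] at h4 ⊢
  rw [← hx] at h1 h2 h4 ⊢
  have hR0 : 0 ≤ R := by
    rw [hR]
    exact sum_nonneg fun k _ => prod_nonneg fun j _ => by positivity
  have hx0 : 0 < x := by
    rcases h1.eq_or_lt with h0 | h0
    · rw [← h0] at h4
      norm_num at h4
    · exact h0
  have hKp : (0 : ℝ) < K := by exact_mod_cast hK
  have hnp : (0 : ℝ) < n := by exact_mod_cast hn
  have hY : 0 ≤ 5 * (n : ℝ) ^ 2 * 4 ^ n * R / (K : ℝ) ^ 2 := by positivity
  refine min_bound hY (hQ.2.2.1 x h1 h2) ?_ ht0 ht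
  refine (hQ.2.2.2 x hx0 h2).trans ?_
  have hinv : 1 / x ≤ 4 ^ n * R := by
    rw [div_le_iff₀ hx0]
    exact h4
  have hinv0 : 0 ≤ 1 / x := by positivity
  have e1 : 18 * (n : ℝ) ^ 4 / ((K : ℝ) ^ 2 * x) ^ 2 = 18 * (n : ℝ) ^ 4 / (K : ℝ) ^ 4 * (1 / x) ^ 2 := by
    field_simp
  have e2 : (5 * (n : ℝ) ^ 2 * 4 ^ n * R / (K : ℝ) ^ 2) ^ 2 =
      25 * (n : ℝ) ^ 4 / (K : ℝ) ^ 4 * (4 ^ n * R) ^ 2 := by
    field_simp
    ring
  rw [e1, e2]
  have h5 : (1 / x) ^ 2 ≤ (4 ^ n * R) ^ 2 := pow_le_pow_left₀ hinv0 hinv 2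
  have h6 : 18 * (n : ℝ) ^ 4 / (K : ℝ) ^ 4 ≤ 25 * (n : ℝ) ^ 4 / (K : ℝ) ^ 4 := by
    gcongr
    norm_num
  exact mul_le_mul h6 h5 (by positivity) (by positivity)

/-- the constant -/
noncomputable def Cst (n : ℕ) (s : ℝ) : ℝ :=
  n * (5 * (n : ℝ) ^ 2 * 4 ^ n) ^ (1 + s / 2) * 4 ^ (n ^ 2) * (n : ℝ) ^ (1 + s / 2) * 4 ^ (n ^ 2)

/-- the pointwise bound -/
lemma point_bound (hH : S_HER) (hP : S_POW) (hL : S_LOW) (hD : S_DEN) {n K : ℕ} (hn : 1 ≤ n)
    (hK : 1 ≤ K) {s : ℝ} (hs0 : 0 ≤ s) (hs1 : s < 1) {Q : Polynomial ℝ} (hQ : Good n K Q)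
    {q : ℝ} (hq : 2 ≤ q) (θ : Fin n → ℝ) :
    ‖trQ K Q (pt θ) * (dens q θ : ℂ)‖ ≤ Cst n s * (K : ℝ) ^ (-(2 + s)) *
      ∑ k, ∏ j ∈ univ.erase k, ‖pt θ k - pt θ j‖ ^ (-s) := by
  obtain ⟨h, -⟩ := hH n (pt θ) (unitary_of_tempered _ (tempered_pt θ))
  obtain ⟨hd0, hd1⟩ := (hD n q hq).2 θ
  have hKp : (0 : ℝ) < K := by exact_mod_cast hK
  have hnp : (0 : ℝ) < n := by exact_mod_cast hn
  have hrhs : 0 ≤ ∑ k, ∏ j ∈ univ.erase k, ‖pt θ k - pt θ j‖ ^ (-s) :=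
    sum_nonneg fun k _ => prod_nonneg fun j _ => Real.rpow_nonneg (norm_nonneg _) _
  have hC0 : 0 ≤ Cst n s := by unfold Cst; positivity
  by_cases hinj : Function.Injective (pt θ)
  swap
  · have hz : dens q θ = 0 := by
      refine le_antisymm (hd1.trans ?_) hd0
      have : ∏ i : Fin n, ∏ j ∈ univ.filter (fun j => i < j), ‖pt θ i - pt θ j‖ ^ 2 = 0 := by
        simp only [Function.Injective] at hinj
        push Not at hinj
        obtain ⟨i, j, hij, hne⟩ := hinj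
        rcases lt_or_gt_of_ne hne with hlt | hlt
        · refine prod_eq_zero (mem_univ i) (prod_eq_zero (i := j) ?_ ?_)
          · simp [hlt]
          · rw [hij]; simp
        · refine prod_eq_zero (mem_univ j) (prod_eq_zero (i := i) ?_ ?_)
          · simp [hlt]
          · rw [hij]; simp
      rw [this, mul_zero]
    rw [hz]
    simp only [ofReal_zero, mul_zero, norm_zero]
    positivity
  · rw [trQ_eq hP hQ.1 h, ← ofReal_mul, Complex.norm_real]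
    have hS0 : 0 ≤ ∑ i, Q.eval (h.eigenvalues i) := sum_nonneg fun i _ => hQ.2.1 _
    rw [Real.norm_of_nonneg (mul_nonneg hS0 hd0)]
    obtain ⟨t, htt⟩ : ∃ t, t = 1 + s / 2 := ⟨_, rfl⟩
    obtain ⟨R, hR⟩ : ∃ R : Fin n → ℝ, R = fun k => ∏ j ∈ univ.erase k, (‖pt θ k - pt θ j‖ ^ 2)⁻¹ :=
      ⟨_, rfl⟩
    obtain ⟨V, hV⟩ : ∃ V, V = ∏ i : Fin n, ∏ j ∈ univ.filter (fun j => i < j), ‖pt θ i - pt θ j‖ ^ 2 :=
      ⟨_, rfl⟩
    have hR0 : ∀ k, 0 ≤ R k := by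
      intro k
      rw [hR]
      exact prod_nonneg fun j _ => by positivity
    have hV0 : 0 ≤ V := by
      rw [hV]
      exact prod_nonneg fun i _ => prod_nonneg fun j _ => by positivity
    rw [← hV] at hd1
    have hsum0 : 0 ≤ ∑ k, R k := sum_nonneg fun k _ => hR0 k
    have h1 : ∑ i, Q.eval (h.eigenvalues i) ≤
        n * (5 * (n : ℝ) ^ 2 * 4 ^ n * (∑ k, R k) / (K : ℝ) ^ 2) ^ t := by
      calc ∑ i, Q.eval (h.eigenvalues i)
          ≤ ∑ _i : Fin n, (5 * (n : ℝ) ^ 2 * 4 ^ n * (∑ k, R k) / (K : ℝ) ^ 2) ^ t := by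
            refine sum_le_sum fun i _ => ?_
            rw [hR]
            exact eig_bound hL hn hK hQ (tempered_pt θ) hinj h i (by linarith) (by linarith)
        _ = n * (5 * (n : ℝ) ^ 2 * 4 ^ n * (∑ k, R k) / (K : ℝ) ^ 2) ^ t := by simp
    have h2 : (5 * (n : ℝ) ^ 2 * 4 ^ n * (∑ k, R k) / (K : ℝ) ^ 2) ^ t =
        (5 * (n : ℝ) ^ 2 * 4 ^ n) ^ t * (∑ k, R k) ^ t * (K : ℝ) ^ (-(2 + s)) := by
      rw [Real.div_rpow (by positivity) (by positivity), Real.mul_rpow (by positivity) hsum0,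
        div_eq_mul_inv]
      congr 1
      rw [← Real.rpow_natCast (K : ℝ) 2, ← Real.rpow_mul hKp.le, ← Real.rpow_neg hKp.le]
      congr 1
      rw [htt]
      push_cast
      ring
    have h3 : (∑ k, R k) ^ t ≤ (n : ℝ) ^ t * ∑ k, (R k) ^ t := sum_rpow_le R hR0 (by linarith)
    have h4 : (∑ k, (R k) ^ t) * V ≤
        4 ^ (n ^ 2) * ∑ k, ∏ j ∈ univ.erase k, ‖pt θ k - pt θ j‖ ^ (-s) := by
      rw [sum_mul, mul_sum]
      refine sum_le_sum fun k _ => ?_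
      rw [hR, hV, htt]
      exact star_density θ k s hinj
    calc (∑ i, Q.eval (h.eigenvalues i)) * dens q θ
        ≤ (n * ((5 * (n : ℝ) ^ 2 * 4 ^ n) ^ t * ((n : ℝ) ^ t * ∑ k, (R k) ^ t) *
            (K : ℝ) ^ (-(2 + s)))) * (4 ^ (n ^ 2) * V) := by
          refine mul_le_mul (h1.trans ?_) hd1 hd0 ?_
          · rw [h2]
            refine mul_le_mul_of_nonneg_left ?_ hnp.le
            refine mul_le_mul_of_nonneg_right ?_ (by positivity)
            exact mul_le_mul_of_nonneg_left h3 (by positivity)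
          · have : 0 ≤ ∑ k, (R k) ^ t := sum_nonneg fun k _ => Real.rpow_nonneg (hR0 k) t
            positivity
      _ = (n * (5 * (n : ℝ) ^ 2 * 4 ^ n) ^ t * 4 ^ (n ^ 2) * (n : ℝ) ^ t * (K : ℝ) ^ (-(2 + s))) *
            ((∑ k, (R k) ^ t) * V) := by ring
      _ ≤ (n * (5 * (n : ℝ) ^ 2 * 4 ^ n) ^ t * 4 ^ (n ^ 2) * (n : ℝ) ^ t * (K : ℝ) ^ (-(2 + s))) *
            (4 ^ (n ^ 2) * ∑ k, ∏ j ∈ univ.erase k, ‖pt θ k - pt θ j‖ ^ (-s)) :=
          mul_le_mul_of_nonneg_left h4 (by positivity)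
      _ = Cst n s * (K : ℝ) ^ (-(2 + s)) *
            ∑ k, ∏ j ∈ univ.erase k, ‖pt θ k - pt θ j‖ ^ (-s) := by
          unfold Cst
          rw [htt]
          ring

/-- the mean value -/
theorem mean (hH : S_HER) (hP : S_POW) (hL : S_LOW) (hD : S_DEN) (hM : S_MASS) (hS : S_STAR)
    {n : ℕ} (hn : 1 ≤ n) {s : ℝ} (hs0 : 0 ≤ s) (hs1 : s < 1) :
    ∃ C : ℝ, 0 < C ∧ ∀ (K : ℕ), 1 ≤ K → ∀ Q : Polynomial ℝ, Good n K Q → ∀ q : ℝ, 2 ≤ q →
      ‖pl q (fun a : Fin n → ℂ => trQ K Q a)‖ ≤ C * (K : ℝ) ^ (-(2 + s)) := by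
  obtain ⟨c, hc, hmass⟩ := hM n
  have hint : IntegrableOn (fun θ : Fin n → ℝ => ∑ k, ∏ j ∈ univ.erase k, ‖pt θ k - pt θ j‖ ^ (-s))
      (Set.Icc (0 : Fin n → ℝ) 1) := by
    refine integrable_finsetSum _ fun k _ => ?_
    exact hS n k s hs0 hs1
  obtain ⟨I, hI⟩ : ∃ I, I = ∫ θ in Set.Icc (0 : Fin n → ℝ) 1,
    ∑ k, ∏ j ∈ univ.erase k, ‖pt θ k - pt θ j‖ ^ (-s) := ⟨_, rfl⟩
  have hI0 : 0 ≤ I := by
    rw [hI]
    exact integral_nonneg fun θ => sum_nonneg fun k _ => prod_nonneg fun j _ =>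
      Real.rpow_nonneg (norm_nonneg _) _
  have hC0 : 0 ≤ Cst n s := by unfold Cst; positivity
  refine ⟨Cst n s * I / c + 1, by positivity, fun K hK Q hQ q hq => ?_⟩
  have hKp : (0 : ℝ) < K := by exact_mod_cast hK
  have hm := hmass q hq
  have hm0 : 0 < mass n q := hc.trans_le hm
  have h1 : ‖∫ θ in Set.Icc (0 : Fin n → ℝ) 1, trQ K Q (pt θ) * (dens q θ : ℂ)‖ ≤
      Cst n s * (K : ℝ) ^ (-(2 + s)) * I := by
    rw [hI, ← integral_const_mul]
    refine norm_integral_le_of_norm_le (hint.const_mul _) ?_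
    exact Filter.Eventually.of_forall fun θ => point_bound hH hP hL hD hn hK hs0 hs1 hQ hq θ
  unfold pl
  rw [norm_div, Complex.norm_real, Real.norm_of_nonneg hm0.le, div_le_iff₀ hm0]
  refine h1.trans ?_
  have hkp : 0 < (K : ℝ) ^ (-(2 + s)) := Real.rpow_pos_of_pos hKp _
  calc Cst n s * (K : ℝ) ^ (-(2 + s)) * I = (Cst n s * I / c) * (K : ℝ) ^ (-(2 + s)) * c := by
        field_simp
    _ ≤ (Cst n s * I / c + 1) * (K : ℝ) ^ (-(2 + s)) * mass n q := by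
        have h2 : 0 ≤ Cst n s * I / c := by positivity
        refine mul_le_mul ?_ hm hc.le (by positivity)
        exact mul_le_mul_of_nonneg_right (by linarith) hkp.le

end Mean

end Pool.Agent.N846.AT
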