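import Pool.Agent.N846.AT.Stm

/-!
# Project AT, second part: Newton's identities; the torus of `Sp(2n)` (dual group of `SO(2n+1)`)
-/

set_option autoImplicit false

namespace Pool.Agent.N846.AT

open Finset Complex MeasureTheory
open scoped BigOperators ComplexConjugate

/-- NEWT: small power sums up to the number of the variables bound the variables. -/
def S_NEWT : Prop := ∀ (n : ℕ) (b : Fin n → ℂ) (X : ℝ), 0 < X →
  (∀ m : ℕ, 1 ≤ m → m ≤ n → ‖∑ i, b i ^ m‖ ≤ X ^ m) → ∀ i, ‖b i‖ ≤ 2 * X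

/-- the diagonal matrices `(z_1, ..., z_n, 1/z_n, ..., 1/z_1)`, `z_j = e^(2 π i θ_j)`, of the
compact torus of `Sp(2n)` -/
noncomputable def sp {n : ℕ} (θ : Fin n → ℝ) : Fin (n + n) → ℂ :=
  Fin.append (pt θ) (fun j => (pt θ j)⁻¹)

/-- density of the unramified Plancherel measure of `SO(2n+1)` (not normalised): the product over
the positive roots `β` of `Sp(2n)` of `|1 - β|^2 / |1 - β / q|^2` -/
noncomputable def densSp {n : ℕ} (q : ℝ) (θ : Fin n → ℝ) : ℝ :=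
  (∏ i : Fin n, ‖1 - pt θ i ^ 2‖ ^ 2 / ‖1 - pt θ i ^ 2 / (q : ℂ)‖ ^ 2) *
  ∏ i : Fin n, ∏ j ∈ univ.filter (fun j => i < j),
    (‖1 - pt θ i * pt θ j‖ ^ 2 / ‖1 - pt θ i * pt θ j / (q : ℂ)‖ ^ 2) *
    (‖1 - pt θ i * (pt θ j)⁻¹‖ ^ 2 / ‖1 - pt θ i * (pt θ j)⁻¹ / (q : ℂ)‖ ^ 2)

noncomputable def massSp (n : ℕ) (q : ℝ) : ℝ := ∫ θ in Set.Icc (0 : Fin n → ℝ) 1, densSp q θ

noncomputable def plSp {n : ℕ} (q : ℝ) (f : (Fin (n + n) → ℂ) → ℂ) : ℂ :=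
  (∫ θ in Set.Icc (0 : Fin n → ℝ) 1, f (sp θ) * (densSp q θ : ℂ)) / (massSp n q : ℂ)

/-- DENSP: continuity, nonnegativity -/
def S_DENSP : Prop := ∀ (n : ℕ) (q : ℝ), 2 ≤ q → Continuous (fun θ : Fin n → ℝ => densSp q θ) ∧
  ∀ θ : Fin n → ℝ, 0 ≤ densSp q θ

/-- MASSP: lower bound for the mass -/
def S_MASSP : Prop := ∀ n : ℕ, ∃ c : ℝ, 0 < c ∧ ∀ q : ℝ, 2 ≤ q → c ≤ massSp n q

/-- STARSP: at each index `k` of the `2n` eigenvalues the inverse star product, to the power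
`1 + s/2`, times the density is dominated by an integrable function that does not depend on `q`. -/
def S_STARSP : Prop := ∀ (n : ℕ) (s : ℝ), 0 ≤ s → s < 1 → ∃ g : (Fin n → ℝ) → ℝ,
  IntegrableOn g (Set.Icc (0 : Fin n → ℝ) 1) ∧ (∀ θ, 0 ≤ g θ) ∧
  ∀ q : ℝ, 2 ≤ q → ∀ θ : Fin n → ℝ, ∀ k : Fin (n + n),
    (Function.Injective (sp θ) →
      (∏ j ∈ univ.erase k, (‖sp θ k - sp θ j‖ ^ 2)⁻¹) ^ (1 + s / 2) * densSp q θ ≤ g θ) ∧
    (¬ Function.Injective (sp θ) → densSp q θ = 0)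

end Pool.Agent.N846.AT
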