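import Pool.Agent.N846.AT.Fin2
import Pool.Agent.N846.AT.Stm2

set_option autoImplicit false

namespace Pool.Agent.N846.AT

open Finset Complex MeasureTheory
open scoped BigOperators ComplexConjugate

namespace Near

open Mean Avg

lemma psum_neg {n : ℕ} {a : Fin n → ℂ} (h : Unitary a) (m : ℤ) : psum a (-m) = conj (psum a m) := by
  obtain ⟨h0, σ, hσ⟩ := h
  unfold psum
  rw [map_sum, ← Equiv.sum_comp σ]
  refine sum_congr rfl fun i _ => ?_
  rw [hσ, inv_zpow, zpow_neg, inv_inv, map_zpow₀]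

lemma word_two {n : ℕ} {a : Fin n → ℂ} (h : Unitary a) (m : ℤ) :
    word a [m, -m] = ((‖psum a m‖ ^ 2 : ℝ) : ℂ) := by
  unfold word
  simp only [List.map_cons, List.map_nil, List.prod_cons, List.prod_nil, mul_one]
  rw [psum_neg h, Complex.mul_conj, Complex.normSq_eq_norm_sq]

lemma norm_pl_le (hD : S_DEN) (hM : S_MASS) {n : ℕ} {q : ℝ} (hq : 2 ≤ q) (f : (Fin n → ℂ) → ℂ) (M : ℝ)
    (hf : ∀ θ, ‖f (pt θ)‖ ≤ M) : ‖pl q f‖ ≤ M := by
  obtain ⟨c, hc, hmass⟩ := hM n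
  have hm0 : 0 < mass n q := hc.trans_le (hmass q hq)
  unfold pl
  rw [norm_div, Complex.norm_real, Real.norm_of_nonneg hm0.le, div_le_iff₀ hm0]
  unfold mass
  rw [← integral_const_mul]
  refine norm_integral_le_of_norm_le ?_ ?_
  · exact ((hD n q hq).1.continuousOn.integrableOn_compact isCompact_Icc).const_mul _
  · refine Filter.Eventually.of_forall fun θ => ?_
    rw [norm_mul, Complex.norm_real, Real.norm_of_nonneg ((hD n q hq).2 θ).1]
    exact mul_le_mul_of_nonneg_right (hf θ) ((hD n q hq).2 θ).1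

open scoped Classical in
theorem near (S : Leaves) (hN : S_NEWT) {n : ℕ} (hn : 1 ≤ n) {Form : Type} {upTo : ℝ → Finset Form}
    {α : Form → ℕ → Fin n → ℂ} (hF : Fin2.Family n Form upTo α)
    (hb : ∀ T : ℝ, ∀ φ ∈ upTo T, ∀ p : ℕ, p.Prime → ∀ i, ‖α φ p i‖ ≤ Real.sqrt p) :
    ∃ C : ℝ, 0 < C ∧ ∀ T : ℝ, 2 ≤ T →
      (((upTo T).filter (fun φ => ∃ p : ℕ, p.Prime ∧ Real.log T ≤ p ∧
        ∃ i, Real.exp (C * (Real.log p) ^ 2 / Real.log T) < ‖α φ p i‖)).card : ℝ) ≤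
        C / Real.log T * (upTo T).card := by
  obtain ⟨A, C₀, η, hA, hC₀, hη, hE⟩ := hF.equi
  have hn1 : (1 : ℝ) ≤ n := by exact_mod_cast hn
  obtain ⟨B, hB⟩ : ∃ B : ℝ, B = 3 * A * n + 1 := ⟨_, rfl⟩
  have hBpos : 0 < B := by rw [hB]; positivity
  obtain ⟨C₃, hC₃⟩ : ∃ C₃ : ℝ, C₃ = (n : ℝ) ^ 3 * (1 + C₀) := ⟨_, rfl⟩
  have hC₃0 : 0 < C₃ := by rw [hC₃]; positivity
  -- one prime
  have hone : ∀ T : ℝ, 2 ≤ T → ∀ p : ℕ, p.Prime → 1 ≤ η * Real.log T / (2 * B * Real.log p) →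
      (((upTo T).filter (fun φ => ∃ i, Real.exp (8 * B / η * (Real.log p) ^ 2 / Real.log T) <
        ‖α φ p i‖)).card : ℝ) ≤ 9 * C₃ * ((p : ℝ) ^ 4)⁻¹ * (upTo T).card := by
    intro T hT p hp hΛ'
    have hT0 : 0 < T := by linarith
    have hp2 : (2 : ℝ) ≤ p := by exact_mod_cast hp.two_le
    have hp0 : (0 : ℝ) < p := by linarith
    have hlp : 0 < Real.log p := Real.log_pos (by linarith)
    have hlT : 0 < Real.log T := Real.log_pos (by linarith)
    have hFc : (0 : ℝ) ≤ (upTo T).card := by positivity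
    obtain ⟨Λ, hΛe⟩ : ∃ Λ, Λ = η * Real.log T / (2 * B * Real.log p) := ⟨_, rfl⟩
    rw [← hΛe] at hΛ'
    obtain ⟨J, hJ⟩ : ∃ J, J = ⌊Λ⌋₊ := ⟨_, rfl⟩
    have hJ1 : 1 ≤ J := by rw [hJ]; exact Nat.one_le_floor_iff _ |>.2 hΛ'
    have hJle : (J : ℝ) ≤ Λ := by rw [hJ]; exact Nat.floor_le (by linarith)
    have hJge : Λ / 2 ≤ J := by
      have h1 : Λ < J + 1 := by rw [hJ]; exact Nat.lt_floor_add_one _
      have h2 : (1 : ℝ) ≤ J := by exact_mod_cast hJ1
      linarith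
    have hJ1r : (1 : ℝ) ≤ J := by exact_mod_cast hJ1
    have hpow : (p : ℝ) ^ (A * ((2 * J * n : ℕ) + 1)) ≤ T ^ (η / 2) := by
      rw [Real.rpow_def_of_pos hp0, Real.rpow_def_of_pos hT0]
      refine Real.exp_le_exp.2 ?_
      have h1 : A * ((2 * J * n : ℕ) + 1) ≤ B * J := by
        rw [hB]
        push_cast
        have h4 : (1 : ℝ) ≤ n * J := by nlinarith
        nlinarith [mul_le_mul_of_nonneg_left h4 hA]
      have h2 : Real.log p * (B * Λ) = Real.log T * (η / 2) := by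
        rw [hΛe]
        field_simp
      calc Real.log p * (A * ((2 * J * n : ℕ) + 1)) ≤ Real.log p * (B * J) :=
            mul_le_mul_of_nonneg_left h1 hlp.le
        _ ≤ Real.log p * (B * Λ) :=
            mul_le_mul_of_nonneg_left (mul_le_mul_of_nonneg_left hJle hBpos.le) hlp.le
        _ = Real.log T * (η / 2) := h2
    have hTT : T ^ (-η) * T ^ (η / 2) ≤ 1 := by
      rw [← Real.rpow_add hT0]
      exact Real.rpow_le_one_of_one_le_of_nonpos (by linarith) (by linarith)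
    -- the second moment of the power sums
    have hmom : ∀ m ∈ Icc 1 n, ∑ φ ∈ upTo T, ‖psum (α φ p) ((J * m : ℕ) : ℤ)‖ ^ 2 ≤
        (n : ℝ) ^ 2 * (1 + C₀) * (upTo T).card := by
      intro m hm
      have hm' := mem_Icc.1 hm
      have h1 := hE T hT {p} (fun r hr => by rw [mem_singleton.1 hr]; exact hp)
        (fun _ => [((J * m : ℕ) : ℤ), -((J * m : ℕ) : ℤ)]) (2 * J * n) (by
          intro r _
          constructor
          · simp
          · simp only [List.map_cons, List.map_nil, List.sum_cons, List.sum_nil, Int.natAbs_neg,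
              Int.natAbs_natCast, add_zero]
            calc J * m + J * m = 2 * J * m := by ring
              _ ≤ 2 * J * n := Nat.mul_le_mul_left _ hm'.2)
      simp only [prod_singleton, List.length_cons, List.length_nil, zero_add] at h1
      have h2 : ∑ φ ∈ upTo T, word (α φ p) [((J * m : ℕ) : ℤ), -((J * m : ℕ) : ℤ)] =
          ((∑ φ ∈ upTo T, ‖psum (α φ p) ((J * m : ℕ) : ℤ)‖ ^ 2 : ℝ) : ℂ) := by
        rw [Complex.ofReal_sum]
        exact sum_congr rfl fun φ hφ => word_two (hF.unitary T φ hφ p hp) _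
      have h3 : ‖pl (p : ℝ) (fun a : Fin n → ℂ => word a [((J * m : ℕ) : ℤ), -((J * m : ℕ) : ℤ)])‖ ≤
          (n : ℝ) ^ 2 := by
        refine norm_pl_le S.den S.mass_pos hp2 _ _ fun θ => ?_
        rw [word_two (unitary_of_tempered _ (tempered_pt θ)), Complex.norm_real,
          Real.norm_of_nonneg (by positivity)]
        refine pow_le_pow_left₀ (norm_nonneg _) ?_ 2
        unfold psum
        calc ‖∑ i, pt θ i ^ (((J * m : ℕ) : ℤ))‖ ≤ ∑ i : Fin n, (1 : ℝ) := by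
              refine norm_sum_le_of_le _ fun i _ => ?_
              rw [norm_zpow, norm_pt, one_zpow]
          _ = n := by simp
      rw [h2] at h1
      have h4 : ‖((∑ φ ∈ upTo T, ‖psum (α φ p) ((J * m : ℕ) : ℤ)‖ ^ 2 : ℝ) : ℂ)‖ =
          ∑ φ ∈ upTo T, ‖psum (α φ p) ((J * m : ℕ) : ℤ)‖ ^ 2 := by
        rw [Complex.norm_real, Real.norm_of_nonneg (sum_nonneg fun φ _ => by positivity)]
      rw [← h4]
      have h5 := norm_le_norm_add_norm_sub
        (((upTo T).card : ℂ) * pl (p : ℝ) (fun a : Fin n → ℂ =>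
          word a [((J * m : ℕ) : ℤ), -((J * m : ℕ) : ℤ)]))
        ((∑ φ ∈ upTo T, ‖psum (α φ p) ((J * m : ℕ) : ℤ)‖ ^ 2 : ℝ) : ℂ)
      have h6 : ‖((upTo T).card : ℂ) * pl (p : ℝ) (fun a : Fin n → ℂ =>
          word a [((J * m : ℕ) : ℤ), -((J * m : ℕ) : ℤ)])‖ ≤ (n : ℝ) ^ 2 * (upTo T).card := by
        rw [norm_mul, Complex.norm_natCast, mul_comm]
        exact mul_le_mul_of_nonneg_right h3 hFc
      have h7 : C₀ * (n : ℝ) ^ 2 * (p : ℝ) ^ (A * ((2 * J * n : ℕ) + 1)) * T ^ (-η) * (upTo T).card ≤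
          C₀ * (n : ℝ) ^ 2 * (upTo T).card := by
        have h8 : (p : ℝ) ^ (A * ((2 * J * n : ℕ) + 1)) * T ^ (-η) ≤ 1 := by
          calc (p : ℝ) ^ (A * ((2 * J * n : ℕ) + 1)) * T ^ (-η) ≤ T ^ (η / 2) * T ^ (-η) :=
                mul_le_mul_of_nonneg_right hpow (by positivity)
            _ = T ^ (-η) * T ^ (η / 2) := by ring
            _ ≤ 1 := hTT
        have h9 : 0 ≤ C₀ * (n : ℝ) ^ 2 * (upTo T).card := by positivity
        calc C₀ * (n : ℝ) ^ 2 * (p : ℝ) ^ (A * ((2 * J * n : ℕ) + 1)) * T ^ (-η) * (upTo T).card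
            = (C₀ * (n : ℝ) ^ 2 * (upTo T).card) *
              ((p : ℝ) ^ (A * ((2 * J * n : ℕ) + 1)) * T ^ (-η)) := by ring
          _ ≤ (C₀ * (n : ℝ) ^ 2 * (upTo T).card) * 1 := mul_le_mul_of_nonneg_left h8 h9
          _ = C₀ * (n : ℝ) ^ 2 * (upTo T).card := by ring
      have h10 : ‖((∑ φ ∈ upTo T, ‖psum (α φ p) ((J * m : ℕ) : ℤ)‖ ^ 2 : ℝ) : ℂ) -
          ((upTo T).card : ℂ) * pl (p : ℝ) (fun a : Fin n → ℂ =>
          word a [((J * m : ℕ) : ℤ), -((J * m : ℕ) : ℤ)])‖ ≤ C₀ * (n : ℝ) ^ 2 * (upTo T).card := by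
        refine h1.trans (le_trans (le_of_eq ?_) h7)
        norm_num
      rw [norm_sub_rev] at h5
      linarith
    obtain ⟨G, hG⟩ : ∃ G, G = (upTo T).filter (fun φ => ∃ i,
      Real.exp (8 * B / η * (Real.log p) ^ 2 / Real.log T) < ‖α φ p i‖) := ⟨_, rfl⟩
    rw [← hG]
    have hGsub : G ⊆ upTo T := by rw [hG]; exact filter_subset _ _
    have hlow : ∀ φ ∈ G, (p : ℝ) ^ 4 / 9 ≤ ∑ m ∈ Icc 1 n, ‖psum (α φ p) ((J * m : ℕ) : ℤ)‖ ^ 2 := by
      intro φ hφ
      rw [hG] at hφ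
      obtain ⟨-, i, hi⟩ := mem_filter.1 hφ
      obtain ⟨r, hr⟩ : ∃ r, r = ‖α φ p i‖ := ⟨_, rfl⟩
      rw [← hr] at hi
      have hrJ : (p : ℝ) ^ 2 ≤ r ^ J := by
        have h1 : (p : ℝ) ^ 2 = Real.exp (2 * Real.log p) := by
          rw [mul_comm, Real.exp_mul, Real.exp_log hp0]
          norm_num
        have h2 : Real.exp (8 * B / η * (Real.log p) ^ 2 / Real.log T * J) ≤ r ^ J := by
          rw [mul_comm, Real.exp_nat_mul]
          exact pow_le_pow_left₀ (Real.exp_pos _).le hi.le J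
        rw [h1]
        refine le_trans (Real.exp_le_exp.2 ?_) h2
        have h3 : 8 * B / η * (Real.log p) ^ 2 / Real.log T * (Λ / 2) = 2 * Real.log p := by
          rw [hΛe]
          field_simp
          ring
        rw [← h3]
        exact mul_le_mul_of_nonneg_left hJge (by positivity)
      have hX1 : 1 ≤ r ^ J / 3 := by
        rw [le_div_iff₀ (by norm_num)]
        nlinarith
      have hcontra : ∃ m : ℕ, 1 ≤ m ∧ m ≤ n ∧ (r ^ J / 3) ^ m < ‖∑ i, (α φ p i ^ J) ^ m‖ := by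
        by_contra hcon
        push Not at hcon
        have h1 := hN n (fun i => α φ p i ^ J) (r ^ J / 3) (by linarith) hcon i
        rw [norm_pow, ← hr] at h1
        linarith
      obtain ⟨m, hm1, hmn, hm⟩ := hcontra
      have e : ∑ i, (α φ p i ^ J) ^ m = psum (α φ p) ((J * m : ℕ) : ℤ) := by
        unfold psum
        refine sum_congr rfl fun i _ => ?_
        rw [zpow_natCast, pow_mul]
      rw [e] at hm
      have h2 : r ^ J / 3 ≤ (r ^ J / 3) ^ m := by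
        calc r ^ J / 3 = (r ^ J / 3) ^ 1 := (pow_one _).symm
          _ ≤ (r ^ J / 3) ^ m := pow_le_pow_right₀ hX1 hm1
      have h3 : (p : ℝ) ^ 2 / 3 ≤ ‖psum (α φ p) ((J * m : ℕ) : ℤ)‖ := by
        have : (p : ℝ) ^ 2 / 3 ≤ r ^ J / 3 := by linarith
        linarith
      calc (p : ℝ) ^ 4 / 9 = ((p : ℝ) ^ 2 / 3) ^ 2 := by ring
        _ ≤ ‖psum (α φ p) ((J * m : ℕ) : ℤ)‖ ^ 2 := pow_le_pow_left₀ (by positivity) h3 2
        _ ≤ ∑ m ∈ Icc 1 n, ‖psum (α φ p) ((J * m : ℕ) : ℤ)‖ ^ 2 :=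
          single_le_sum (f := fun m : ℕ => ‖psum (α φ p) ((J * m : ℕ) : ℤ)‖ ^ 2)
            (fun m _ => by positivity) (mem_Icc.2 ⟨hm1, hmn⟩)
    have hfin : (G.card : ℝ) * ((p : ℝ) ^ 4 / 9) ≤ C₃ * (upTo T).card := by
      calc (G.card : ℝ) * ((p : ℝ) ^ 4 / 9) = ∑ _φ ∈ G, (p : ℝ) ^ 4 / 9 := by simp
        _ ≤ ∑ φ ∈ G, ∑ m ∈ Icc 1 n, ‖psum (α φ p) ((J * m : ℕ) : ℤ)‖ ^ 2 := sum_le_sum hlow
        _ ≤ ∑ φ ∈ upTo T, ∑ m ∈ Icc 1 n, ‖psum (α φ p) ((J * m : ℕ) : ℤ)‖ ^ 2 :=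
            sum_le_sum_of_subset_of_nonneg hGsub fun φ _ _ => sum_nonneg fun m _ => by positivity
        _ = ∑ m ∈ Icc 1 n, ∑ φ ∈ upTo T, ‖psum (α φ p) ((J * m : ℕ) : ℤ)‖ ^ 2 := sum_comm
        _ ≤ ∑ _m ∈ Icc 1 n, (n : ℝ) ^ 2 * (1 + C₀) * (upTo T).card := sum_le_sum hmom
        _ = C₃ * (upTo T).card := by
            rw [sum_const, Nat.card_Icc, Nat.add_sub_cancel, nsmul_eq_mul, hC₃]
            ring
    have hp4 : (0 : ℝ) < (p : ℝ) ^ 4 := by positivity
    calc (G.card : ℝ) = (G.card : ℝ) * ((p : ℝ) ^ 4 / 9) * (9 * ((p : ℝ) ^ 4)⁻¹) := by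
          field_simp
      _ ≤ (C₃ * (upTo T).card) * (9 * ((p : ℝ) ^ 4)⁻¹) :=
          mul_le_mul_of_nonneg_right hfin (by positivity)
      _ = 9 * C₃ * ((p : ℝ) ^ 4)⁻¹ * (upTo T).card := by ring
  -- all primes
  refine ⟨8 * B / η + 9 * C₃ * (Real.pi ^ 2 / 6), by positivity, fun T hT => ?_⟩
  obtain ⟨C, hC⟩ : ∃ C : ℝ, C = 8 * B / η + 9 * C₃ * (Real.pi ^ 2 / 6) := ⟨_, rfl⟩
  rw [← hC]
  have hCge : 8 * B / η ≤ C := by
    rw [hC]
    have : 0 ≤ 9 * C₃ * (Real.pi ^ 2 / 6) := by positivity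
    linarith
  have hT0 : 0 < T := by linarith
  have hlT : 0 < Real.log T := Real.log_pos (by linarith)
  have hFc : (0 : ℝ) ≤ (upTo T).card := by positivity
  obtain ⟨R, hRdef⟩ : ∃ R : Finset ℕ, R = (range (⌊T ^ (η / (2 * B))⌋₊ + 1)).filter
    (fun p : ℕ => p.Prime ∧ Real.log T ≤ (p : ℝ)) := ⟨_, rfl⟩
  have hmem : ∀ p : ℕ, p ∈ R ↔ (p : ℝ) ≤ T ^ (η / (2 * B)) ∧ p.Prime ∧ Real.log T ≤ p := by
    intro p
    rw [hRdef, mem_filter, mem_range, Nat.lt_succ_iff]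
    refine and_congr_left fun hp => ?_
    exact ⟨fun h => (Nat.le_floor_iff (by positivity)).1 h, fun h => (Nat.le_floor_iff (by positivity)).2 h⟩
  have hsub : (upTo T).filter (fun φ => ∃ p : ℕ, p.Prime ∧ Real.log T ≤ p ∧
      ∃ i, Real.exp (C * (Real.log p) ^ 2 / Real.log T) < ‖α φ p i‖) ⊆
      R.biUnion (fun p => (upTo T).filter (fun φ => ∃ i,
        Real.exp (8 * B / η * (Real.log p) ^ 2 / Real.log T) < ‖α φ p i‖)) := by
    intro φ hφ
    obtain ⟨h1, p, hp, hpT, i, hi⟩ := mem_filter.1 hφ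
    have hp2 : (2 : ℝ) ≤ p := by exact_mod_cast hp.two_le
    have hp0 : (0 : ℝ) < p := by linarith
    have hlp : 0 < Real.log p := Real.log_pos (by linarith)
    have hle : Real.exp (8 * B / η * (Real.log p) ^ 2 / Real.log T) ≤
        Real.exp (C * (Real.log p) ^ 2 / Real.log T) := by
      refine Real.exp_le_exp.2 ?_
      gcongr
    have hsmall : (p : ℝ) ≤ T ^ (η / (2 * B)) := by
      by_contra hcon
      push Not at hcon
      have h2 : η / (2 * B) * Real.log T < Real.log p := by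
        rw [← Real.log_rpow hT0]
        exact Real.log_lt_log (by positivity) hcon
      have h3 : (p : ℝ) ≤ Real.exp (8 * B / η * (Real.log p) ^ 2 / Real.log T) := by
        conv_lhs => rw [← Real.exp_log hp0]
        refine Real.exp_le_exp.2 ?_
        rw [le_div_iff₀ hlT]
        have h4 : η * Real.log T < 2 * B * Real.log p := by
          rw [div_mul_eq_mul_div, div_lt_iff₀ (by positivity)] at h2
          linarith
        have h5 : Real.log T ≤ 8 * B / η * Real.log p := by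
          rw [div_mul_eq_mul_div, le_div_iff₀ hη]
          nlinarith [mul_pos hBpos hlp]
        calc Real.log p * Real.log T ≤ Real.log p * (8 * B / η * Real.log p) :=
              mul_le_mul_of_nonneg_left h5 hlp.le
          _ = 8 * B / η * (Real.log p) ^ 2 := by ring
      have h6 := hb T φ h1 p hp i
      have h7 : Real.sqrt p ≤ p := by
        rw [Real.sqrt_le_left hp0.le]
        nlinarith
      linarith
    exact mem_biUnion.2 ⟨p, (hmem p).2 ⟨hsmall, hp, hpT⟩, mem_filter.2 ⟨h1, i, hle.trans_lt hi⟩⟩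
  have hterm : ∀ p ∈ R, (((upTo T).filter (fun φ => ∃ i,
      Real.exp (8 * B / η * (Real.log p) ^ 2 / Real.log T) < ‖α φ p i‖)).card : ℝ) ≤
      9 * C₃ / Real.log T * (upTo T).card * (1 / (p : ℝ) ^ 2) := by
    intro p hp
    obtain ⟨h1, h2, h3⟩ := (hmem p).1 hp
    have hp2 : (2 : ℝ) ≤ p := by exact_mod_cast h2.two_le
    have hp0 : (0 : ℝ) < p := by linarith
    have hlp : 0 < Real.log p := Real.log_pos (by linarith)
    have hΛ : 1 ≤ η * Real.log T / (2 * B * Real.log p) := by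
      rw [le_div_iff₀ (by positivity), one_mul]
      have h4 : Real.log p ≤ η / (2 * B) * Real.log T := by
        rw [← Real.log_rpow hT0]
        exact Real.log_le_log hp0 h1
      rw [div_mul_eq_mul_div, le_div_iff₀ (by positivity)] at h4
      linarith
    refine (hone T hT p h2 hΛ).trans ?_
    have h5 : ((p : ℝ) ^ 4)⁻¹ ≤ 1 / Real.log T * (1 / (p : ℝ) ^ 2) := by
      rw [inv_eq_one_div, div_mul_div_comm, one_mul]
      refine one_div_le_one_div_of_le (by positivity) ?_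
      have h6 : Real.log T ≤ (p : ℝ) ^ 2 := by nlinarith
      calc Real.log T * (p : ℝ) ^ 2 ≤ (p : ℝ) ^ 2 * (p : ℝ) ^ 2 :=
            mul_le_mul_of_nonneg_right h6 (by positivity)
        _ = (p : ℝ) ^ 4 := by ring
    calc 9 * C₃ * ((p : ℝ) ^ 4)⁻¹ * (upTo T).card
        ≤ 9 * C₃ * (1 / Real.log T * (1 / (p : ℝ) ^ 2)) * (upTo T).card := by
          refine mul_le_mul_of_nonneg_right (mul_le_mul_of_nonneg_left h5 (by positivity)) hFc
      _ = 9 * C₃ / Real.log T * (upTo T).card * (1 / (p : ℝ) ^ 2) := by ring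
  have hzeta : ∑ p ∈ R, 1 / (p : ℝ) ^ 2 ≤ Real.pi ^ 2 / 6 :=
    sum_le_hasSum R (fun p _ => by positivity) hasSum_zeta_two
  calc (((upTo T).filter (fun φ => ∃ p : ℕ, p.Prime ∧ Real.log T ≤ p ∧
        ∃ i, Real.exp (C * (Real.log p) ^ 2 / Real.log T) < ‖α φ p i‖)).card : ℝ)
      ≤ ((R.biUnion (fun p => (upTo T).filter (fun φ => ∃ i,
          Real.exp (8 * B / η * (Real.log p) ^ 2 / Real.log T) < ‖α φ p i‖))).card : ℝ) := by
        exact_mod_cast card_le_card hsub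
    _ ≤ ((∑ p ∈ R, ((upTo T).filter (fun φ => ∃ i,
          Real.exp (8 * B / η * (Real.log p) ^ 2 / Real.log T) < ‖α φ p i‖)).card : ℕ) : ℝ) := by
        exact_mod_cast card_biUnion_le
    _ = ∑ p ∈ R, (((upTo T).filter (fun φ => ∃ i,
          Real.exp (8 * B / η * (Real.log p) ^ 2 / Real.log T) < ‖α φ p i‖)).card : ℝ) := by
        push_cast; rfl
    _ ≤ ∑ p ∈ R, 9 * C₃ / Real.log T * (upTo T).card * (1 / (p : ℝ) ^ 2) := sum_le_sum hterm
    _ = 9 * C₃ / Real.log T * (upTo T).card * ∑ p ∈ R, 1 / (p : ℝ) ^ 2 := by rw [mul_sum]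
    _ ≤ 9 * C₃ / Real.log T * (upTo T).card * (Real.pi ^ 2 / 6) :=
        mul_le_mul_of_nonneg_left hzeta (by positivity)
    _ ≤ C / Real.log T * (upTo T).card := by
        have h8 : 9 * C₃ * (Real.pi ^ 2 / 6) ≤ C := by
          rw [hC]
          have : 0 ≤ 8 * B / η := by positivity
          linarith
        have h9 : 9 * C₃ / Real.log T * (upTo T).card * (Real.pi ^ 2 / 6) =
            (9 * C₃ * (Real.pi ^ 2 / 6)) / Real.log T * (upTo T).card := by ring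
        rw [h9]
        refine mul_le_mul_of_nonneg_right ?_ hFc
        exact div_le_div_of_nonneg_right h8 hlT.le

end Near

end Pool.Agent.N846.AT
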