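import Pool.Agent.N846.AT.Stm2

/-!
# Small power sums bound the variables
-/

set_option autoImplicit false

namespace Pool.Agent.N846.AT

open Finset

namespace NewtAux

theorem esymm_le (n : ℕ) (b : Fin n → ℂ) (X : ℝ) (hX : 0 < X)
    (hp : ∀ m : ℕ, 1 ≤ m → m ≤ n → ‖∑ i, b i ^ m‖ ≤ X ^ m) :
    ∀ k : ℕ, k ≤ n → ‖MvPolynomial.aeval b (MvPolynomial.esymm (Fin n) ℂ k)‖ ≤ X ^ k := by
  intro k
  induction k using Nat.strong_induction_on with
  | _ k ih =>
    intro hk
    rcases Nat.eq_zero_or_pos k with h0 | h0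
    · subst h0
      simp
    · have hN := congrArg (MvPolynomial.aeval b) (MvPolynomial.mul_esymm_eq_sum (Fin n) ℂ k)
      rw [map_mul, map_natCast, map_mul, map_sum] at hN
      have h1 : (k : ℝ) * ‖MvPolynomial.aeval b (MvPolynomial.esymm (Fin n) ℂ k)‖ ≤
          ∑ a ∈ antidiagonal k with a.1 < k, X ^ k := by
        have h2 : (k : ℝ) * ‖MvPolynomial.aeval b (MvPolynomial.esymm (Fin n) ℂ k)‖ =
            ‖(k : ℂ) * MvPolynomial.aeval b (MvPolynomial.esymm (Fin n) ℂ k)‖ := by
          rw [norm_mul, Complex.norm_natCast]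
        rw [h2, hN, norm_mul]
        have h3 : ‖MvPolynomial.aeval b ((-1 : MvPolynomial (Fin n) ℂ) ^ (k + 1))‖ = 1 := by
          rw [map_pow, map_neg, map_one, norm_pow, norm_neg, norm_one, one_pow]
        rw [h3, one_mul]
        refine (norm_sum_le _ _).trans (Finset.sum_le_sum fun a ha => ?_)
        rw [Finset.mem_filter, Finset.HasAntidiagonal.mem_antidiagonal] at ha
        obtain ⟨h4, h5⟩ := ha
        rw [map_mul, map_mul, map_pow, map_neg, map_one, norm_mul, norm_mul, norm_pow, norm_neg, norm_one, one_pow,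
          one_mul]
        have h6 : ‖MvPolynomial.aeval b (MvPolynomial.psum (Fin n) ℂ a.2)‖ ≤ X ^ a.2 := by
          rw [MvPolynomial.psum, map_sum]
          simp only [map_pow, MvPolynomial.aeval_X]
          exact hp a.2 (by omega) (by omega)
        calc _ ≤ X ^ a.1 * X ^ a.2 := mul_le_mul (ih a.1 h5 (by omega)) h6 (norm_nonneg _) (by positivity)
          _ = X ^ k := by rw [← pow_add, h4]
      have h7 : (antidiagonal k |>.filter fun a => a.1 < k).card = k := by
        have h8 : (antidiagonal k).filter (fun a => a.1 < k) = (Finset.range k).image (fun i => (i, k - i)) := by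
          ext ⟨x, y⟩
          simp only [Finset.mem_filter, Finset.HasAntidiagonal.mem_antidiagonal, Finset.mem_image, Finset.mem_range, Prod.mk.injEq]
          constructor
          · rintro ⟨h9, h10⟩
            exact ⟨x, h10, rfl, by omega⟩
          · rintro ⟨i, h9, rfl, rfl⟩
            exact ⟨by omega, h9⟩
        rw [h8, Finset.card_image_of_injective, Finset.card_range]
        intro x y hxy
        exact (Prod.mk.inj hxy).1
      rw [Finset.sum_const, h7, nsmul_eq_mul] at h1
      exact le_of_mul_le_mul_left h1 (by exact_mod_cast h0)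

end NewtAux

theorem newt : S_NEWT := by
  intro n b X hX hp i
  by_contra hlt
  push Not at hlt
  have he := NewtAux.esymm_le n b X hX hp
  set z := b i with hz
  have hzpos : 0 < ‖z‖ := lt_trans (by positivity) hlt
  -- the polynomial identity
  have hpoly := congrArg (Polynomial.eval z) (Multiset.prod_X_sub_X_eq_sum_esymm (Finset.univ.val.map b))
  have hroot : Polynomial.eval z (((Finset.univ.val.map b).map fun t => Polynomial.X - Polynomial.C t).prod) = 0 := by
    rw [Polynomial.eval_multiset_prod]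
    apply Multiset.prod_eq_zero
    rw [Multiset.mem_map]
    refine ⟨Polynomial.X - Polynomial.C (b i), ?_, by simp [hz]⟩
    rw [Multiset.mem_map]
    exact ⟨b i, Multiset.mem_map.2 ⟨i, Finset.mem_univ_val i, rfl⟩, rfl⟩
  rw [hroot, Polynomial.eval_finset_sum] at hpoly
  have hcard : Multiset.card (Finset.univ.val.map b) = n := by simp
  rw [hcard, Finset.sum_range_succ'] at hpoly
  have h0 : Polynomial.eval z ((-1) ^ 0 * (Polynomial.C ((Finset.univ.val.map b).esymm 0) *
      Polynomial.X ^ (n - 0))) = z ^ n := by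
    simp [Multiset.esymm]
  rw [h0] at hpoly
  have h1 : z ^ n = - ∑ j ∈ range n, Polynomial.eval z ((-1) ^ (j + 1) *
      (Polynomial.C ((Finset.univ.val.map b).esymm (j + 1)) * Polynomial.X ^ (n - (j + 1)))) := by
    linear_combination -hpoly
  have h2 : ‖z‖ ^ n ≤ ∑ j ∈ range n, ‖z‖ ^ n * (1 / 2) ^ (j + 1) := by
    have h2a : ‖z‖ ^ n ≤ ∑ j ∈ range n, ‖Polynomial.eval z ((-1) ^ (j + 1) *
        (Polynomial.C ((Finset.univ.val.map b).esymm (j + 1)) * Polynomial.X ^ (n - (j + 1))))‖ := by
      rw [← norm_pow, h1, norm_neg]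
      exact norm_sum_le _ _
    refine h2a.trans (Finset.sum_le_sum fun j hj => ?_)
    rw [Finset.mem_range] at hj
    have h3 := he (j + 1) (by omega)
    rw [MvPolynomial.aeval_esymm_eq_multiset_esymm] at h3
    simp only [Polynomial.eval_mul, Polynomial.eval_pow, Polynomial.eval_neg, Polynomial.eval_one, Polynomial.eval_C,
      Polynomial.eval_X, norm_mul, norm_pow, norm_neg, norm_one, one_pow, one_mul]
    have h4 : X ≤ ‖z‖ * (1 / 2) := by linarith
    calc ‖(Finset.univ.val.map b).esymm (j + 1)‖ * ‖z‖ ^ (n - (j + 1))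
        ≤ X ^ (j + 1) * ‖z‖ ^ (n - (j + 1)) := mul_le_mul_of_nonneg_right h3 (by positivity)
      _ ≤ (‖z‖ * (1 / 2)) ^ (j + 1) * ‖z‖ ^ (n - (j + 1)) :=
          mul_le_mul_of_nonneg_right (pow_le_pow_left₀ hX.le h4 _) (by positivity)
      _ = ‖z‖ ^ n * (1 / 2) ^ (j + 1) := by
          rw [mul_pow]
          have h5 : ‖z‖ ^ n = ‖z‖ ^ (j + 1) * ‖z‖ ^ (n - (j + 1)) := by rw [← pow_add]; congr 1; omega
          rw [h5]; ring
  rw [← Finset.mul_sum] at h2
  have h6 : ∑ j ∈ range n, ((1 : ℝ) / 2) ^ (j + 1) < 1 := by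
    have h7 : ∀ m : ℕ, ∑ j ∈ range m, ((1 : ℝ) / 2) ^ (j + 1) = 1 - (1 / 2) ^ m := by
      intro m
      induction m with
      | zero => simp
      | succ m ih => rw [Finset.sum_range_succ, ih, pow_succ]; ring
    rw [h7]
    have : (0 : ℝ) < (1 / 2) ^ n := by positivity
    linarith
  have h8 : (0 : ℝ) < ‖z‖ ^ n := by positivity
  nlinarith

end Pool.Agent.N846.AT
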