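import Pool.Agent.N846.AT.Stm

/-!
# Project AT, STAR (helper645): integrability of the star products on the torus
-/

set_option autoImplicit false

namespace Pool.Agent.N846.AT.Star

open Finset Complex MeasureTheory

/-- the point of the circle -/
noncomputable def E (u : ℝ) : ℂ := Complex.exp (2 * (Real.pi : ℂ) * (u : ℂ) * Complex.I)

/-- the periodic function -/
noncomputable def h (s u : ℝ) : ℝ := ‖E u - 1‖ ^ (-s)

lemma E_cont : Continuous E := by
  unfold E
  fun_prop

lemma E_add (u v : ℝ) : E (u + v) = E u * E v := by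
  unfold E
  rw [← Complex.exp_add]
  congr 1
  push_cast
  ring

lemma E_norm (u : ℝ) : ‖E u‖ = 1 := by
  unfold E
  have : (2 * (Real.pi : ℂ) * (u : ℂ) * Complex.I) = ((2 * Real.pi * u : ℝ) : ℂ) * Complex.I := by
    push_cast; ring
  rw [this, Complex.norm_exp_ofReal_mul_I]

lemma E_one : E 1 = 1 := by
  unfold E
  have : (2 * (Real.pi : ℂ) * ((1 : ℝ) : ℂ) * Complex.I) = 2 * Real.pi * Complex.I := by
    push_cast; ring
  rw [this, Complex.exp_two_pi_mul_I]

lemma E_sub (u v : ℝ) : ‖E u - E v‖ = ‖E (v - u) - 1‖ := by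
  have h1 : E v = E u * E (v - u) := by rw [← E_add]; congr 1; ring
  rw [h1, norm_sub_rev]
  have h2 : E u * E (v - u) - E u = E u * (E (v - u) - 1) := by ring
  rw [h2, norm_mul, E_norm, one_mul]

lemma h_per (s : ℝ) : Function.Periodic (h s) 1 := by
  intro u
  unfold h
  rw [E_add, E_one, mul_one]

lemma h_nonneg (s u : ℝ) : 0 ≤ h s u := Real.rpow_nonneg (norm_nonneg _) _

lemma h_meas (s : ℝ) : Measurable (h s) := by
  unfold h
  exact ((E_cont.sub continuous_const).norm.measurable).pow_const _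

lemma norm_E (u : ℝ) : ‖E u - 1‖ = 2 * |Real.sin (Real.pi * u)| := by
  have h1 : E u - 1 = Complex.exp ((Real.pi * u : ℝ) * Complex.I) *
      (2 * Complex.I * Complex.sin ((Real.pi * u : ℝ) : ℂ)) := by
    unfold E
    rw [Complex.sin]
    have e1 : (2 * (Real.pi : ℂ) * (u : ℂ) * Complex.I) = ((Real.pi * u : ℝ) : ℂ) * Complex.I +
        ((Real.pi * u : ℝ) : ℂ) * Complex.I := by push_cast; ring
    rw [e1, Complex.exp_add]
    have e2 : Complex.exp (((Real.pi * u : ℝ) : ℂ) * Complex.I) *
        Complex.exp (-((Real.pi * u : ℝ) : ℂ) * Complex.I) = 1 := by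
      rw [← Complex.exp_add]
      have : ((Real.pi * u : ℝ) : ℂ) * Complex.I + -((Real.pi * u : ℝ) : ℂ) * Complex.I = 0 := by ring
      rw [this, Complex.exp_zero]
    have e3 : Complex.I * Complex.I = -1 := Complex.I_mul_I
    linear_combination e2 +
      (-(Complex.exp (-((Real.pi * u : ℝ) : ℂ) * Complex.I) - Complex.exp (((Real.pi * u : ℝ) : ℂ) * Complex.I))
        * Complex.exp (((Real.pi * u : ℝ) : ℂ) * Complex.I)) * e3
  rw [h1, norm_mul, Complex.norm_exp_ofReal_mul_I, one_mul, norm_mul, norm_mul, Complex.norm_I, mul_one]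
  rw [← Complex.ofReal_sin, Complex.norm_real, Real.norm_eq_abs]
  norm_num

lemma h_le {s : ℝ} (hs : 0 ≤ s) {u : ℝ} (h0 : 0 ≤ u) (h1 : u ≤ 1) :
    h s u ≤ u ^ (-s) + (1 - u) ^ (-s) := by
  have hpi := Real.pi_pos
  unfold h
  rw [norm_E]
  rcases eq_or_lt_of_le h0 with h2 | h2
  · subst h2
    simp only [mul_zero, Real.sin_zero, abs_zero, sub_zero, Real.one_rpow]
    linarith
  rcases eq_or_lt_of_le h1 with h3 | h3
  · subst h3
    simp only [mul_one, Real.sin_pi, abs_zero, mul_zero, sub_self, Real.one_rpow]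
    linarith
  rcases le_total u (1 / 2) with h4 | h4
  · have h5 := Real.mul_le_sin (x := Real.pi * u) (by positivity) (by nlinarith)
    have h6 : 2 / Real.pi * (Real.pi * u) = 2 * u := by field_simp
    rw [h6] at h5
    have h7 : u ≤ 2 * |Real.sin (Real.pi * u)| := by
      have := le_abs_self (Real.sin (Real.pi * u))
      linarith
    have h8 := Real.rpow_le_rpow_of_nonpos h2 h7 (by linarith : -s ≤ 0)
    have h9 : 0 ≤ (1 - u) ^ (-s) := Real.rpow_nonneg (by linarith) _
    linarith
  · have h5 := Real.mul_le_sin (x := Real.pi * (1 - u)) (by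
      have : 0 ≤ 1 - u := by linarith
      positivity) (by nlinarith)
    have h6 : 2 / Real.pi * (Real.pi * (1 - u)) = 2 * (1 - u) := by field_simp
    rw [h6] at h5
    have h10 : Real.sin (Real.pi * (1 - u)) = Real.sin (Real.pi * u) := by
      have : Real.pi * (1 - u) = Real.pi - Real.pi * u := by ring
      rw [this, Real.sin_pi_sub]
    rw [h10] at h5
    have h7 : 1 - u ≤ 2 * |Real.sin (Real.pi * u)| := by
      have := le_abs_self (Real.sin (Real.pi * u))
      linarith
    have h8 := Real.rpow_le_rpow_of_nonpos (by linarith : 0 < 1 - u) h7 (by linarith : -s ≤ 0)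
    have h9 : 0 ≤ u ^ (-s) := Real.rpow_nonneg h0 _
    linarith

lemma h_int {s : ℝ} (hs : 0 ≤ s) (hs1 : s < 1) (a b : ℝ) : IntervalIntegrable (h s) volume a b := by
  refine (h_per s).intervalIntegrable₀ one_ne_zero ?_ a b
  have h1 : IntervalIntegrable (fun x : ℝ => x ^ (-s)) volume 0 1 :=
    intervalIntegral.intervalIntegrable_rpow' (by linarith)
  have h2 : IntervalIntegrable (fun x : ℝ => (1 - x) ^ (-s)) volume 0 1 := by
    have h3 := (intervalIntegral.intervalIntegrable_rpow' (a := 0) (b := 1) (by linarith : -1 < -s)).comp_sub_left 1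
    simp only [sub_zero, sub_self] at h3
    exact h3.symm
  refine (h1.add h2).mono_fun (h_meas s).aestronglyMeasurable ?_
  rw [Filter.EventuallyLE, ae_restrict_iff' measurableSet_uIoc]
  refine Filter.Eventually.of_forall fun u hu => ?_
  rw [Set.uIoc_of_le zero_le_one] at hu
  rw [Real.norm_eq_abs, Real.norm_eq_abs, abs_of_nonneg (h_nonneg s u)]
  exact (h_le hs hu.1.le hu.2).trans (le_abs_self _)

/-- the measure on `[0, 1]` -/
noncomputable def μ1 : Measure ℝ := volume.restrict (Set.Icc (0 : ℝ) 1)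

instance : IsFiniteMeasure μ1 := by unfold μ1; infer_instance

lemma one_int {s : ℝ} (hs : 0 ≤ s) (hs1 : s < 1) (u : ℝ) :
    Integrable (fun v => ‖E u - E v‖ ^ (-s)) μ1 ∧
      ∫ v, ‖E u - E v‖ ^ (-s) ∂μ1 = ∫ v in (0 : ℝ)..1, h s v := by
  have e : (fun v => ‖E u - E v‖ ^ (-s)) = fun v => h s (v - u) := by
    funext v
    rw [E_sub]
    rfl
  have h1 : IntervalIntegrable (fun v => h s (v - u)) volume 0 1 := by
    have h2 := (h_int hs hs1 (0 - u) (1 - u)).comp_sub_right u
    simpa using h2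
  rw [e]
  unfold μ1
  constructor
  · have h3 := (intervalIntegrable_iff_integrableOn_Icc_of_le zero_le_one).1 h1
    exact h3
  · rw [integral_Icc_eq_integral_Ioc, ← intervalIntegral.integral_of_le zero_le_one,
      intervalIntegral.integral_comp_sub_right (fun v => h s v)]
    have h4 := (h_per s).intervalIntegral_add_eq (0 - u) 0
    rw [zero_add] at h4
    rw [← h4]
    congr 1
    ring

lemma F_meas (m : ℕ) (s : ℝ) :
    Measurable (fun p : ℝ × (Fin m → ℝ) => ∏ i, ‖E p.1 - E (p.2 i)‖ ^ (-s)) := by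
  refine Finset.measurable_prod _ fun i _ => ?_
  refine Measurable.pow_const ?_ _
  refine Continuous.measurable ?_
  exact ((E_cont.comp continuous_fst).sub (E_cont.comp ((continuous_apply i).comp continuous_snd))).norm

lemma F_int {s : ℝ} (hs : 0 ≤ s) (hs1 : s < 1) (m : ℕ) :
    Integrable (fun p : ℝ × (Fin m → ℝ) => ∏ i, ‖E p.1 - E (p.2 i)‖ ^ (-s))
      (μ1.prod (Measure.pi fun _ : Fin m => μ1)) := by
  rw [integrable_prod_iff (F_meas m s).aestronglyMeasurable]
  constructor
  · refine Filter.Eventually.of_forall fun u => ?_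
    exact Integrable.fintype_prod (μ := fun _ : Fin m => μ1) (f := fun _ v => ‖E u - E v‖ ^ (-s))
      fun _ => (one_int hs hs1 u).1
  · have e : (fun u : ℝ => ∫ w : Fin m → ℝ, ‖∏ i, ‖E u - E (w i)‖ ^ (-s)‖ ∂(Measure.pi fun _ : Fin m => μ1)) =
        fun _ => (∫ v in (0 : ℝ)..1, h s v) ^ m := by
      funext u
      have e1 : ∀ w : Fin m → ℝ, ‖∏ i, ‖E u - E (w i)‖ ^ (-s)‖ = ∏ i, ‖E u - E (w i)‖ ^ (-s) := by
        intro w
        rw [Real.norm_eq_abs, abs_of_nonneg]
        exact Finset.prod_nonneg fun i _ => Real.rpow_nonneg (norm_nonneg _) _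
      simp_rw [e1]
      rw [integral_fintype_prod_eq_prod (μ := fun _ : Fin m => μ1) (fun _ v => ‖E u - E v‖ ^ (-s))]
      rw [Finset.prod_const, (one_int hs hs1 u).2, Finset.card_univ, Fintype.card_fin]
    rw [e]
    exact integrable_const _

end Pool.Agent.N846.AT.Star

namespace Pool.Agent.N846.AT

open Finset Complex MeasureTheory

/-- **STAR**: integrability of the star products. -/
theorem star : S_STAR := by
  intro n k s hs hs1
  obtain ⟨m, rfl⟩ : ∃ m, n = m + 1 := ⟨n - 1, by have := k.2; omega⟩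
  have hμ : (volume : Measure (Fin (m + 1) → ℝ)).restrict (Set.Icc (0 : Fin (m + 1) → ℝ) 1) =
      Measure.pi fun _ => Star.μ1 := by
    rw [volume_pi, ← Set.pi_univ_Icc, Measure.restrict_pi_pi]
    rfl
  unfold IntegrableOn
  rw [hμ]
  have hmp := measurePreserving_piFinSuccAbove (fun _ : Fin (m + 1) => Star.μ1) k
  have hF := (hmp.integrable_comp_emb (MeasurableEquiv.measurableEmbedding _)).2 (Star.F_int hs hs1 m)
  refine hF.congr (Filter.Eventually.of_forall fun θ => ?_)
  have he : (univ.erase k : Finset (Fin (m + 1))) = univ.image k.succAbove := by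
    ext j
    simp
  show ∏ i, ‖Star.E (θ k) - Star.E (θ (k.succAbove i))‖ ^ (-s) = ∏ j ∈ univ.erase k, ‖pt θ k - pt θ j‖ ^ (-s)
  rw [he, Finset.prod_image (fun x _ y _ h => Fin.succAbove_right_injective h)]
  rfl

end Pool.Agent.N846.AT
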