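import Pool.Agent.N846.AT.Stm2
import Pool.Agent.N846.AT.Star
import Pool.Agent.N846.AT.Mean

/-!
# Project AT, STARSP: domination on the torus of `Sp(2n)` (written by helper498)

The one-variable integral needs no substitution: `‖z_l - 1/z_l‖ ≤ ‖z_i - z_l‖ + ‖z_i - 1/z_l‖`.
-/

set_option autoImplicit false

namespace Pool.Agent.N846.AT

open Finset Complex MeasureTheory
open scoped BigOperators ComplexConjugate

namespace StarspAux

open _root_.Pool.Agent.N846.AT.Star (E h E_norm E_add E_cont E_sub h_int h_nonneg h_meas μ1 one_int)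

noncomputable def A (u v : ℝ) : ℝ := ‖E u - E v‖
noncomputable def B (u v : ℝ) : ℝ := ‖E (-u) - E v‖
noncomputable def S (u : ℝ) : ℝ := ‖E u - E (-u)‖

lemma E_zero : E 0 = 1 := by simp [E]

lemma E_mul_neg (u : ℝ) : E u * E (-u) = 1 := by
  rw [← E_add, add_neg_cancel, E_zero]

lemma E_neg (u : ℝ) : E (-u) = (E u)⁻¹ := eq_inv_of_mul_eq_one_right (E_mul_neg u)

lemma pt_eq {n : ℕ} (θ : Fin n → ℝ) (i : Fin n) : pt θ i = E (θ i) := rfl

lemma A_nonneg (u v : ℝ) : 0 ≤ A u v := norm_nonneg _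
lemma B_nonneg (u v : ℝ) : 0 ≤ B u v := norm_nonneg _
lemma S_nonneg (u : ℝ) : 0 ≤ S u := norm_nonneg _

lemma A_le (u v : ℝ) : A u v ≤ 2 := by
  have := norm_sub_le (E u) (E v)
  rw [E_norm, E_norm] at this
  unfold A
  linarith

lemma B_le (u v : ℝ) : B u v ≤ 2 := A_le (-u) v

lemma S_le (u : ℝ) : S u ≤ 2 := A_le u (-u)

lemma A_symm (u v : ℝ) : A u v = A v u := norm_sub_rev _ _

lemma B_eq (u v : ℝ) : ‖E u - E (-v)‖ = B u v := by
  have h1 : E (-u) - E v = E (-u) * E v * (E (-v) - E u) := by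
    linear_combination (E v) * (E_mul_neg u) - E (-u) * (E_mul_neg v)
  unfold B
  rw [h1, norm_mul, norm_mul, E_norm, E_norm, one_mul, one_mul, norm_sub_rev]

lemma B_symm (u v : ℝ) : B u v = B v u := by
  rw [← B_eq, norm_sub_rev]
  rfl

lemma A_neg (u v : ℝ) : ‖E (-u) - E (-v)‖ = A u v := by
  have h1 : E u - E v = E u * E v * (E (-v) - E (-u)) := by
    linear_combination - (E u) * (E_mul_neg v) + E v * (E_mul_neg u)
  unfold A
  rw [h1, norm_mul, norm_mul, E_norm, E_norm, one_mul, one_mul, norm_sub_rev]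

lemma one_sub_sq (u : ℝ) : ‖1 - E u ^ 2‖ = S u := by
  have h1 : E u - E (-u) = -(E (-u) * (1 - E u ^ 2)) := by
    linear_combination (-E u) * (E_mul_neg u)
  unfold S
  rw [h1, norm_neg, norm_mul, E_norm, one_mul]

lemma one_sub_mul (u v : ℝ) : ‖1 - E u * E v‖ = B u v := by
  have h1 : E (-u) - E v = E (-u) * (1 - E u * E v) := by
    linear_combination (E v) * (E_mul_neg u)
  unfold B
  rw [h1, norm_mul, E_norm, one_mul]

lemma one_sub_mul_inv (u v : ℝ) : ‖1 - E u * (E v)⁻¹‖ = A u v := by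
  have h1 : E u - E v = -(E v * (1 - E u * E (-v))) := by
    linear_combination (-E u) * (E_mul_neg v)
  unfold A
  rw [h1, norm_neg, norm_mul, E_norm, one_mul, E_neg]

lemma S_le_add (u v : ℝ) : S v ≤ A u v + B u v := by
  rw [← B_eq, A_symm]
  unfold S A
  have h1 : E v - E (-v) = (E v - E u) + (E u - E (-v)) := by ring
  rw [h1]
  exact norm_add_le _ _

lemma fac {q : ℝ} (hq : 2 ≤ q) {w : ℂ} (hw : ‖w‖ = 1) :
    ‖1 - w‖ ^ 2 / ‖1 - w / (q : ℂ)‖ ^ 2 ≤ 4 * ‖1 - w‖ ^ 2 := by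
  have hq0 : 0 < q := by linarith
  have h1 : ‖w / (q : ℂ)‖ ≤ 1 / 2 := by
    rw [norm_div, hw, Complex.norm_real, Real.norm_eq_abs, abs_of_pos hq0]
    exact one_div_le_one_div_of_le (by norm_num) hq
  have h2 : (1 : ℝ) / 2 ≤ ‖1 - w / (q : ℂ)‖ := by
    have := norm_sub_norm_le (1 : ℂ) (w / (q : ℂ))
    rw [norm_one] at this
    linarith
  have h3 : (1 / 2 : ℝ) ^ 2 ≤ ‖1 - w / (q : ℂ)‖ ^ 2 := pow_le_pow_left₀ (by norm_num) h2 2
  have h5 : 0 < ‖1 - w / (q : ℂ)‖ ^ 2 := lt_of_lt_of_le (by norm_num) h3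
  have h6 : 0 ≤ ‖1 - w‖ ^ 2 := by positivity
  rw [div_le_iff₀ h5]
  nlinarith

noncomputable def C1 (n : ℕ) : ℝ := ∏ i : Fin n, ∏ _j ∈ univ.filter (fun j => i < j), (16 : ℝ)

lemma C1_nonneg (n : ℕ) : 0 ≤ C1 n := prod_nonneg fun _ _ => prod_nonneg fun _ _ => by norm_num

lemma dens_nonneg {n : ℕ} (q : ℝ) (θ : Fin n → ℝ) : 0 ≤ densSp q θ := by
  unfold densSp
  exact mul_nonneg (prod_nonneg fun _ _ => by positivity)
    (prod_nonneg fun _ _ => prod_nonneg fun _ _ => by positivity)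

lemma dens_le {n : ℕ} {q : ℝ} (hq : 2 ≤ q) (θ : Fin n → ℝ) (k : Fin n) :
    densSp q θ ≤ (4 ^ n * C1 n * (4 ^ (n ^ 2)) ^ 2) *
      ((S (θ k) ^ 2 * ∏ j ∈ univ.erase k, (A (θ k) (θ j) * B (θ k) (θ j)) ^ 2) *
        ∏ j ∈ univ.erase k, S (θ j) ^ 2) := by
  have h1 : densSp q θ ≤ (∏ i, (4 * S (θ i) ^ 2)) *
      ∏ i, ∏ j ∈ univ.filter (fun j => i < j), (16 * (A (θ i) (θ j) * B (θ i) (θ j)) ^ 2) := by
    unfold densSp
    refine mul_le_mul (prod_le_prod (fun i _ => by positivity) fun i _ => ?_)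
      (prod_le_prod (fun i _ => prod_nonneg fun j _ => by positivity) fun i _ =>
        prod_le_prod (fun j _ => by positivity) fun j _ => ?_)
      (prod_nonneg fun i _ => prod_nonneg fun j _ => by positivity)
      (prod_nonneg fun i _ => by positivity)
    · have h2 := fac hq (w := pt θ i ^ 2) (by rw [norm_pow, pt_eq, E_norm, one_pow])
      rw [pt_eq, one_sub_sq] at h2
      rw [pt_eq, one_sub_sq]
      exact h2
    · have h2 := fac hq (w := pt θ i * pt θ j) (by rw [norm_mul, pt_eq, pt_eq, E_norm, E_norm, one_mul])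
      have h3 := fac hq (w := pt θ i * (pt θ j)⁻¹)
        (by rw [norm_mul, norm_inv, pt_eq, pt_eq, E_norm, E_norm, one_mul, inv_one])
      rw [pt_eq, pt_eq, one_sub_mul] at h2
      rw [pt_eq, pt_eq, one_sub_mul_inv] at h3
      rw [pt_eq, pt_eq, one_sub_mul, one_sub_mul_inv]
      refine (mul_le_mul h2 h3 (by positivity) (by positivity)).trans_eq ?_
      ring
  have h2 : ∏ i, ∏ j ∈ univ.filter (fun j => i < j), (16 * (A (θ i) (θ j) * B (θ i) (θ j)) ^ 2) =
      C1 n * (∏ i, ∏ j ∈ univ.filter (fun j => i < j), (A (θ i) (θ j) * B (θ i) (θ j))) ^ 2 := by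
    unfold C1
    rw [← prod_pow, ← prod_mul_distrib]
    refine prod_congr rfl fun i _ => ?_
    rw [← prod_pow, ← prod_mul_distrib]
  have h3 := Mean.pair_bound (fun i j => A (θ i) (θ j) * B (θ i) (θ j))
    (fun i j => mul_nonneg (A_nonneg _ _) (B_nonneg _ _))
    (fun i j => by
      have := mul_le_mul (A_le (θ i) (θ j)) (B_le (θ i) (θ j)) (B_nonneg _ _) (by norm_num : (0 : ℝ) ≤ 2)
      linarith)
    (fun i j => by
      show A _ _ * B _ _ = A _ _ * B _ _
      rw [A_symm, B_symm]) k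
  have h4 : 0 ≤ ∏ i, ∏ j ∈ univ.filter (fun j => i < j), (A (θ i) (θ j) * B (θ i) (θ j)) :=
    prod_nonneg fun _ _ => prod_nonneg fun _ _ => mul_nonneg (A_nonneg _ _) (B_nonneg _ _)
  have h5 := pow_le_pow_left₀ h4 h3 2
  have h6 : ∏ i, (4 * S (θ i) ^ 2) = 4 ^ n * (S (θ k) ^ 2 * ∏ j ∈ univ.erase k, S (θ j) ^ 2) := by
    rw [prod_mul_distrib, prod_const, card_univ, Fintype.card_fin, mul_prod_erase univ (fun j => S (θ j) ^ 2) (mem_univ k)]
  have h7 : 0 ≤ 4 ^ n * (S (θ k) ^ 2 * ∏ j ∈ univ.erase k, S (θ j) ^ 2) :=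
    mul_nonneg (by positivity) (mul_nonneg (by positivity) (prod_nonneg fun _ _ => by positivity))
  rw [h2, h6] at h1
  refine h1.trans ((mul_le_mul_of_nonneg_left (mul_le_mul_of_nonneg_left h5 (C1_nonneg n)) h7).trans_eq ?_)
  rw [mul_pow, ← prod_pow]
  ring

lemma prod_erase_castAdd {n : ℕ} (f : Fin (n + n) → ℝ) (i : Fin n) :
    ∏ j ∈ univ.erase (Fin.castAdd n i), f j =
      f (Fin.natAdd n i) * ∏ l ∈ univ.erase i, (f (Fin.castAdd n l) * f (Fin.natAdd n l)) := by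
  have h1 : ∏ j ∈ univ.erase (Fin.castAdd n i), f j =
      ∏ j, (if j = Fin.castAdd n i then 1 else f j) := by
    rw [← prod_erase univ (a := Fin.castAdd n i)
      (f := fun j => if j = Fin.castAdd n i then 1 else f j) (by simp)]
    exact prod_congr rfl fun j hj => by rw [if_neg (ne_of_mem_erase hj)]
  have h2 : ∏ l : Fin n, (if Fin.castAdd n l = Fin.castAdd n i then 1 else f (Fin.castAdd n l)) =
      ∏ l ∈ univ.erase i, f (Fin.castAdd n l) := by
    rw [← prod_erase univ (a := i) (by simp)]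
    refine prod_congr rfl fun j hj => by
      rw [if_neg]
      intro h
      exact ne_of_mem_erase hj (Fin.castAdd_injective n n h)
  have h3 : ∏ l : Fin n, (if Fin.natAdd n l = Fin.castAdd n i then 1 else f (Fin.natAdd n l)) =
      ∏ l : Fin n, f (Fin.natAdd n l) := by
    refine prod_congr rfl fun j hj => by
      rw [if_neg]
      intro h
      have := congrArg Fin.val h
      simp at this
      have := i.2
      omega
  rw [h1, Fin.prod_univ_add, h2, h3, ← mul_prod_erase univ (fun l => f (Fin.natAdd n l)) (mem_univ i),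
    prod_mul_distrib]
  ring

lemma prod_erase_natAdd {n : ℕ} (f : Fin (n + n) → ℝ) (i : Fin n) :
    ∏ j ∈ univ.erase (Fin.natAdd n i), f j =
      f (Fin.castAdd n i) * ∏ l ∈ univ.erase i, (f (Fin.castAdd n l) * f (Fin.natAdd n l)) := by
  have h1 : ∏ j ∈ univ.erase (Fin.natAdd n i), f j =
      ∏ j, (if j = Fin.natAdd n i then 1 else f j) := by
    rw [← prod_erase univ (a := Fin.natAdd n i)
      (f := fun j => if j = Fin.natAdd n i then 1 else f j) (by simp)]
    exact prod_congr rfl fun j hj => by rw [if_neg (ne_of_mem_erase hj)]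
  have h2 : ∏ l : Fin n, (if Fin.natAdd n l = Fin.natAdd n i then 1 else f (Fin.natAdd n l)) =
      ∏ l ∈ univ.erase i, f (Fin.natAdd n l) := by
    rw [← prod_erase univ (a := i) (by simp)]
    refine prod_congr rfl fun j hj => by
      rw [if_neg]
      intro h
      exact ne_of_mem_erase hj (Fin.natAdd_injective n n h)
  have h3 : ∏ l : Fin n, (if Fin.castAdd n l = Fin.natAdd n i then 1 else f (Fin.castAdd n l)) =
      ∏ l : Fin n, f (Fin.castAdd n l) := by
    refine prod_congr rfl fun j hj => by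
      rw [if_neg]
      intro h
      have := congrArg Fin.val h
      simp at this
      have := j.2
      omega
  rw [h1, Fin.prod_univ_add, h2, h3, ← mul_prod_erase univ (fun l => f (Fin.castAdd n l)) (mem_univ i),
    prod_mul_distrib]
  ring

lemma sp_castAdd {n : ℕ} (θ : Fin n → ℝ) (i : Fin n) : sp θ (Fin.castAdd n i) = E (θ i) := by
  unfold sp
  rw [Fin.append_left, pt_eq]

lemma sp_natAdd {n : ℕ} (θ : Fin n → ℝ) (i : Fin n) : sp θ (Fin.natAdd n i) = E (-θ i) := by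
  unfold sp
  rw [Fin.append_right, pt_eq, E_neg]

lemma star_eq {n : ℕ} (θ : Fin n → ℝ) (k : Fin (n + n)) : ∃ i : Fin n,
    ∏ j ∈ univ.erase k, (‖sp θ k - sp θ j‖ ^ 2)⁻¹ =
      (S (θ i) ^ 2 * ∏ j ∈ univ.erase i, (A (θ i) (θ j) * B (θ i) (θ j)) ^ 2)⁻¹ := by
  refine Fin.addCases (fun i => ⟨i, ?_⟩) (fun i => ⟨i, ?_⟩) k
  · rw [prod_erase_castAdd, mul_inv, ← prod_inv_distrib]
    simp only [sp_castAdd, sp_natAdd]
    congr 1
    refine prod_congr rfl fun l _ => ?_
    rw [B_eq, ← mul_inv, ← mul_pow]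
    rfl
  · rw [prod_erase_natAdd, mul_inv, ← prod_inv_distrib]
    simp only [sp_castAdd, sp_natAdd]
    rw [norm_sub_rev (E (-θ i)) (E (θ i))]
    congr 1
    refine prod_congr rfl fun l _ => ?_
    rw [A_neg, ← mul_inv, ← mul_pow, mul_comm]
    rfl

lemma self_mul_rpow_le {s a : ℝ} (hs : 0 ≤ s) (hs1 : s < 1) (ha : 0 < a) (ha2 : a ≤ 2) :
    a * a ^ (-s) ≤ 2 := by
  have h1 : a * a ^ (-s) = a ^ (1 - s) := by
    rw [sub_eq_add_neg, Real.rpow_add ha, Real.rpow_one]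
  rw [h1]
  calc a ^ (1 - s) ≤ 2 ^ (1 - s) := Real.rpow_le_rpow ha.le ha2 (by linarith)
    _ ≤ 2 ^ (1 : ℝ) := Real.rpow_le_rpow_of_exponent_le (by norm_num) (by linarith)
    _ = 2 := Real.rpow_one 2

lemma pw {s a b c : ℝ} (hs : 0 ≤ s) (hs1 : s < 1) (ha : 0 < a) (hb : 0 < b) (ha2 : a ≤ 2)
    (hb2 : b ≤ 2) (hc0 : 0 ≤ c) (hc2 : c ≤ 2) (hc : c ≤ a + b) :
    (a * b) ^ (-s) * c ^ 2 ≤ 4 * (a ^ (-s) + b ^ (-s)) := by
  have h1 : c ^ 2 ≤ 2 * (a + b) := by nlinarith
  have hA := Real.rpow_pos_of_pos ha (-s)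
  have hB := Real.rpow_pos_of_pos hb (-s)
  have h2 := self_mul_rpow_le hs hs1 ha ha2
  have h3 := self_mul_rpow_le hs hs1 hb hb2
  rw [Real.mul_rpow ha.le hb.le]
  calc a ^ (-s) * b ^ (-s) * c ^ 2 ≤ a ^ (-s) * b ^ (-s) * (2 * (a + b)) :=
        mul_le_mul_of_nonneg_left h1 (mul_pos hA hB).le
    _ = 2 * ((a * a ^ (-s)) * b ^ (-s) + (b * b ^ (-s)) * a ^ (-s)) := by ring
    _ ≤ 2 * (2 * b ^ (-s) + 2 * a ^ (-s)) := by
        have h4 := mul_le_mul_of_nonneg_right h2 hB.le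
        have h5 := mul_le_mul_of_nonneg_right h3 hA.le
        linarith
    _ = 4 * (a ^ (-s) + b ^ (-s)) := by ring

lemma sq_rpow {x s : ℝ} (hx : 0 ≤ x) : (x ^ 2) ^ (-(s / 2)) = x ^ (-s) := by
  rw [← Real.rpow_natCast x 2, ← Real.rpow_mul hx]
  congr 1
  push_cast
  ring

/-- the dominating function for the index `i` -/
noncomputable def G (n : ℕ) (s : ℝ) (i : Fin n) (θ : Fin n → ℝ) : ℝ :=
  S (θ i) ^ (-s) * ∏ j ∈ univ.erase i, (A (θ i) (θ j) ^ (-s) + B (θ i) (θ j) ^ (-s))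

lemma G_nonneg (n : ℕ) (s : ℝ) (i : Fin n) (θ : Fin n → ℝ) : 0 ≤ G n s i θ :=
  mul_nonneg (Real.rpow_nonneg (S_nonneg _) _) (prod_nonneg fun _ _ =>
    add_nonneg (Real.rpow_nonneg (A_nonneg _ _) _) (Real.rpow_nonneg (B_nonneg _ _) _))

lemma main_bound {n : ℕ} {s q : ℝ} (hs : 0 ≤ s) (hs1 : s < 1) (hq : 2 ≤ q) (θ : Fin n → ℝ) (i : Fin n)
    (hS : S (θ i) ≠ 0) (hA : ∀ j, j ≠ i → A (θ i) (θ j) ≠ 0) (hB : ∀ j, j ≠ i → B (θ i) (θ j) ≠ 0) :
    ((S (θ i) ^ 2 * ∏ j ∈ univ.erase i, (A (θ i) (θ j) * B (θ i) (θ j)) ^ 2)⁻¹) ^ (1 + s / 2) *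
      densSp q θ ≤ (4 ^ n * C1 n * (4 ^ (n ^ 2)) ^ 2) * (4 ^ n * G n s i θ) := by
  have hS' : 0 < S (θ i) := lt_of_le_of_ne (S_nonneg _) (Ne.symm hS)
  have hA' : ∀ j ∈ univ.erase i, 0 < A (θ i) (θ j) := fun j hj =>
    lt_of_le_of_ne (A_nonneg _ _) (Ne.symm (hA j (ne_of_mem_erase hj)))
  have hB' : ∀ j ∈ univ.erase i, 0 < B (θ i) (θ j) := fun j hj =>
    lt_of_le_of_ne (B_nonneg _ _) (Ne.symm (hB j (ne_of_mem_erase hj)))
  set X : ℝ := S (θ i) ^ 2 * ∏ j ∈ univ.erase i, (A (θ i) (θ j) * B (θ i) (θ j)) ^ 2 with hX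
  have hX0 : 0 < X := mul_pos (pow_pos hS' 2) (prod_pos fun j hj => pow_pos (mul_pos (hA' j hj) (hB' j hj)) 2)
  have h1 := dens_le hq θ i
  rw [← hX] at h1
  have hC : 0 ≤ 4 ^ n * C1 n * (4 ^ (n ^ 2)) ^ 2 :=
    mul_nonneg (mul_nonneg (by positivity) (C1_nonneg n)) (by positivity)
  have h2 : (X⁻¹) ^ (1 + s / 2) * X = X ^ (-(s / 2)) := by
    rw [Real.inv_rpow hX0.le, ← Real.rpow_neg hX0.le]
    nth_rewrite 2 [← Real.rpow_one X]
    rw [← Real.rpow_add hX0]
    congr 1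
    ring
  have h3 : X ^ (-(s / 2)) = S (θ i) ^ (-s) * ∏ j ∈ univ.erase i, (A (θ i) (θ j) * B (θ i) (θ j)) ^ (-s) := by
    rw [hX, Real.mul_rpow (by positivity) (prod_nonneg fun j _ => by positivity), sq_rpow (S_nonneg _),
      ← Real.finsetProd_rpow _ _ (fun j _ => by positivity)]
    congr 1
    exact prod_congr rfl fun j _ => sq_rpow (mul_nonneg (A_nonneg _ _) (B_nonneg _ _))
  have h0 : 0 ≤ (X⁻¹) ^ (1 + s / 2) := Real.rpow_nonneg (inv_nonneg.2 hX0.le) _
  calc (X⁻¹) ^ (1 + s / 2) * densSp q θ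
      ≤ (X⁻¹) ^ (1 + s / 2) * ((4 ^ n * C1 n * (4 ^ (n ^ 2)) ^ 2) * (X * ∏ j ∈ univ.erase i, S (θ j) ^ 2)) :=
        mul_le_mul_of_nonneg_left h1 h0
    _ = (4 ^ n * C1 n * (4 ^ (n ^ 2)) ^ 2) * (((X⁻¹) ^ (1 + s / 2) * X) * ∏ j ∈ univ.erase i, S (θ j) ^ 2) := by ring
    _ = (4 ^ n * C1 n * (4 ^ (n ^ 2)) ^ 2) * (S (θ i) ^ (-s) *
          ∏ j ∈ univ.erase i, ((A (θ i) (θ j) * B (θ i) (θ j)) ^ (-s) * S (θ j) ^ 2)) := by
        rw [h2, h3, prod_mul_distrib]
        ring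
    _ ≤ (4 ^ n * C1 n * (4 ^ (n ^ 2)) ^ 2) * (S (θ i) ^ (-s) *
          ∏ j ∈ univ.erase i, (4 * (A (θ i) (θ j) ^ (-s) + B (θ i) (θ j) ^ (-s)))) := by
        refine mul_le_mul_of_nonneg_left (mul_le_mul_of_nonneg_left
          (prod_le_prod (fun j _ => ?_) fun j hj => ?_) (Real.rpow_nonneg (S_nonneg _) _)) hC
        · exact mul_nonneg (Real.rpow_nonneg (mul_nonneg (A_nonneg _ _) (B_nonneg _ _)) _) (by positivity)
        · exact pw hs hs1 (hA' j hj) (hB' j hj) (A_le _ _) (B_le _ _) (S_nonneg _) (S_le _) (S_le_add _ _)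
    _ ≤ (4 ^ n * C1 n * (4 ^ (n ^ 2)) ^ 2) * (4 ^ n * G n s i θ) := by
        refine mul_le_mul_of_nonneg_left ?_ hC
        rw [prod_mul_distrib, prod_const]
        have h4 : (4 : ℝ) ^ ((univ : Finset (Fin n)).erase i).card ≤ 4 ^ n :=
          pow_le_pow_right₀ (by norm_num) (by
            calc ((univ : Finset (Fin n)).erase i).card ≤ (univ : Finset (Fin n)).card :=
                  card_le_card (erase_subset _ _)
              _ = n := by simp)
        calc S (θ i) ^ (-s) * (4 ^ ((univ : Finset (Fin n)).erase i).card *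
              ∏ j ∈ univ.erase i, (A (θ i) (θ j) ^ (-s) + B (θ i) (θ j) ^ (-s)))
            = 4 ^ ((univ : Finset (Fin n)).erase i).card * G n s i θ := by unfold G; ring
          _ ≤ 4 ^ n * G n s i θ := mul_le_mul_of_nonneg_right h4 (G_nonneg n s i θ)

lemma S_rpow (s u : ℝ) : S u ^ (-s) = h s (-2 * u) := by
  unfold S h
  rw [E_sub]
  congr 4
  ring

lemma S_integrable {s : ℝ} (hs : 0 ≤ s) (hs1 : s < 1) : Integrable (fun u => S u ^ (-s)) μ1 := by
  have h1 : (fun u => S u ^ (-s)) = fun u => h s (-2 * u) := funext fun u => S_rpow s u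
  have h2 := (h_int hs hs1 0 (-2)).comp_mul_left (c := -2)
  rw [h1]
  have h3 : IntervalIntegrable (fun u => h s (-2 * u)) volume 0 1 := by simpa using h2
  exact (intervalIntegrable_iff_integrableOn_Icc_of_le zero_le_one).1 h3

lemma F_meas (m : ℕ) (s : ℝ) :
    Measurable (fun p : ℝ × (Fin m → ℝ) => S p.1 ^ (-s) *
      ∏ i, (A p.1 (p.2 i) ^ (-s) + B p.1 (p.2 i) ^ (-s))) := by
  refine Measurable.mul (Measurable.pow_const ?_ _) (Finset.measurable_prod _ fun i _ =>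
    Measurable.add (Measurable.pow_const ?_ _) (Measurable.pow_const ?_ _))
  · exact ((E_cont.comp continuous_fst).sub (E_cont.comp continuous_fst.neg)).norm.measurable
  · exact (((E_cont.comp continuous_fst).sub
      (E_cont.comp ((continuous_apply i).comp continuous_snd))).norm).measurable
  · exact (((E_cont.comp continuous_fst.neg).sub
      (E_cont.comp ((continuous_apply i).comp continuous_snd))).norm).measurable

lemma F_int {s : ℝ} (hs : 0 ≤ s) (hs1 : s < 1) (m : ℕ) :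
    Integrable (fun p : ℝ × (Fin m → ℝ) => S p.1 ^ (-s) *
      ∏ i, (A p.1 (p.2 i) ^ (-s) + B p.1 (p.2 i) ^ (-s)))
      (μ1.prod (Measure.pi fun _ : Fin m => μ1)) := by
  have hI : ∀ u : ℝ, Integrable (fun v => A u v ^ (-s) + B u v ^ (-s)) μ1 := fun u =>
    (one_int hs hs1 u).1.add (one_int hs hs1 (-u)).1
  rw [integrable_prod_iff (F_meas m s).aestronglyMeasurable]
  constructor
  · refine Filter.Eventually.of_forall fun u => ?_
    exact (Integrable.fintype_prod (μ := fun _ : Fin m => μ1)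
      (f := fun _ v => A u v ^ (-s) + B u v ^ (-s)) fun _ => hI u).const_mul (S u ^ (-s))
  · have e : (fun u : ℝ => ∫ w : Fin m → ℝ, ‖S u ^ (-s) *
        ∏ i, (A u (w i) ^ (-s) + B u (w i) ^ (-s))‖ ∂(Measure.pi fun _ : Fin m => μ1)) =
        fun u => S u ^ (-s) * ((∫ v in (0 : ℝ)..1, h s v) + ∫ v in (0 : ℝ)..1, h s v) ^ m := by
      funext u
      have e1 : ∀ w : Fin m → ℝ, ‖S u ^ (-s) * ∏ i, (A u (w i) ^ (-s) + B u (w i) ^ (-s))‖ =
          S u ^ (-s) * ∏ i, (A u (w i) ^ (-s) + B u (w i) ^ (-s)) := by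
        intro w
        rw [Real.norm_eq_abs, abs_of_nonneg]
        exact mul_nonneg (Real.rpow_nonneg (S_nonneg _) _) (prod_nonneg fun _ _ =>
          add_nonneg (Real.rpow_nonneg (A_nonneg _ _) _) (Real.rpow_nonneg (B_nonneg _ _) _))
      simp_rw [e1]
      rw [integral_const_mul, integral_fintype_prod_eq_prod (μ := fun _ : Fin m => μ1)
        (fun _ v => A u v ^ (-s) + B u v ^ (-s))]
      rw [Finset.prod_const, Finset.card_univ, Fintype.card_fin]
      congr 2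
      have h1 : ∫ v, (A u v ^ (-s) + B u v ^ (-s)) ∂μ1 =
          ∫ v, A u v ^ (-s) ∂μ1 + ∫ v, B u v ^ (-s) ∂μ1 :=
        integral_add (one_int hs hs1 u).1 (one_int hs hs1 (-u)).1
      rw [h1]
      exact congrArg₂ (· + ·) (one_int hs hs1 u).2 (one_int hs hs1 (-u)).2
    rw [e]
    exact (S_integrable hs hs1).mul_const _

lemma G_int {s : ℝ} (hs : 0 ≤ s) (hs1 : s < 1) (n : ℕ) (k : Fin n) :
    IntegrableOn (G n s k) (Set.Icc (0 : Fin n → ℝ) 1) := by
  obtain ⟨m, rfl⟩ : ∃ m, n = m + 1 := ⟨n - 1, by have := k.2; omega⟩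
  have hμ : (volume : Measure (Fin (m + 1) → ℝ)).restrict (Set.Icc (0 : Fin (m + 1) → ℝ) 1) =
      Measure.pi fun _ => μ1 := by
    rw [volume_pi, ← Set.pi_univ_Icc, Measure.restrict_pi_pi]
    rfl
  unfold IntegrableOn
  rw [hμ]
  have hmp := measurePreserving_piFinSuccAbove (fun _ : Fin (m + 1) => μ1) k
  have hF := (hmp.integrable_comp_emb (MeasurableEquiv.measurableEmbedding _)).2 (F_int hs hs1 m)
  refine hF.congr (Filter.Eventually.of_forall fun θ => ?_)
  have he : (univ.erase k : Finset (Fin (m + 1))) = univ.image k.succAbove := by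
    ext j
    simp
  show S (θ k) ^ (-s) * ∏ i, (A (θ k) (θ (k.succAbove i)) ^ (-s) + B (θ k) (θ (k.succAbove i)) ^ (-s)) =
    S (θ k) ^ (-s) * ∏ j ∈ univ.erase k, (A (θ k) (θ j) ^ (-s) + B (θ k) (θ j) ^ (-s))
  rw [he, Finset.prod_image (fun x _ y _ h => Fin.succAbove_right_injective h)]

lemma dens_zero {n : ℕ} {q : ℝ} (hq : 2 ≤ q) (θ : Fin n → ℝ) (i : Fin n)
    (h : S (θ i) = 0 ∨ ∃ j, j ≠ i ∧ (A (θ i) (θ j) = 0 ∨ B (θ i) (θ j) = 0)) : densSp q θ = 0 := by
  refine le_antisymm ((dens_le hq θ i).trans_eq ?_) (dens_nonneg q θ)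
  rcases h with h | ⟨j, hj, h⟩
  · rw [h]; ring
  · have h1 : ∏ j ∈ univ.erase i, (A (θ i) (θ j) * B (θ i) (θ j)) ^ 2 = 0 := by
      refine prod_eq_zero (mem_erase.2 ⟨hj, mem_univ j⟩) ?_
      rcases h with h | h <;> rw [h] <;> ring
    rw [h1]; ring

end StarspAux

open StarspAux in
/-- **STARSP**: domination on the torus of `Sp(2n)`. -/
theorem starsp : S_STARSP := by
  intro n s hs hs1
  refine ⟨fun θ => (4 ^ n * C1 n * (4 ^ (n ^ 2)) ^ 2) * (4 ^ n * ∑ i, G n s i θ), ?_, ?_, ?_⟩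
  · exact ((integrable_finsetSum _ fun i _ => G_int hs hs1 n i).const_mul _).const_mul _
  · intro θ
    exact mul_nonneg (mul_nonneg (mul_nonneg (by positivity) (C1_nonneg n)) (by positivity))
      (mul_nonneg (by positivity) (sum_nonneg fun i _ => G_nonneg n s i θ))
  · intro q hq θ k
    constructor
    · intro hinj
      obtain ⟨i, hi⟩ := star_eq θ k
      rw [hi]
      have hcn : ∀ a b : Fin n, Fin.castAdd n a ≠ Fin.natAdd n b := by
        intro a b h
        have := congrArg Fin.val h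
        simp at this
        have := a.2
        omega
      refine (main_bound hs hs1 hq θ i ?_ ?_ ?_).trans ?_
      · intro h0
        refine hcn i i (hinj ?_)
        rw [sp_castAdd, sp_natAdd]
        exact sub_eq_zero.1 (norm_eq_zero.1 h0)
      · intro j hj h0
        refine hj (Fin.castAdd_injective n n (hinj ?_)).symm
        rw [sp_castAdd, sp_castAdd]
        exact sub_eq_zero.1 (norm_eq_zero.1 h0)
      · intro j hj h0
        refine hcn j i (hinj ?_).symm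
        rw [sp_castAdd, sp_natAdd]
        exact sub_eq_zero.1 (norm_eq_zero.1 h0)
      · refine mul_le_mul_of_nonneg_left (mul_le_mul_of_nonneg_left ?_ (by positivity))
          (mul_nonneg (mul_nonneg (by positivity) (C1_nonneg n)) (by positivity))
        exact single_le_sum (f := fun i => G n s i θ) (fun i _ => G_nonneg n s i θ) (mem_univ i)
    · intro hinj
      by_contra hd
      apply hinj
      have key : ∀ i : Fin n, S (θ i) ≠ 0 ∧ ∀ j, j ≠ i → (A (θ i) (θ j) ≠ 0 ∧ B (θ i) (θ j) ≠ 0) := by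
        intro i
        refine ⟨fun h => hd (dens_zero hq θ i (Or.inl h)), fun j hj => ⟨fun h => ?_, fun h => ?_⟩⟩
        · exact hd (dens_zero hq θ i (Or.inr ⟨j, hj, Or.inl h⟩))
        · exact hd (dens_zero hq θ i (Or.inr ⟨j, hj, Or.inr h⟩))
      intro k k'
      refine Fin.addCases (fun i => ?_) (fun i => ?_) k <;>
        refine Fin.addCases (fun j => ?_) (fun j => ?_) k' <;> intro h <;>
        simp only [sp_castAdd, sp_natAdd] at h
      · by_cases hij : j = i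
        · rw [hij]
        · exact absurd (show A (θ i) (θ j) = 0 by unfold A; rw [h, sub_self, norm_zero])
            ((key i).2 j hij).1
      · by_cases hij : j = i
        · subst hij
          exact absurd (show S (θ j) = 0 by unfold S; rw [← h, sub_self, norm_zero]) (key j).1
        · exact absurd (show B (θ i) (θ j) = 0 by rw [← B_eq, h, sub_self, norm_zero])
            ((key i).2 j hij).2
      · by_cases hij : j = i
        · subst hij
          exact absurd (show S (θ j) = 0 by unfold S; rw [h, sub_self, norm_zero]) (key j).1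
        · exact absurd (show B (θ i) (θ j) = 0 by unfold B; rw [h, sub_self, norm_zero])
            ((key i).2 j hij).2
      · by_cases hij : j = i
        · rw [hij]
        · exact absurd (show A (θ i) (θ j) = 0 by rw [← A_neg, h, sub_self, norm_zero])
            ((key i).2 j hij).1

end Pool.Agent.N846.AT
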