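import Pool.Agent.N846.AT.GenNear
import Pool.Agent.N846.AT.Densp
import Pool.Agent.N846.AT.Starsp

/-!
# Project AT: the Plancherel functionals of `PGL(n)` and `SO(2n+1)` have the properties `Plan`
-/

set_option autoImplicit false

namespace Pool.Agent.N846.AT

open Finset Complex MeasureTheory
open scoped BigOperators ComplexConjugate

namespace PlanSp

open Mean Avg Gen

lemma norm_sp {n : ℕ} (θ : Fin n → ℝ) (j : Fin (n + n)) : ‖sp θ j‖ = 1 := by
  unfold sp
  refine Fin.addCases (fun i => ?_) (fun i => ?_) j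
  · rw [Fin.append_left]
    exact norm_pt θ i
  · rw [Fin.append_right, norm_inv, norm_pt, inv_one]

lemma tempered_sp {n : ℕ} (θ : Fin n → ℝ) : Tempered (sp θ) := fun j => norm_sp θ j

lemma continuous_sp {n : ℕ} (j : Fin (n + n)) : Continuous (fun θ : Fin n → ℝ => sp θ j) := by
  have hc : ∀ i : Fin n, Continuous (fun θ : Fin n → ℝ => pt θ i) := fun i =>
    (continuous_apply i).comp continuous_pt
  unfold sp
  refine Fin.addCases (fun i => ?_) (fun i => ?_) j
  · simp only [Fin.append_left]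
    exact hc i
  · simp only [Fin.append_right]
    refine (hc i).inv₀ fun θ h => ?_
    have := norm_pt θ i
    rw [h] at this
    simp at this

lemma continuous_word_sp {n : ℕ} (w : List ℤ) :
    Continuous (fun θ : Fin n → ℝ => word (sp θ) w) := by
  have hps : ∀ m : ℤ, Continuous (fun θ : Fin n → ℝ => psum (sp θ) m) := by
    intro m
    unfold psum
    refine continuous_finsetSum _ fun i _ => ?_
    refine (continuous_sp i).zpow₀ m fun θ => Or.inl ?_
    intro h
    have := norm_sp θ i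
    rw [h] at this
    simp at this
  unfold word
  induction w with
  | nil => simpa using continuous_const
  | cons m w ih =>
    simp only [List.map_cons, List.prod_cons]
    exact (hps m).mul ih

lemma integrable_word_sp {n : ℕ} {q : ℝ} (hq : 2 ≤ q) (w : List ℤ) :
    IntegrableOn (fun θ : Fin n → ℝ => word (sp θ) w * (densSp q θ : ℂ))
      (Set.Icc (0 : Fin n → ℝ) 1) := by
  have hc : Continuous (fun θ : Fin n → ℝ => word (sp θ) w * (densSp q θ : ℂ)) :=
    (continuous_word_sp w).mul (Complex.continuous_ofReal.comp (densp n q hq).1)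
  exact hc.continuousOn.integrableOn_compact isCompact_Icc

/-- linearity on words -/
lemma lin_sp {n : ℕ} {q : ℝ} (hq : 2 ≤ q) (m : ℕ) (c : Fin m → ℂ) (v : Fin m → List ℤ) :
    plSp (n := n) q (fun a => ∑ j, c j * word a (v j)) =
      ∑ j, c j * plSp (n := n) q (fun a => word a (v j)) := by
  unfold plSp
  have h1 : ∀ θ : Fin n → ℝ, (∑ j, c j * word (sp θ) (v j)) * (densSp q θ : ℂ) =
      ∑ j, c j * (word (sp θ) (v j) * (densSp q θ : ℂ)) := by
    intro θ
    rw [sum_mul]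
    exact sum_congr rfl fun j _ => by ring
  simp_rw [h1]
  rw [integral_finsetSum]
  · rw [sum_div]
    refine sum_congr rfl fun j _ => ?_
    rw [integral_const_mul, mul_div_assoc]
  · intro j _
    exact (integrable_word_sp hq (v j)).const_mul _

lemma lin_gl {n : ℕ} {q : ℝ} (hq : 2 ≤ q) (hD : S_DEN) (m : ℕ) (c : Fin m → ℂ)
    (v : Fin m → List ℤ) :
    pl (n := n) q (fun a => ∑ j, c j * word a (v j)) =
      ∑ j, c j * pl (n := n) q (fun a => word a (v j)) := by
  unfold pl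
  have h1 : ∀ θ : Fin n → ℝ, (∑ j, c j * word (pt θ) (v j)) * (dens q θ : ℂ) =
      ∑ j, c j * (word (pt θ) (v j) * (dens q θ : ℂ)) := by
    intro θ
    rw [sum_mul]
    exact sum_congr rfl fun j _ => by ring
  simp_rw [h1]
  rw [integral_finsetSum]
  · rw [sum_div]
    refine sum_congr rfl fun j _ => ?_
    rw [integral_const_mul, mul_div_assoc]
  · intro j _
    exact (integrable_word hD hq (v j)).const_mul _

/-- the constant -/
noncomputable def Cst (n : ℕ) (s : ℝ) : ℝ :=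
  n * (5 * (n : ℝ) ^ 2 * 4 ^ n) ^ (1 + s / 2) * (n : ℝ) ^ (1 + s / 2) * n

lemma point_sp (S : Leaves) {n K : ℕ} (hn : 1 ≤ n) (hK : 1 ≤ K) {s : ℝ} (hs0 : 0 ≤ s) (hs1 : s < 1)
    {Q : Polynomial ℝ} (hQ : Good (n + n) K Q) {q : ℝ} (hq : 2 ≤ q) (g : (Fin n → ℝ) → ℝ)
    (hg0 : ∀ θ, 0 ≤ g θ)
    (hg : ∀ θ : Fin n → ℝ, ∀ k : Fin (n + n), (Function.Injective (sp θ) →
      (∏ j ∈ univ.erase k, (‖sp θ k - sp θ j‖ ^ 2)⁻¹) ^ (1 + s / 2) * densSp q θ ≤ g θ) ∧
      (¬ Function.Injective (sp θ) → densSp q θ = 0)) (θ : Fin n → ℝ) :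
    ‖trQ K Q (sp θ) * (densSp q θ : ℂ)‖ ≤ Cst (n + n) s * (K : ℝ) ^ (-(2 + s)) * g θ := by
  obtain ⟨h, -⟩ := S.her (n + n) (sp θ) (unitary_of_tempered _ (tempered_sp θ))
  have hd0 := (densp n q hq).2 θ
  have hKp : (0 : ℝ) < K := by exact_mod_cast hK
  obtain ⟨N, hN⟩ : ∃ N, N = n + n := ⟨_, rfl⟩
  have hNp : (0 : ℝ) < ((n + n : ℕ) : ℝ) := by exact_mod_cast (by omega : 0 < n + n)
  have hC0 : 0 ≤ Cst (n + n) s := by unfold Cst; positivity
  have hg0' := hg0 θ
  by_cases hinj : Function.Injective (sp θ)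
  swap
  · have hz : densSp q θ = 0 := (hg θ ⟨0, by omega⟩).2 hinj
    rw [hz]
    simp only [ofReal_zero, mul_zero, norm_zero]
    positivity
  · rw [trQ_eq S.pow hQ.1 h, ← ofReal_mul, Complex.norm_real]
    have hS0 : 0 ≤ ∑ i, Q.eval (h.eigenvalues i) := sum_nonneg fun i _ => hQ.2.1 _
    rw [Real.norm_of_nonneg (mul_nonneg hS0 hd0)]
    obtain ⟨t, htt⟩ : ∃ t, t = 1 + s / 2 := ⟨_, rfl⟩
    obtain ⟨R, hR⟩ : ∃ R : Fin (n + n) → ℝ,
      R = fun k => ∏ j ∈ univ.erase k, (‖sp θ k - sp θ j‖ ^ 2)⁻¹ := ⟨_, rfl⟩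
    have hR0 : ∀ k, 0 ≤ R k := by
      intro k
      rw [hR]
      exact prod_nonneg fun j _ => by positivity
    have hsum0 : 0 ≤ ∑ k, R k := sum_nonneg fun k _ => hR0 k
    obtain ⟨M, hM⟩ : ∃ M : ℝ, M = ((n + n : ℕ) : ℝ) := ⟨_, rfl⟩
    have hMp : 0 < M := by rw [hM]; exact hNp
    have h1 : ∑ i, Q.eval (h.eigenvalues i) ≤
        M * (5 * M ^ 2 * 4 ^ (n + n) * (∑ k, R k) / (K : ℝ) ^ 2) ^ t := by
      calc ∑ i, Q.eval (h.eigenvalues i)
          ≤ ∑ _i : Fin (n + n), (5 * M ^ 2 * 4 ^ (n + n) * (∑ k, R k) / (K : ℝ) ^ 2) ^ t := by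
            refine sum_le_sum fun i _ => ?_
            rw [hR, hM]
            exact eig_bound S.low (by omega) hK hQ (tempered_sp θ) hinj h i (by linarith)
              (by linarith)
        _ = M * (5 * M ^ 2 * 4 ^ (n + n) * (∑ k, R k) / (K : ℝ) ^ 2) ^ t := by
            rw [sum_const, card_univ, Fintype.card_fin, nsmul_eq_mul, hM]
    have h2 : (5 * M ^ 2 * 4 ^ (n + n) * (∑ k, R k) / (K : ℝ) ^ 2) ^ t =
        (5 * M ^ 2 * 4 ^ (n + n)) ^ t * (∑ k, R k) ^ t * (K : ℝ) ^ (-(2 + s)) := by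
      rw [Real.div_rpow (by positivity) (by positivity), Real.mul_rpow (by positivity) hsum0,
        div_eq_mul_inv]
      congr 1
      rw [← Real.rpow_natCast (K : ℝ) 2, ← Real.rpow_mul hKp.le, ← Real.rpow_neg hKp.le]
      congr 1
      rw [htt]
      push_cast
      ring
    have h3 : (∑ k, R k) ^ t ≤ M ^ t * ∑ k, (R k) ^ t := by
      rw [hM]
      exact sum_rpow_le R hR0 (by linarith)
    have h4 : (∑ k, (R k) ^ t) * densSp q θ ≤ M * g θ := by
      rw [sum_mul]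
      calc ∑ k, (R k) ^ t * densSp q θ ≤ ∑ _k : Fin (n + n), g θ := by
            refine sum_le_sum fun k _ => ?_
            rw [hR, htt]
            exact (hg θ k).1 hinj
        _ = M * g θ := by rw [sum_const, card_univ, Fintype.card_fin, nsmul_eq_mul, hM]
    have hRt : 0 ≤ ∑ k, (R k) ^ t := sum_nonneg fun k _ => Real.rpow_nonneg (hR0 k) t
    calc (∑ i, Q.eval (h.eigenvalues i)) * densSp q θ
        ≤ (M * ((5 * M ^ 2 * 4 ^ (n + n)) ^ t * (M ^ t * ∑ k, (R k) ^ t) *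
            (K : ℝ) ^ (-(2 + s)))) * densSp q θ := by
          refine mul_le_mul_of_nonneg_right (h1.trans ?_) hd0
          rw [h2]
          refine mul_le_mul_of_nonneg_left ?_ hMp.le
          refine mul_le_mul_of_nonneg_right ?_ (by positivity)
          exact mul_le_mul_of_nonneg_left h3 (by positivity)
      _ = (M * (5 * M ^ 2 * 4 ^ (n + n)) ^ t * M ^ t * (K : ℝ) ^ (-(2 + s))) *
            ((∑ k, (R k) ^ t) * densSp q θ) := by ring
      _ ≤ (M * (5 * M ^ 2 * 4 ^ (n + n)) ^ t * M ^ t * (K : ℝ) ^ (-(2 + s))) * (M * g θ) :=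
          mul_le_mul_of_nonneg_left h4 (by positivity)
      _ = Cst (n + n) s * (K : ℝ) ^ (-(2 + s)) * g θ := by
          unfold Cst
          rw [htt, hM]
          ring

theorem mean_sp (S : Leaves) {n : ℕ} (hn : 1 ≤ n) {s : ℝ} (hs0 : 0 ≤ s) (hs1 : s < 1) :
    ∃ C : ℝ, 0 < C ∧ ∀ (K : ℕ), 1 ≤ K → ∀ Q : Polynomial ℝ, Good (n + n) K Q → ∀ q : ℝ, 2 ≤ q →
      ‖plSp (n := n) q (fun a => trQ K Q a)‖ ≤ C * (K : ℝ) ^ (-(2 + s)) := by
  obtain ⟨c, hc, hmass⟩ := massp_pos n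
  obtain ⟨g, hint, hg0, hg⟩ := starsp n s hs0 hs1
  obtain ⟨I, hI⟩ : ∃ I, I = ∫ θ in Set.Icc (0 : Fin n → ℝ) 1, g θ := ⟨_, rfl⟩
  have hI0 : 0 ≤ I := by
    rw [hI]
    exact integral_nonneg fun θ => hg0 θ
  have hC0 : 0 ≤ Cst (n + n) s := by unfold Cst; positivity
  refine ⟨Cst (n + n) s * I / c + 1, by positivity, fun K hK Q hQ q hq => ?_⟩
  have hKp : (0 : ℝ) < K := by exact_mod_cast hK
  have hm := hmass q hq
  have hm0 : 0 < massSp n q := hc.trans_le hm
  have h1 : ‖∫ θ in Set.Icc (0 : Fin n → ℝ) 1, trQ K Q (sp θ) * (densSp q θ : ℂ)‖ ≤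
      Cst (n + n) s * (K : ℝ) ^ (-(2 + s)) * I := by
    rw [hI, ← integral_const_mul]
    refine norm_integral_le_of_norm_le (hint.const_mul _) ?_
    exact Filter.Eventually.of_forall fun θ => point_sp S hn hK hs0 hs1 hQ hq g hg0 (hg q hq) θ
  unfold plSp
  rw [norm_div, Complex.norm_real, Real.norm_of_nonneg hm0.le, div_le_iff₀ hm0]
  refine h1.trans ?_
  have hkp : 0 < (K : ℝ) ^ (-(2 + s)) := Real.rpow_pos_of_pos hKp _
  calc Cst (n + n) s * (K : ℝ) ^ (-(2 + s)) * I =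
        (Cst (n + n) s * I / c) * (K : ℝ) ^ (-(2 + s)) * c := by
        field_simp
    _ ≤ (Cst (n + n) s * I / c + 1) * (K : ℝ) ^ (-(2 + s)) * massSp n q := by
        have h2 : 0 ≤ Cst (n + n) s * I / c := by positivity
        refine mul_le_mul ?_ hm hc.le (by positivity)
        exact mul_le_mul_of_nonneg_right (by linarith) hkp.le

lemma norm_plSp_le {n : ℕ} {q : ℝ} (hq : 2 ≤ q) (f : (Fin (n + n) → ℂ) → ℂ) (M : ℝ)
    (hf : ∀ θ : Fin n → ℝ, ‖f (sp θ)‖ ≤ M) : ‖plSp q f‖ ≤ M := by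
  obtain ⟨c, hc, hmass⟩ := massp_pos n
  have hm0 : 0 < massSp n q := hc.trans_le (hmass q hq)
  unfold plSp
  rw [norm_div, Complex.norm_real, Real.norm_of_nonneg hm0.le, div_le_iff₀ hm0]
  unfold massSp
  rw [← integral_const_mul]
  refine norm_integral_le_of_norm_le ?_ ?_
  · exact ((densp n q hq).1.continuousOn.integrableOn_compact isCompact_Icc).const_mul _
  · refine Filter.Eventually.of_forall fun θ => ?_
    rw [norm_mul, Complex.norm_real, Real.norm_of_nonneg ((densp n q hq).2 θ)]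
    exact mul_le_mul_of_nonneg_right (hf θ) ((densp n q hq).2 θ)

lemma word_two_le {N : ℕ} {a : Fin N → ℂ} (ha : Tempered a) (m : ℤ) :
    ‖word a [m, -m]‖ ≤ (N : ℝ) ^ 2 := by
  rw [Near.word_two (unitary_of_tempered _ ha), Complex.norm_real,
    Real.norm_of_nonneg (by positivity)]
  refine pow_le_pow_left₀ (norm_nonneg _) ?_ 2
  unfold psum
  calc ‖∑ i, a i ^ m‖ ≤ ∑ i : Fin N, (1 : ℝ) := by
        refine norm_sum_le_of_le _ fun i _ => ?_
        rw [norm_zpow, ha i, one_zpow]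
    _ = N := by simp

/-- the functional of `SO(2n+1)` -/
theorem plan_sp (S : Leaves) {n : ℕ} (hn : 1 ≤ n) : Plan (n + n) (plSp (n := n)) where
  lin := fun q hq m c v => lin_sp hq m c v
  mean := fun s hs0 hs1 => mean_sp S hn hs0 hs1
  second := fun q hq m => norm_plSp_le hq _ _ fun θ => word_two_le (tempered_sp θ) m

/-- the functional of `PGL(n)` -/
theorem plan_gl (S : Leaves) {n : ℕ} (hn : 1 ≤ n) : Plan n (pl (n := n)) where
  lin := fun q hq m c v => lin_gl hq S.den m c v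
  mean := fun s hs0 hs1 => Mean.mean S.her S.pow S.low S.den S.mass_pos S.star hn hs0 hs1
  second := fun q hq m => Near.norm_pl_le S.den S.mass_pos hq _ _ fun θ =>
    word_two_le (tempered_pt θ) m

end PlanSp

end Pool.Agent.N846.AT
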