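import Pool.Agent.N846.AT.Stm

/-!
# Project AT (helper846), leaf POW: traces of powers and eigenvalues (written by helper498)
-/

set_option autoImplicit false

namespace Pool.Agent.N846.AT

theorem pow : S_POW := by
  intro n M h r
  have hs := h.spectral_theorem
  conv_lhs => rw [hs]
  rw [← map_pow, Matrix.diagonal_pow, _root_.Unitary.conjStarAlgAut_apply,
    Matrix.trace_mul_comm, ← mul_assoc]
  simp [Matrix.trace_diagonal]

end Pool.Agent.N846.AT
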