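import Pool.Agent.N846.AT.Stm

/-!
# Project AT, WRD: the trace of `H ^ r` as a sum of words (helper487)
-/

set_option autoImplicit false

namespace Pool.Agent.N846.AT

namespace WrdAux

open Finset

lemma len_le {α : Type} {n : ℕ} (L : Fin n → List α) (B : ℕ) (h : ∀ k, (L k).length ≤ B) :
    ((List.finRange n).flatMap L).length ≤ n * B := by
  rw [List.length_flatMap]
  have h1 := List.sum_le_card_nsmul ((List.finRange n).map fun a => (L a).length) B (by
    intro x hx
    obtain ⟨k, -, rfl⟩ := List.mem_map.1 hx
    exact h k)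
  rwa [List.length_map, List.length_finRange, smul_eq_mul] at h1

lemma sum_flat {n : ℕ} (L : Fin n → List (List ℤ)) (f : List ℤ → ℂ) :
    (((List.finRange n).flatMap L).map f).sum = ∑ k, ((L k).map f).sum := by
  rw [Fin.sum_univ_def, List.map_flatMap, List.flatMap, List.sum_flatten, List.map_map]
  rfl

lemma word_append {n : ℕ} (a : Fin n → ℂ) (w : List ℤ) (m : ℤ) : word a (w ++ [m]) = word a w * psum a m := by
  simp [word]

lemma entry (n r : ℕ) : ∀ i j : Fin n, ∃ L : List (List ℤ), L.length ≤ n ^ r ∧
    (∀ w ∈ L, w.sum = (i : ℤ) - (j : ℤ) ∧ w.length = r ∧ (w.map (fun m => (m.natAbs : ℕ))).sum ≤ n * r) ∧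
    ∀ a : Fin n → ℂ, ((H a) ^ r) i j = (L.map (word a)).sum := by
  induction r with
  | zero =>
    intro i j
    by_cases h : i = j
    · subst h
      refine ⟨[[]], by simp, by simp, fun a => ?_⟩
      simp [word]
    · refine ⟨[], by simp, by simp, fun a => ?_⟩
      simp [h]
  | succ r ih =>
    intro i j
    choose L hL using fun k => ih i k
    refine ⟨(List.finRange n).flatMap fun k => (L k).map fun w => w ++ [(k : ℤ) - (j : ℤ)], ?_, ?_, ?_⟩
    · rw [pow_succ, mul_comm]
      refine len_le _ _ fun k => ?_
      rw [List.length_map]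
      exact (hL k).1
    · intro w hw
      obtain ⟨k, -, hk⟩ := List.mem_flatMap.1 hw
      obtain ⟨w', hw', rfl⟩ := List.mem_map.1 hk
      obtain ⟨h1, h2, h3⟩ := (hL k).2.1 w' hw'
      refine ⟨?_, ?_, ?_⟩
      · rw [List.sum_append, h1]
        simp
      · rw [List.length_append, h2]
        rfl
      · rw [List.map_append, List.sum_append, mul_add, mul_one]
        refine add_le_add h3 ?_
        simp only [List.map_cons, List.map_nil, List.sum_cons, List.sum_nil, add_zero]
        have hk := k.2
        have hj := j.2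
        omega
    · intro a
      rw [pow_succ, Matrix.mul_apply, sum_flat]
      refine Finset.sum_congr rfl fun k _ => ?_
      rw [(hL k).2.2 a, List.map_map]
      have h1 : (word a ∘ fun w => w ++ [(k : ℤ) - (j : ℤ)]) = fun w => word a w * psum a ((k : ℤ) - (j : ℤ)) := by
        funext w
        exact word_append a w _
      rw [h1, List.sum_map_mul_right]
      rfl

end WrdAux

open WrdAux in
/-- **WRD.** -/
theorem wrd : S_WRD := by
  intro n r
  choose L hL using fun i : Fin n => entry n r i i
  refine ⟨(List.finRange n).flatMap L, ?_, ?_, ?_⟩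
  · rw [pow_succ, mul_comm]
    exact len_le _ _ fun k => (hL k).1
  · intro w hw
    obtain ⟨k, -, hk⟩ := List.mem_flatMap.1 hw
    obtain ⟨h1, h2, h3⟩ := (hL k).2.1 w hk
    exact ⟨by rw [h1, sub_self], h2, h3⟩
  · intro a
    rw [sum_flat, Matrix.trace]
    exact Finset.sum_congr rfl fun k _ => (hL k).2.2 a

end Pool.Agent.N846.AT
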