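import Pool.Agent.N846.AT.GenMain
import Pool.Agent.N846.AT.PlanSp
import Pool.Agent.N846.AT.Her
import Pool.Agent.N846.AT.Pow
import Pool.Agent.N846.AT.Wrd
import Pool.Agent.N846.AT.Che
import Pool.Agent.N846.AT.Low
import Pool.Agent.N846.AT.Star
import Pool.Agent.N846.AT.Den
import Pool.Agent.N846.AT.Newt
import Pool.Agent.H921R2.TatePole.Base

/-!
# Project AT: the places of a number field; all leaves
-/

set_option autoImplicit false

namespace Pool.Agent.N846.AT

open NumberField IsDedekindDomain Pool.Agent.H921R2.TatePole

namespace PlanK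

lemma places (K : Type) [Field K] [NumberField K] :
    Gen.Places (HeightOneSpectrum (𝓞 K)) (fun v => Ideal.absNorm v.asIdeal)
      (Module.finrank ℚ K) where
  two_le := fun v => two_le_nm v
  few := fun m P hP => by
    rcases P.eq_empty_or_nonempty with h | ⟨v₀, hv₀⟩
    · simp [h]
    · refine card_above (below v₀) P fun v hv => Subtype.ext ?_
      change (Ideal.absNorm v.asIdeal).minFac = (Ideal.absNorm v₀.asIdeal).minFac
      rw [hP v hv, hP v₀ hv₀]

/-- all the facts -/
lemma leaves : Leaves where
  her := her
  pow := pow
  wrd := wrd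
  che := che
  low := low
  star := star
  mass_pos := mass_pos
  den := den

end PlanK

end Pool.Agent.N846.AT
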